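import Pool.Agent.Q60.FI.Base
import Pool.Agent.Q60.NP.Sub

/-!
# The infinitesimal stabiliser of the tensors of degree at most four

Let `C ⊂ C'` be closed systems of tensors with the same tensors of degrees two and four. If the
projection onto the Lie algebra of `C'` belongs to `C'` and all central skew endomorphisms of the
system are zero, then the tensors of `C` of degree at most four have the same infinitesimal
stabiliser as `C'`.
-/

set_option linter.unusedSectionVars false

namespace Pool.Agent.Q60.FI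

open Module Matrix Pool.Agent.Q60.ED Pool.Agent.Q60.NP Pool.Agent.Q60.TD

variable {K : Type} [Field K] {ι : Type} [Fintype ι] [DecidableEq ι]

/-- The matrix of the infinitesimal action on tensors. -/
noncomputable def am (x : Matrix ι ι K) (n : ℕ) : Matrix (Fin n → ι) (Fin n → ι) K :=
  Matrix.of fun I J => aop x (Pi.single J 1) I

lemma am_mulVec (x : Matrix ι ι K) {n : ℕ} (t : (Fin n → ι) → K) :
    (am x n).mulVec t = aop x t := by
  have h1 : t = ∑ J, t J • (Pi.single J 1 : (Fin n → ι) → K) := (TSys.sum_single t).symm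
  funext I
  rw [Matrix.mulVec, dotProduct]
  conv_rhs => rw [h1]
  have h2 : ∀ s : Finset (Fin n → ι), aop x (∑ J ∈ s, t J • (Pi.single J 1 : (Fin n → ι) → K)) =
      ∑ J ∈ s, t J • aop x (Pi.single J 1 : (Fin n → ι) → K) := by
    intro s
    induction s using Finset.induction_on with
    | empty => rw [Finset.sum_empty, Finset.sum_empty, aop_zeroL]
    | insert a s ha ih => rw [Finset.sum_insert ha, Finset.sum_insert ha, aop_addL, aop_smulL, ih]
  rw [h2, Finset.sum_apply]
  refine Finset.sum_congr rfl fun J _ => ?_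
  rw [am, Matrix.of_apply, Pi.smul_apply, smul_eq_mul, mul_comm]

lemma am_mul (x : Matrix ι ι K) {n : ℕ} {B : Type} [Fintype B] (A : Matrix (Fin n → ι) B K)
    (I : Fin n → ι) (J : B) : (am x n * A) I J =
      ∑ k, ∑ j, x (I k) j * A (Function.update I k j) J := by
  have h1 : (am x n * A) I J = (am x n).mulVec (fun L => A L J) I := rfl
  rw [h1, am_mulVec, aop_apply]

/-- The infinitesimal action on the tensor of a matrix. -/
lemma aop_tenM (x : Matrix ι ι K) {p q : ℕ} (A : Matrix (Fin p → ι) (Fin q → ι) K)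
    (I : Fin p → ι) (J : Fin q → ι) : aop x (tenM A) (Fin.append I J) =
      (am x p * A + A * (am x q).transpose) I J := by
  have h0 : (A * (am x q).transpose) I J = (am x q * A.transpose) J I := by
    rw [← Matrix.transpose_apply (A * _), Matrix.transpose_mul, Matrix.transpose_transpose]
  rw [Matrix.add_apply, h0, am_mul, am_mul, aop_apply, Fin.sum_univ_add]
  congr 1
  · refine Finset.sum_congr rfl fun k _ => Finset.sum_congr rfl fun j _ => ?_
    rw [Fin.append_left, tenM]
    congr 2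
    · funext l
      rw [Function.update_apply, Function.update_apply]
      by_cases h : l = k
      · rw [if_pos h, if_pos (by rw [h])]
      · rw [if_neg h, if_neg (fun h' => h (Fin.castAdd_injective p q h')), Fin.append_left]
    · funext l
      rw [Function.update_apply, if_neg, Fin.append_right]
      intro h
      have := congrArg Fin.val h
      simp only [Fin.val_natAdd, Fin.val_castAdd] at this
      omega
  · refine Finset.sum_congr rfl fun k _ => Finset.sum_congr rfl fun j _ => ?_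
    rw [Fin.append_right, tenM, Matrix.transpose_apply]
    congr 2
    · funext l
      rw [Function.update_apply, if_neg, Fin.append_left]
      intro h
      have := congrArg Fin.val h
      simp only [Fin.val_natAdd, Fin.val_castAdd] at this
      omega
    · funext l
      rw [Function.update_apply, Function.update_apply]
      by_cases h : l = k
      · rw [if_pos h, if_pos (by rw [h])]
      · rw [if_neg h, if_neg (fun h' => h (Fin.natAdd_injective q p h')), Fin.append_right]

lemma am_of_kill {x : Matrix ι ι K} {p q : ℕ} {A : Matrix (Fin p → ι) (Fin q → ι) K}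
    (h : aop x (tenM A) = 0) : am x p * A + A * (am x q).transpose = 0 := by
  ext I J
  rw [← aop_tenM, h]
  rfl

/-- The infinitesimal action on the vector of a matrix. -/
lemma aop_vec (x Y : Matrix ι ι K) : aop x (NP.vec Y) = NP.vec (x * Y + Y * x.transpose) := by
  funext w
  rw [aop_apply, Fin.sum_univ_two, NP.vec, Matrix.add_apply, Matrix.mul_apply, Matrix.mul_apply]
  congr 1
  refine Finset.sum_congr rfl fun j _ => ?_
  rw [Matrix.transpose_apply, NP.vec, mul_comm]
  simp

section main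

variable {Q : Matrix ι ι K}

/-- The tensor of an endomorphism. -/
noncomputable def tv (Q : Matrix ι ι K) (A : Matrix ι ι K) : (Fin 2 → ι) → K :=
  NP.vec (A * (Q⁻¹).transpose)

lemma tv_inj (hQ : Q.det ≠ 0) {A B : Matrix ι ι K} (h : tv Q A = tv Q B) : A = B := by
  have h1 := vec_inj h
  have h2 := congrArg (fun M => M * Q.transpose) h1
  simp only [Matrix.mul_assoc, ← Matrix.transpose_mul] at h2
  rw [Matrix.mul_nonsing_inv _ (isUnit_iff_ne_zero.2 hQ), Matrix.transpose_one, Matrix.mul_one,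
    Matrix.mul_one] at h2
  exact h2

lemma tv_mul_right (hQ : Q.det ≠ 0) (Y : Matrix ι ι K) : tv Q (Y * Q.transpose) = NP.vec Y := by
  rw [tv, Matrix.mul_assoc, ← Matrix.transpose_mul, Matrix.nonsing_inv_mul _
    (isUnit_iff_ne_zero.2 hQ), Matrix.transpose_one, Matrix.mul_one]

variable {C : CSys Q}

lemma skew_of_kill {C : CSys Q} {x : Matrix ι ι K} (hx : ∀ s ∈ C.S 2, aop x s = 0) :
    x * (Q⁻¹).transpose = - ((Q⁻¹).transpose * x.transpose) := by
  have h1 := hx _ C.om
  have h2 : (fun w : Fin 2 → ι => Q⁻¹ (w 0) (w 1)) = NP.vec Q⁻¹ := rfl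
  rw [h2, aop_vec] at h1
  have h3 : x * Q⁻¹ + Q⁻¹ * x.transpose = 0 := vec_inj (h1.trans rfl)
  have h4 := congrArg Matrix.transpose h3
  rw [Matrix.transpose_add, Matrix.transpose_mul, Matrix.transpose_mul, Matrix.transpose_transpose,
    Matrix.transpose_zero] at h4
  rw [eq_neg_iff_add_eq_zero, add_comm]
  exact h4

/-- The infinitesimal action on the tensor of an endomorphism is the commutator. -/
lemma aop_tv {C : CSys Q} {x : Matrix ι ι K} (hx : ∀ s ∈ C.S 2, aop x s = 0) (A : Matrix ι ι K) :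
    aop x (tv Q A) = tv Q (x * A - A * x) := by
  rw [tv, aop_vec, tv]
  congr 1
  rw [Matrix.sub_mul, Matrix.mul_assoc A x, skew_of_kill hx, Matrix.mul_neg, sub_neg_eq_add,
    Matrix.mul_assoc, Matrix.mul_assoc]

/-- The infinitesimal stabiliser commutes with the operators of the system. -/
lemma am_comm (hQ : Q.det ≠ 0) {x : Matrix ι ι K} (hx : ∀ s ∈ C.S 4, aop x s = 0)
    {P : Matrix (Fin 2 → ι) (Fin 2 → ι) K} (hP : P ∈ C.opAlg hQ) :
    am x 2 * P = P * am x 2 := by
  have h1 : am x 2 * (P * TP Q⁻¹ 2) + (P * TP Q⁻¹ 2) * (am x 2).transpose = 0 :=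
    am_of_kill (hx _ (CSys.mem_M_iff.1 ((CSys.mem_opAlg hQ).1 hP)))
  have h2 : am x 2 * TP Q⁻¹ 2 + TP Q⁻¹ 2 * (am x 2).transpose = 0 :=
    am_of_kill (hx _ (CSys.mem_M_iff.1 (CSys.M_one 2)))
  have h3 : (am x 2 * P - P * am x 2) * TP Q⁻¹ 2 = 0 := by
    have h4 : TP Q⁻¹ 2 * (am x 2).transpose = - (am x 2 * TP Q⁻¹ 2) :=
      eq_neg_of_add_eq_zero_right h2
    rw [Matrix.sub_mul, Matrix.mul_assoc, Matrix.mul_assoc, sub_eq_zero]
    rw [Matrix.mul_assoc P, h4, Matrix.mul_neg, ← sub_eq_add_neg, sub_eq_zero] at h1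
    exact h1
  have h5 := congrArg (fun M => M * TP Q 2) h3
  simp only [Matrix.mul_assoc, (TP_det hQ 2).2, Matrix.mul_one, Matrix.zero_mul] at h5
  exact sub_eq_zero.1 h5

/-- **The infinitesimal stabiliser is determined in degree four.** -/
theorem lie_eq (hQ : Q.det ≠ 0) {C C' : CSys Q} (hle : ∀ n, C.S n ≤ C'.S n)
    (h2 : C'.S 2 ≤ C.S 2) (h4 : C'.S 4 ≤ C.S 4)
    {P : Matrix (Fin 2 → ι) (Fin 2 → ι) K} (hP : P ∈ C'.opAlg hQ)
    (hP1 : ∀ A, ∃ B, Lie C'.S B ∧ P.mulVec (tv Q A) = tv Q B)
    (hP2 : ∀ A, Lie C'.S A → P.mulVec (tv Q A) = tv Q A)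
    (hconn : ∀ c : Matrix ι ι K, (∀ B, Lie C'.S B → B * c = c * B) →
      (∀ m ≤ 4, ∀ s ∈ C.S m, aop c s = 0) → tv Q c ∈ C'.S 2)
    (hcen : ∀ c : Matrix ι ι K, tv Q c ∈ C.S 2 → (∀ a, tv Q a ∈ C.S 2 → a * c = c * a) →
      (∀ s ∈ C.S 2, aop c s = 0) → c = 0)
    {x : Matrix ι ι K} (hx : ∀ m ≤ 4, ∀ s ∈ C.S m, aop x s = 0) : Lie C'.S x := by
  have hPC : P ∈ C.opAlg hQ := by
    rw [CSys.mem_opAlg, CSys.mem_M_iff] at hP ⊢
    exact h4 hP
  have hLC : ∀ B, Lie C'.S B → ∀ m, ∀ s ∈ C.S m, aop B s = 0 := fun B hB m s hs =>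
    hB m s (hle m hs)
  obtain ⟨x', hx', hPx⟩ := hP1 x
  have hx2 := hx 2 (by norm_num)
  -- the commutators with the Lie algebra
  have hcom : ∀ B, Lie C'.S B → B * x' - x' * B = B * x - x * B := by
    intro B hB
    have hB2 := hLC B hB 2
    have e1 : (am x 2 * P).mulVec (tv Q B) = (P * am x 2).mulVec (tv Q B) := by
      rw [am_comm hQ (hx 4 le_rfl) hPC]
    rw [← Matrix.mulVec_mulVec, ← Matrix.mulVec_mulVec, hP2 B hB, am_mulVec, aop_tv hx2] at e1
    have e2 : (am B 2 * P).mulVec (tv Q x) = (P * am B 2).mulVec (tv Q x) := by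
      rw [am_comm hQ (hLC B hB 4) hPC]
    rw [← Matrix.mulVec_mulVec, ← Matrix.mulVec_mulVec, hPx, am_mulVec, am_mulVec, aop_tv hB2,
      aop_tv hB2] at e2
    have e3 : tv Q (B * x - x * B) = (-1 : K) • tv Q (x * B - B * x) := by
      rw [tv, tv]
      funext w
      rw [Pi.smul_apply, NP.vec, NP.vec, ← Matrix.smul_apply, ← Matrix.smul_mul]
      rw [neg_one_smul, neg_sub]
    have e4 : P.mulVec (tv Q (B * x - x * B)) = tv Q (B * x - x * B) := by
      rw [e3, Matrix.mulVec_smul, ← e1]
    rw [e4] at e2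
    exact tv_inj hQ e2
  set c := x - x' with hc
  have hcB : ∀ B, Lie C'.S B → B * c = c * B := by
    intro B hB
    have h1 := hcom B hB
    rw [hc, Matrix.mul_sub, Matrix.sub_mul, sub_eq_sub_iff_add_eq_add]
    have h5 : B * x + x' * B = B * x' + x * B := by
      have := sub_eq_sub_iff_add_eq_add.1 h1
      rw [this, add_comm]
    rw [h5, add_comm]
  have hsub : ∀ m, ∀ s : (Fin m → ι) → K, aop x s = 0 → aop x' s = 0 → aop c s = 0 := by
    intro m s h5 h6
    funext I
    have h7 := congrFun h5 I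
    have h8 := congrFun h6 I
    rw [aop_apply] at h7 h8 ⊢
    rw [Pi.zero_apply] at h7 h8 ⊢
    simp only [hc, Matrix.sub_apply, sub_mul, Finset.sum_sub_distrib]
    rw [h7, h8, sub_zero]
  have hck : ∀ m ≤ 4, ∀ s ∈ C.S m, aop c s = 0 := fun m hm s hs =>
    hsub m s (hx m hm s hs) (hLC x' hx' m s hs)
  have hc2 := h2 (hconn c hcB hck)
  have hc0 : c = 0 := by
    refine hcen c hc2 (fun a ha => ?_) (hck 2 (by norm_num))
    have h5 := hck 2 (by norm_num) _ ha
    rw [aop_tv (hck 2 (by norm_num))] at h5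
    have h6 : tv Q (c * a - a * c) = tv Q 0 := by
      rw [h5]
      funext w
      simp [tv, NP.vec]
    have h7 := tv_inj hQ h6
    exact (sub_eq_zero.1 h7).symm
  have h9 : x = x' := sub_eq_zero.1 hc0
  rw [h9]
  exact hx'

/-- The projection onto the Lie algebra of a nondegenerate closed system. -/
theorem exists_P (hQ : Q.det ≠ 0) {C' : CSys Q}
    (hnd : ∀ n, ∀ v ∈ C'.S n, (∀ w ∈ C'.S n, bf (TP Q n) v w = 0) → v = 0) :
    ∃ P ∈ C'.opAlg hQ, (∀ A, ∃ B, Lie C'.S B ∧ P.mulVec (tv Q A) = tv Q B) ∧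
      ∀ A, Lie C'.S A → P.mulVec (tv Q A) = tv Q A := by
  classical
  -- finitely many degrees are enough
  let h : ℕ → Submodule K (Matrix ι ι K) := fun M =>
    { carrier := {A | ∀ m ≤ M, ∀ s ∈ C'.S m, aop A s = 0}
      add_mem' := fun {a b} ha hb m hm s hs => by
        funext I
        have h1 := (aopL s I).map_add a b
        rw [aopL_apply, aopL_apply, aopL_apply, ha m hm s hs, hb m hm s hs] at h1
        rw [h1]; simp
      zero_mem' := fun m hm s hs => by
        funext I
        exact (aopL s I).map_zero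
      smul_mem' := fun c a ha m hm s hs => by
        funext I
        have h1 := (aopL s I).map_smul c a
        rw [aopL_apply, aopL_apply, ha m hm s hs] at h1
        rw [h1]; simp }
  have hanti : Antitone h := fun M M' hMM A hA m hm s hs => hA m (hm.trans hMM) s hs
  obtain ⟨M, hM⟩ := monotone_stabilizes_iff_artinian.2
    (inferInstance : IsArtinian K (Matrix ι ι K)) ⟨fun n => OrderDual.toDual (h n), hanti⟩
  have hst : ∀ A, (∀ m ≤ M + 2, ∀ s ∈ C'.S m, aop A s = 0) → Lie C'.S A := by
    intro A hA n s hs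
    have h1 : A ∈ h M := fun m hm s hs => hA m (by omega) s hs
    rcases le_total n M with hn | hn
    · exact h1 n hn s hs
    · have h2 : h M = h n := congrArg OrderDual.ofDual (hM n hn)
      rw [h2] at h1
      exact h1 n le_rfl s hs
  obtain ⟨e, hes, hee, hbs⟩ := CSys.exists_e hQ (M := M + 2) (by omega) fun n _ => hnd n
  have heO : e ∈ C'.opAlg hQ := by
    have hsub : C'.gens (M + 2) ⊆ (C'.opAlg hQ : Set _) := by
      rintro _ ⟨m, hm, s, hs, u, hu, rfl⟩
      exact CSys.mul_mem_opAlg hQ (CSys.M_comp hQ hu (CSys.bs_mem hs))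
    exact (Submodule.span_le (p := Subalgebra.toSubmodule (C'.opAlg hQ))).2 hsub hes
  have hker : ∀ A, Lie C'.S A → e.mulVec (tv Q A) = 0 := by
    intro A hA
    have h1 : ∀ x ∈ Submodule.span K (C'.gens (M + 2)), x.mulVec (tv Q A) = 0 := by
      intro x hx
      induction hx using Submodule.span_induction with
      | mem x hx =>
        obtain ⟨m, hm, s, hs, u, hu, rfl⟩ := hx
        have h2 := bs_mulVec Q⁻¹ Q (A * (Q⁻¹).transpose) s
        have h3 : Q⁻¹ * (Q * (A * (Q⁻¹).transpose) * Q.transpose) = A := by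
          rw [← Matrix.mul_assoc, ← Matrix.mul_assoc, ← Matrix.mul_assoc,
            Matrix.nonsing_inv_mul _ (isUnit_iff_ne_zero.2 hQ), Matrix.one_mul, Matrix.mul_assoc,
            ← Matrix.transpose_mul, Matrix.mul_nonsing_inv _ (isUnit_iff_ne_zero.2 hQ),
            Matrix.transpose_one, Matrix.mul_one]
        rw [h3, hA m s hs] at h2
        rw [Matrix.mul_assoc, ← Matrix.mulVec_mulVec]
        change _ *ᵥ ((bs Q⁻¹ s * TP Q 2) *ᵥ NP.vec (A * (Q⁻¹).transpose)) = 0
        rw [h2, Matrix.mulVec_zero]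
      | zero => rw [Matrix.zero_mulVec]
      | add a b _ _ ha hb => rw [Matrix.add_mulVec, ha, hb, add_zero]
      | smul c a _ ha => rw [Matrix.smul_mulVec, ha, smul_zero]
    exact h1 e hes
  refine ⟨1 - e, (C'.opAlg hQ).sub_mem (C'.opAlg hQ).one_mem heO, fun A => ?_, fun A hA => ?_⟩
  · set y := (1 - e).mulVec (tv Q A) with hy
    have hey : e.mulVec y = 0 := by
      rw [hy, Matrix.mulVec_mulVec, Matrix.mul_sub, Matrix.mul_one, hee, sub_self,
        Matrix.zero_mulVec]
    let Y : Matrix ι ι K := Matrix.of fun i j => y ![i, j]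
    have hY : NP.vec Y = y := by
      funext w
      change y ![w 0, w 1] = y w
      congr 1
      funext k
      fin_cases k <;> rfl
    refine ⟨Y * Q.transpose, ?_, by rw [tv_mul_right hQ, hY]⟩
    apply hst
    intro m hm s hs
    have h1 := bs_mulVec Q⁻¹ Q Y s
    have h2 : Q⁻¹ * (Q * Y * Q.transpose) = Y * Q.transpose := by
      rw [Matrix.mul_assoc Q, ← Matrix.mul_assoc, Matrix.nonsing_inv_mul _
        (isUnit_iff_ne_zero.2 hQ), Matrix.one_mul]
    rw [h2] at h1
    rw [← h1, ← hbs m hm s hs, ← Matrix.mulVec_mulVec, hY, hey, Matrix.mulVec_zero]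
  · rw [Matrix.sub_mulVec, Matrix.one_mulVec, hker A hA, sub_zero]

end main

end Pool.Agent.Q60.FI
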