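import Pool.Agent.Q60.FI.Hdg
import Pool.Agent.Q60.HD.Law

/-!
# The index of the classes of a system among the Hodge classes on the powers of a variety
-/

open CategoryTheory AlgebraicGeometry TensorProduct

set_option linter.unusedSectionVars false

universe u v

namespace Pool.Agent.Q60.FI

open Module Matrix
open Pool.Agent.H914 Pool.Agent.H914.VarClass Pool.Agent.H914.VarClass.Obj
  Pool.Agent.H914.WeilCohomology
open Pool.Agent.Y133.Half Pool.Agent.Y121.AH Pool.Agent.Q60.ED Pool.Agent.Q60.HD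

/-- The rank over a field whose elements are rational. -/
lemma finrank_eq_rat {K : Type} [Field K] [CharZero K] (hrat : ∀ x : K, ∃ q : ℚ, (q : K) = x)
    {M M' : Type} [AddCommGroup M] [Module ℚ M] [AddCommGroup M'] [Module K M'] (j : M ≃+ M')
    (hj : ∀ (q : ℚ) (m : M), j (q • m) = (q : K) • j m) : finrank ℚ M = finrank K M' := by
  have h1 := rank_eq_of_equiv_equiv (Rat.castHom K) j
    ⟨Rat.cast_injective, fun x => hrat x⟩ hj
  rw [finrank, finrank, h1]

section phs

variable {ι : Type} [Fintype ι] [DecidableEq ι] (V : PHS ι)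

/-- The tensor of a matrix is invariant if and only if the matrix commutes with the action. -/
lemma tv_iff (c : Matrix ι ι ℚ) : tv V.Q c ∈ V.T 2 ↔ ∀ z : ℂ, z ≠ 0 →
    V.c z * qc c = qc c * V.c z := by
  have h2 : mat2 (cx (tv V.Q c)) = qc c * (qc V.Q⁻¹).transpose := by
    ext i j
    rw [mat2, Matrix.of_apply, cx, tv, NP.vec, Matrix.mul_apply, Matrix.mul_apply, Rat.cast_sum]
    refine Finset.sum_congr rfl fun k _ => ?_
    rw [Rat.cast_mul]
    rfl
  have h3 : ∀ z : ℂ, z ≠ 0 →
      V.c z * (qc V.Q⁻¹).transpose * (V.c z).transpose = (qc V.Q⁻¹).transpose := by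
    intro z hz
    have h4 := congrArg Matrix.transpose (PHS.c_Om (V := V) hz)
    rw [Matrix.transpose_mul, Matrix.transpose_mul, Matrix.transpose_transpose,
      ← Matrix.mul_assoc] at h4
    exact h4
  constructor
  · intro h z hz
    have h4 := congrArg mat2 (h z hz)
    rw [tpow_two, h2] at h4
    have hcu := isUnit_iff_ne_zero.2 (PHS.c_det (V := V) hz)
    have hΩ : (qc V.Q⁻¹).transpose * (qc V.Q).transpose = 1 := by
      rw [← Matrix.transpose_mul, qc_inv PHS.qc_det,
        Matrix.mul_nonsing_inv _ (isUnit_iff_ne_zero.2 PHS.qc_det), Matrix.transpose_one]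
    -- multiply by the inverse of the form
    have h5 : (qc V.Q⁻¹).transpose * (V.c z).transpose * (qc V.Q).transpose = (V.c z)⁻¹ := by
      symm
      apply Matrix.inv_eq_right_inv
      calc V.c z * ((qc V.Q⁻¹).transpose * (V.c z).transpose * (qc V.Q).transpose)
          = (V.c z * (qc V.Q⁻¹).transpose * (V.c z).transpose) * (qc V.Q).transpose := by
            simp only [Matrix.mul_assoc]
        _ = 1 := by rw [h3 z hz, hΩ]
    have h6 : V.c z * qc c * (V.c z)⁻¹ = qc c := by
      calc V.c z * qc c * (V.c z)⁻¹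
          = (V.c z * (qc c * (qc V.Q⁻¹).transpose) * (V.c z).transpose) * (qc V.Q).transpose := by
            rw [← h5]
            simp only [Matrix.mul_assoc]
        _ = qc c * ((qc V.Q⁻¹).transpose * (qc V.Q).transpose) := by
            rw [h4, Matrix.mul_assoc]
        _ = qc c := by rw [hΩ, Matrix.mul_one]
    calc V.c z * qc c = V.c z * qc c * ((V.c z)⁻¹ * V.c z) := by
          rw [Matrix.nonsing_inv_mul _ hcu, Matrix.mul_one]
      _ = (V.c z * qc c * (V.c z)⁻¹) * V.c z := by simp only [Matrix.mul_assoc]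
      _ = qc c * V.c z := by rw [h6]
  · intro h z hz
    apply PHS.mat2_inj
    rw [tpow_two, h2]
    calc V.c z * (qc c * (qc V.Q⁻¹).transpose) * (V.c z).transpose
        = (V.c z * qc c) * (qc V.Q⁻¹).transpose * (V.c z).transpose := by
          simp only [Matrix.mul_assoc]
      _ = qc c * (V.c z * (qc V.Q⁻¹).transpose * (V.c z).transpose) := by
          rw [h z hz]
          simp only [Matrix.mul_assoc]
      _ = _ := by rw [h3 z hz]

end phs

variable {k : Type u} [Field k] {𝒱 : VarClass k} {ops : CycleOps 𝒱} {T : HodgeTheory ops}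
  {X Y Z : 𝒱.Obj} {ι : Type} [Fintype ι] [DecidableEq ι] (e : Basis ι T.W.K (T.W.H X))

/-- The rational matrix of an operator. -/
noncomputable def rm (F : Module.End T.W.K (T.W.H X)) : Matrix ι ι ℚ :=
  Matrix.of fun i j => rt T (LinearMap.toMatrix e e F i j)

lemma rm_cast (F : Module.End T.W.K (T.W.H X)) (i j : ι) :
    ((rm e F i j : ℚ) : T.W.K) = LinearMap.toMatrix e e F i j := rt_spec _

lemma rat_cast_inj {p q : ℚ} (h : (p : T.W.K) = (q : T.W.K)) : p = q := by
  have h1 := congrArg (algebraMap T.W.K ℂ) h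
  rw [map_ratCast, map_ratCast] at h1
  exact_mod_cast h1

lemma rm_mul (F G : Module.End T.W.K (T.W.H X)) : rm e (F ∘ₗ G) = rm e F * rm e G := by
  ext i j
  apply rat_cast_inj (T := T)
  rw [rm_cast, LinearMap.toMatrix_comp e e e, Matrix.mul_apply, Matrix.mul_apply, Rat.cast_sum]
  refine Finset.sum_congr rfl fun k _ => ?_
  rw [Rat.cast_mul, rm_cast, rm_cast]

lemma rm_inj {F G : Module.End T.W.K (T.W.H X)} (h : rm e F = rm e G) : F = G := by
  apply (LinearMap.toMatrix e e).injective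
  ext i j
  rw [← rm_cast, ← rm_cast, h]

lemma rm_surj (c : Matrix ι ι ℚ) : ∃ F : Module.End T.W.K (T.W.H X), rm e F = c := by
  refine ⟨Matrix.toLin e e (c.map fun q : ℚ => (q : T.W.K)), ?_⟩
  ext i j
  apply rat_cast_inj (T := T)
  rw [rm_cast, LinearMap.toMatrix_toLin]
  rfl

lemma mt_bop (F : Module.End T.W.K (T.W.H X)) : mt e (bop F) = qc (rm e F) := by
  ext i j
  have h1 : mt e (bop F) i j = (eC e).repr (1 ⊗ₜ[T.W.K] F (e j)) i := by
    refine (LinearMap.toMatrix_apply (eC e) (eC e) _ i j).trans ?_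
    rw [eC_apply]
    exact congrArg (fun x => (eC e).repr x i) (LinearMap.baseChange_tmul (A := ℂ) F (1 : ℂ) (e j))
  have h2 : (eC e).repr ((1 : ℂ) ⊗ₜ[T.W.K] F (e j)) i = e.repr (F (e j)) i • (1 : ℂ) :=
    Basis.baseChange_repr_tmul ℂ e (1 : ℂ) (F (e j)) i
  rw [h1, h2, Algebra.smul_def, mul_one]
  have h3 : e.repr (F (e j)) i = LinearMap.toMatrix e e F i j := by
    rw [LinearMap.toMatrix_apply]
  rw [h3, ← rm_cast, map_ratCast]
  rfl

lemma mt_inj {F G : Module.End (CW T).K ((CW T).H X)} (h : mt e F = mt e G) (x : (CW T).H X) :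
    F x = G x := by
  have h1 := (LinearMap.toMatrix (eC e) (eC e)).injective h
  exact LinearMap.congr_fun h1 x

/-- The operators given by Hodge classes are the operators whose tensors are Hodge tensors. -/
lemma op_iff (hR : RealH T X) {φ : Module.End T.W.K (T.W.H X)} (hφ : IsPol T X φ)
    (F : Module.End T.W.K (T.W.H X)) : F ∈ (hodgeSys T).Op X X ↔
      tv (phs e hR hφ).Q (rm e F) ∈ (phs e hR hφ).T 2 := by
  rw [tv_iff]
  constructor
  · intro hF z hz
    rw [phs_c e hR hφ hz, ← mt_bop]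
    rw [Sys.mem_Op] at hF
    obtain ⟨c, hc, rfl⟩ := hF
    rw [mt_comp e (zop T z X) (bop (T.W.corr c)) (bop (T.W.corr c) ∘ₗ zop T z X) (fun x => ?_)]
    · exact (mt_comp e _ _ _ fun x => rfl).symm
    · rw [LinearMap.comp_apply, ← corr_em, zop_corr hz, zop_sys z hc]
  · intro h
    apply op_of_comm
    intro z hz c
    have h1 := h z hz
    rw [phs_c e hR hφ hz, ← mt_bop, mt_comp e _ _ (zop T z X ∘ₗ bop F) (fun x => rfl),
      mt_comp e _ _ (bop F ∘ₗ zop T z X) (fun x => rfl)] at h1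
    have h2 := mt_inj e h1 (em T.W ℂ c)
    rw [LinearMap.comp_apply, LinearMap.comp_apply, bop_em] at h2
    exact h2

lemma cls_inj (m : ℕ) {s t : (Fin (m + 1) → ι) → ℚ}
    (h : cls e (prj X m) s = cls e (prj X m) t) : s = t := by
  funext J
  apply rat_cast_inj (T := T)
  have key : ∀ t : (Fin (m + 1) → ι) → ℚ,
      (wb e m).repr (cls e (prj X m) t) J = ((t J : ℚ) : T.W.K) := by
    intro t
    rw [cls, map_sum, Finsupp.coe_finsetSum, Finset.sum_apply, Finset.sum_eq_single J]
    · rw [map_smul, Finsupp.smul_apply, wd_prj, Basis.repr_self, Finsupp.single_eq_same,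
        smul_eq_mul, mul_one]
    · intro w _ hw
      rw [map_smul, Finsupp.smul_apply, wd_prj, Basis.repr_self,
        Finsupp.single_eq_of_ne (Ne.symm hw), smul_zero]
    · intro hn
      exact absurd (Finset.mem_univ _) hn
  rw [← key s, ← key t, h]

/-- The dimension of the space of the tensors of a system. -/
lemma finrank_crd (S : Sys T.W) (m : ℕ) :
    finrank ℚ (crd e S (m + 1)) = finrank T.W.K (S.C (pw X m)) := by
  let f : crd e S (m + 1) →+ S.C (pw X m) :=
    { toFun := fun t => ⟨cls e (prj X m) t.1, (mem_crd_succ (e := e)).1 t.2⟩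
      map_zero' := Subtype.ext (cls_zero e _)
      map_add' := fun s t => Subtype.ext (cls_add e _ s.1 t.1) }
  have hinj : Function.Injective f := by
    intro s t hst
    apply Subtype.ext
    exact cls_inj e m (congrArg Subtype.val hst)
  have hsur : Function.Surjective f := by
    rintro ⟨c, hc⟩
    obtain ⟨t, rfl⟩ := exists_tensor e c
    exact ⟨⟨t, (mem_crd_succ (e := e)).2 hc⟩, rfl⟩
  refine finrank_eq_rat T.rat (AddEquiv.ofBijective f ⟨hinj, hsur⟩) fun q t => ?_
  apply Subtype.ext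
  exact cls_smul e (prj X m) q t.1

section main

variable {a : ι → ℕ}

/-- There are no numerically trivial classes in a system which contains the polarisation. -/
lemma num_bot (he : ∀ j, e j ∈ PH T.W X (a j)) (hR : RealH T X)
    {φ : Module.End T.W.K (T.W.H X)} (hφ : IsPol T X φ) (S : Sys T.W)
    (hS : ∀ Z, S.C Z ≤ (hodgeSys T).C Z) (hpar : par (T.W.isInternal X) ∈ S.Op X X)
    (hφS : φ ∈ S.Op X X) (m : ℕ) : S.Num (pw X m) = ⊥ := by
  rw [eq_bot_iff]
  intro c hc
  rw [Submodule.mem_bot]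
  obtain ⟨t, rfl⟩ := exists_tensor e c
  have hQ : ∀ i j, ((Qm e φ i j : ℚ) : T.W.K) = T.W.tr X (φ (e i) * e j) := fun i j => rt_spec _
  obtain ⟨Ψ, hΨ, h⟩ := exists_psi e he hpar hφS hQ m
  have ht : t ∈ (phs e hR hφ).T (m + 1) := by
    rw [T_eq_crd, mem_crd_succ]
    exact hS _ hc.1
  have h1 : ((bf (TP (Qm e φ) (m + 1)) t t : ℚ) : T.W.K) =
      T.W.tr (pw X m) (Ψ (cls e (prj X m) t) * cls e (prj X m) t) := by
    rw [bf, cls, map_sum, Finset.sum_mul_sum, map_sum, Rat.cast_sum]
    refine Finset.sum_congr rfl fun I _ => ?_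
    rw [map_sum, Rat.cast_sum]
    refine Finset.sum_congr rfl fun J _ => ?_
    rw [map_smul, smul_mul_smul_comm, map_smul, wd_prj, wd_prj, h, smul_eq_mul, Rat.cast_mul,
      Rat.cast_mul]
    ring
  have h2 : Ψ (cls e (prj X m) t) ∈ S.C (pw X m) :=
    Sys.Op.apply (T := S) (fun _ => le_rfl) hΨ hc.1
  have h3 : bf (TP (Qm e φ) (m + 1)) t t = 0 := by
    apply rat_cast_inj (T := T)
    rw [h1, Rat.cast_zero, PH.even_comm (S.even h2)]
    exact hc.2 _ h2
  have h4 : t = 0 := PHS.pos_T (V := phs e hR hφ) ht h3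
  rw [h4, cls_zero]

end main

/-- The centre of the algebra of the operators given by Hodge classes contains no nonzero skew
elements. -/
def NoSkew (T : HodgeTheory ops) (X : 𝒱.Obj) : Prop :=
  ∀ F ∈ (hodgeSys T).Op X X, (∀ G ∈ (hodgeSys T).Op X X, F ∘ₗ G = G ∘ₗ F) →
    (∀ x y, T.W.tr X (F x * y) = - T.W.tr X (x * F y)) → F = 0

lemma cen_of (hR : RealH T X) {φ : Module.End T.W.K (T.W.H X)} (hφ : IsPol T X φ)
    (hcen : NoSkew T X) (c : Matrix ι ι ℚ) (hc : tv (phs e hR hφ).Q c ∈ (phs e hR hφ).T 2)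
    (hcom : ∀ a, tv (phs e hR hφ).Q a ∈ (phs e hR hφ).T 2 → a * c = c * a)
    (hsk : ∀ s ∈ (phs e hR hφ).T 2, aop c s = 0) : c = 0 := by
  obtain ⟨F, rfl⟩ := rm_surj e c
  have hF := (op_iff e hR hφ F).2 hc
  have hQ : ∀ i j, ((Qm e φ i j : ℚ) : T.W.K) = T.W.tr X (φ (e i) * e j) := fun i j => rt_spec _
  have hcomF : ∀ G ∈ (hodgeSys T).Op X X, F ∘ₗ G = G ∘ₗ F := by
    intro G hG
    apply rm_inj e
    rw [rm_mul, rm_mul]
    exact (hcom _ ((op_iff e hR hφ G).1 hG)).symm
  have hdet : (Qm e φ).det ≠ 0 := PHS.det_Q (V := phs e hR hφ)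
  have hu := isUnit_iff_ne_zero.2 hdet
  -- the skewness for the polarisation
  have h1 : (rm e F).transpose * Qm e φ = - (Qm e φ * rm e F) := by
    have h2 := hsk _ (PHS.Om_mem (V := phs e hR hφ))
    have h3 : PHS.Om (phs e hR hφ).Q = NP.vec (Qm e φ)⁻¹ := rfl
    rw [h3, aop_vec] at h2
    have h4 : rm e F * (Qm e φ)⁻¹ + (Qm e φ)⁻¹ * (rm e F).transpose = 0 := NP.vec_inj (h2.trans rfl)
    have h5 := congrArg (fun M => Qm e φ * M * Qm e φ) h4
    simp only [Matrix.mul_add, Matrix.add_mul, Matrix.mul_zero, Matrix.zero_mul] at h5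
    have h6 : Qm e φ * ((Qm e φ)⁻¹ * (rm e F).transpose) * Qm e φ =
        (rm e F).transpose * Qm e φ := by
      rw [← Matrix.mul_assoc, Matrix.mul_nonsing_inv _ hu, Matrix.one_mul]
    have h7 : Qm e φ * (rm e F * (Qm e φ)⁻¹) * Qm e φ = Qm e φ * rm e F := by
      rw [← Matrix.mul_assoc, Matrix.mul_assoc _ (Qm e φ)⁻¹, Matrix.nonsing_inv_mul _ hu,
        Matrix.mul_one]
    rw [h6, h7] at h5
    exact eq_neg_of_add_eq_zero_right h5
  have hF' : ∀ j, F (e j) = ∑ i, ((rm e F i j : ℚ) : T.W.K) • e i := by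
    intro j
    conv_lhs => rw [← e.sum_repr (F (e j))]
    refine Finset.sum_congr rfl fun i _ => ?_
    rw [rm_cast, LinearMap.toMatrix_apply]
  have h2 : ∀ i j, T.W.tr X (φ (F (e i)) * e j) = - T.W.tr X (φ (e i) * F (e j)) := by
    intro i j
    have h3 := congrFun (congrFun h1 i) j
    rw [Matrix.neg_apply, Matrix.mul_apply, Matrix.mul_apply] at h3
    have h4 := congrArg (fun q : ℚ => (q : T.W.K)) h3
    beta_reduce at h4
    rw [Rat.cast_neg, Rat.cast_sum, Rat.cast_sum] at h4
    rw [hF' i, hF' j, map_sum, Finset.sum_mul, Finset.mul_sum, map_sum, map_sum]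
    refine Eq.trans ?_ (h4.trans (congrArg Neg.neg ?_))
    · refine Finset.sum_congr rfl fun k _ => ?_
      rw [map_smul, smul_mul_assoc, map_smul, smul_eq_mul, Rat.cast_mul, hQ,
        Matrix.transpose_apply]
    · refine Finset.sum_congr rfl fun k _ => ?_
      rw [mul_smul_comm, map_smul, smul_eq_mul, Rat.cast_mul, hQ, mul_comm]
  have h3 : ∀ x y, T.W.tr X (φ (F x) * y) = - T.W.tr X (φ x * F y) := by
    intro x y
    rw [← e.sum_repr x, ← e.sum_repr y]
    simp only [map_sum, map_smul, Finset.sum_mul_sum, smul_mul_smul_comm, h2, smul_neg,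
      Finset.sum_neg_distrib]
  have hφinj : Function.Injective φ := by
    rw [injective_iff_map_eq_zero]
    intro x hx
    have h4 : Matrix.vecMul (fun i => rt T (e.repr x i)) (Qm e φ) = 0 := by
      funext j
      apply rat_cast_inj (T := T)
      rw [Matrix.vecMul, dotProduct, Pi.zero_apply, Rat.cast_zero, Rat.cast_sum]
      have h5 : T.W.tr X (φ x * e j) = 0 := by rw [hx, zero_mul, map_zero]
      rw [← h5]
      conv_rhs => rw [← e.sum_repr x, map_sum, Finset.sum_mul, map_sum]
      refine Finset.sum_congr rfl fun i _ => ?_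
      rw [Rat.cast_mul, rt_spec, hQ, map_smul, smul_mul_assoc, map_smul, smul_eq_mul]
    have h5 : (fun i => rt T (e.repr x i)) = 0 := by
      have h6 := congrArg (fun v => Matrix.vecMul v (Qm e φ)⁻¹) h4
      simpa only [Matrix.vecMul_vecMul, Matrix.mul_nonsing_inv _ hu, Matrix.vecMul_one,
        Matrix.zero_vecMul] using h6
    apply e.repr.injective
    ext i
    rw [map_zero, Finsupp.zero_apply, ← rt_spec (T := T) (e.repr x i)]
    rw [congrFun h5 i, Pi.zero_apply, Rat.cast_zero]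
  have hfin : FiniteDimensional T.W.K (T.W.H X) := Module.Finite.of_basis e
  have hφsur := LinearMap.surjective_of_injective hφinj
  have h4 : F = 0 := by
    refine hcen F hF hcomF fun x y => ?_
    obtain ⟨x, rfl⟩ := hφsur x
    have h5 : F (φ x) = φ (F x) := LinearMap.congr_fun (hcomF φ hφ.mem) x
    rw [h5, h3]
  rw [h4]
  ext i j
  apply rat_cast_inj (T := T)
  rw [rm_cast, map_zero]
  simp

/-- **The bound for the index on the even powers.** -/
theorem sys_bound (hR : RealH T X) {φ : Module.End T.W.K (T.W.H X)} (hφ : IsPol T X φ)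
    (S : Sys T.W) (hS : ∀ Z, S.C Z ≤ (hodgeSys T).C Z)
    (h : ∀ n, n + 1 ≤ 4 → (hodgeSys T).C (pw X n) ≤ S.C (pw X n)) (hcen : NoSkew T X) :
    (∀ n, S.Num (pw X n) = ⊥) ∧
      ∀ n, finrank T.W.K ((hodgeSys T).C (pw X (2 * n + 1))) ≤
        4 ^ (finrank T.W.K (T.W.H X) ^ 2) * finrank T.W.K (S.C (pw X (2 * n + 1))) := by
  classical
  obtain ⟨e, he⟩ := exists_hbasis T.W X
  choose a ha using he
  have h2 : (hodgeSys T).C (X.prod X) ≤ S.C (X.prod X) := h 1 (by norm_num)
  have hOp : (hodgeSys T).Op X X ≤ S.Op X X := Submodule.map_mono h2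
  have hpar : par (T.W.isInternal X) ∈ S.Op X X := hOp par_mem
  have hφS : φ ∈ S.Op X X := hOp hφ.mem
  have hQ : ∀ i j, ((Qm e φ i j : ℚ) : T.W.K) = T.W.tr X (φ (e i) * e j) := fun i j => rt_spec _
  refine ⟨num_bot e ha hR hφ S hS hpar hφS, fun n => ?_⟩
  have hTS : ∀ m ≤ 4, (phs e hR hφ).T m ≤ crd e S m := by
    intro m hm t ht
    rw [T_eq_crd] at ht
    cases m with
    | zero => exact mem_crd_zero e t
    | succ m =>
      rw [mem_crd_succ] at ht ⊢
      exact h m hm ht
  let P : PSys (phs e hR hφ).Q :=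
    { S := crd e S
      one := mem_crd_zero e _
      mul := fun hs ht => crd_mul e hs ht
      perm := fun σ _ ht => crd_perm e ha hpar σ ht
      contr := fun hs ht => crd_contr e ha hpar hφS hQ hs ht
      cas := hTS 2 (by norm_num) PHS.Om_mem }
  let P' : PSys (phs e hR hφ).Q :=
    { S := crd e (hodgeSys T)
      one := mem_crd_zero e _
      mul := fun hs ht => crd_mul e hs ht
      perm := fun σ _ ht => crd_perm e ha par_mem σ ht
      contr := fun hs ht => crd_contr e ha par_mem hφ.mem hQ hs ht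
      cas := by
        rw [← T_eq_crd e hR hφ]
        exact PHS.Om_mem }
  have hle : ∀ m, P.S m ≤ (phs e hR hφ).T m := by
    intro m
    rw [T_eq_crd]
    intro t ht Z f
    exact hS _ (ht Z f)
  have hcard : Fintype.card (Fin (finrank T.W.K (T.W.H X))) = finrank T.W.K (T.W.H X) :=
    Fintype.card_fin _
  have key := hodge_bound (phs e hR hφ) P P' hle (fun m => (T_eq_crd e hR hφ m).symm)
    (hTS 2 (by norm_num)) (hTS 4 le_rfl) (fun c hc hcom hsk => cen_of e hR hφ hcen c hc hcom hsk)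
    (n + 1)
  rw [hcard, T_eq_crd] at key
  have hn : n + 1 + (n + 1) = (2 * n + 1) + 1 := by ring
  rw [hn] at key
  have e1 := finrank_crd e (hodgeSys T) (2 * n + 1)
  have e2 := finrank_crd e S (2 * n + 1)
  rw [← e1, ← e2]
  exact key

end Pool.Agent.Q60.FI
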