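import Pool.Agent.Q60.FI.LDefs0
import Pool.Agent.Y129.GDefs

/-!
# The index of the algebraic classes among the Hodge classes: definitions
-/

open CategoryTheory AlgebraicGeometry

open scoped ENNReal

universe u

namespace Pool.Agent.Q60.FI

open Pool.Agent.Y121.AHS
open Pool.Agent.H914 Pool.Agent.H914.VarClass Pool.Agent.H914.VarClass.Obj
  Pool.Agent.H914.WeilCohomology
open Pool.Agent.Y133.Half (algSet)
open Pool.Agent.Y129 (pw images)

variable {k : Type u} [Field k] {𝒱 : VarClass k} {ops : CycleOps 𝒱}

/-- The Hodge conjecture holds for `X`: all Hodge classes are linear combinations of classes of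
algebraic cycles. -/
def HCFor (T : HodgeTheory ops) (X : 𝒱.Obj) : Prop :=
  ∀ c ∈ hodgeSet T X, InSpan T.W.K (algSet T.W X) c

/-- The rank of the group of the algebraic cycles of all codimensions on `X` modulo numerical
equivalence. -/
noncomputable def cycleRank (ops : CycleOps 𝒱) (X : 𝒱.Obj) : ℕ :=
  ∑ j ∈ Finset.range (X.dim + 1), Set.finrank ℚ (Set.range fun (z : {z : X.Cycles // X.IsCyc j z})
    (w : {w : X.Cycles // X.IsCyc (X.dim - j) w}) => X.V.degCycle (ops.mul z.1 w.1))

/-- The number of linearly independent Hodge classes on the product of `n + 1` copies of `X`,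
divided by the rank of the group of algebraic cycles modulo numerical equivalence. -/
noncomputable def ratio (T : HodgeTheory ops) (X : 𝒱.Obj) (n : ℕ) : ℝ≥0∞ :=
  (hodgeDim T (pw X n) : ℝ≥0∞) / cycleRank ops (pw X n)

/-- There are Hodge classes `c 1, …, c r` on powers of `X` such that all Hodge classes on all powers
of `X` are linear combinations of classes of algebraic cycles and of images of `c 1, …, c r` under
algebraic correspondences `x ↦ pr₂_* (cl z · pr₁^* x)`. -/
def GeneratedBy (T : HodgeTheory ops) (X : 𝒱.Obj) (r : ℕ) : Prop :=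
  ∃ c : Fin r → Σ m, T.W.H (pw X m), (∀ i, (c i).2 ∈ hodgeSet T (pw X (c i).1)) ∧
    ∀ n, ∀ z ∈ hodgeSet T (pw X n),
      InSpan T.W.K (algSet T.W (pw X n) ∪ ⋃ i, images T.W X (c i) n) z

end Pool.Agent.Q60.FI
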