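import Pool.Agent.Q60.FI.HdgF
import Pool.Agent.Q60.FI.LDefs

/-!
# The index law with a bound for the index
-/

open CategoryTheory AlgebraicGeometry TensorProduct Filter Topology

open scoped ENNReal

universe u

namespace Pool.Agent.Q60.FI

open Module
open Pool.Agent.H914 Pool.Agent.H914.VarClass Pool.Agent.H914.VarClass.Obj
  Pool.Agent.H914.WeilCohomology
open Pool.Agent.Y121 Pool.Agent.Y121.AHS Pool.Agent.Y133.Half Pool.Agent.Q60.HDS

variable {k : Type u} [Field k] {𝒱 : VarClass k} {ops : CycleOps 𝒱}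

variable {T : AHS.HodgeTheory ops} {X : 𝒱.Obj}

lemma cycleRank_eq (X : 𝒱.Obj) : cycleRank ops X = cycRank ops X := rfl

lemma algSet_eq (W : WeilCohomology.{u, 0} ops) (X : 𝒱.Obj) :
    Submodule.span W.K (algSet W X) = (algSys W).C X := by
  change _ = Pool.Agent.H281R3.HT.algSpan W X
  unfold Pool.Agent.H281R3.HT.algSpan algSet
  congr 1
  ext x
  rw [Set.mem_iUnion]
  rfl

lemma hodgeSys_C (X : 𝒱.Obj) :
    (AH.hodgeSys (toH T)).C X = Submodule.span T.W.K (hodgeSet T X) := rfl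

lemma hcFor_iff : HCFor T X ↔ (AH.hodgeSys (toH T)).C X ≤ (algSys (toH T).W).C X := by
  have h1 : (algSys (toH T).W).C X = Submodule.span T.W.K (algSet T.W X) :=
    (algSet_eq T.W X).symm
  rw [h1]
  constructor
  · intro h
    exact Submodule.span_le.2 fun c hc => h c hc
  · intro h c hc
    exact h (Submodule.subset_span hc)

lemma hcFor_iff' : HCFor T X ↔ HodgeConjectureFor T X := by
  rw [hcFor_iff]
  constructor
  · intro h
    exact (ClassPred.sp_eq_iff (Q := AH.hodgePred (toH T)) X).1 (le_antisymm h ClassPred.alg_le)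
  · intro h
    exact ((ClassPred.sp_eq_iff (Q := AH.hodgePred (toH T)) X).2 h).le

lemma Polarisable.realH (h : Polarisable T X) : HD.RealH (toH T) X where
  range p q x hx hx0 := h.1.1 p q x hx hx0
  conj p q x y hxy hx := h.1.2 p q x y hx hxy

lemma Polarisable.exists_isPol (h : Polarisable T X) : ∃ φ, HD.IsPol (toH T) X φ := by
  obtain ⟨φ, h1, h2⟩ := h.2
  exact ⟨φ, fun p q r s x hx y hy hne => h1 p q r s x y hx hy hne,
    fun p q x y hx hxy hx0 => h2 p q x y hx hxy hx0⟩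

lemma TotallyRealCentre.noSkew (h : TotallyRealCentre T X) : NoSkew (toH T) X := by
  intro F hF hcom hsk
  obtain ⟨c, hc, rfl⟩ := (Sys.mem_Op (S := AH.hodgeSys (toH T))).1 hF
  have h1 : ∀ (d : T.W.H (X.prod X)) (x : T.W.H X), T.W.corr d x =
      T.W.push (snd X X) (d * T.W.map (fst X X) x) := fun d x => rfl
  refine LinearMap.ext fun x => ?_
  refine h c hc (fun d hd x => ?_) (fun x y => hsk x y) x
  have h2 := hcom (T.W.corr d) ((Sys.mem_Op (S := AH.hodgeSys (toH T))).2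
    ⟨d, Submodule.subset_span hd, rfl⟩)
  exact LinearMap.congr_fun h2 x

/-- The bound for the dimensions. -/
theorem bound_polarisable [Nontrivial (T.W.H X)] (hp : Polarisable T X)
    (hc : TotallyRealCentre T X) (h4 : HCFor T (Pool.Agent.Y129.pw X 3)) :
    (∀ n, HomEqNum T.W (Pool.Agent.Y129.pw X n)) ∧
      ∀ n, hodgeDim T (Pool.Agent.Y129.pw X (2 * n + 1)) ≤
        4 ^ (finrank T.W.K (T.W.H X) ^ 2) * cycRank ops (Pool.Agent.Y129.pw X (2 * n + 1)) := by
  obtain ⟨φ, hφ⟩ := hp.exists_isPol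
  have hnt : Nontrivial ((toH T).W.H X) := ‹Nontrivial (T.W.H X)›
  have h1 : (AH.hodgeSys (toH T)).C (pw X 3) ≤ (algSys (toH T).W).C (pw X 3) := by
    intro c hc
    have h1 := (algSys (toH T).W).map (pwIso129 X 3).inv
      (hcFor_iff.1 h4 ((AH.hodgeSys (toH T)).map (pwIso129 X 3).hom hc))
    rw [← (toH T).W.map_comp, (pwIso129 X 3).inv_hom_id, (toH T).W.map_id] at h1
    exact h1
  obtain ⟨h2, h3⟩ := bound_gen (toH T) hp.realH hφ h1 hc.noSkew
  refine ⟨fun n => ?_, fun n => ?_⟩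
  · rw [homEqNum_iso (pwIso129 X n), homEqNum_iff]
    exact h2 n
  · have e1 : hodgeDim T (Pool.Agent.Y129.pw X (2 * n + 1)) =
        finrank (toH T).W.K ((AH.hodgeSys (toH T)).C (pw X (2 * n + 1))) :=
      ClassPred.dim_pw (AH.hodgePred (toH T)) X (2 * n + 1)
    have e2 : cycRank ops (Pool.Agent.Y129.pw X (2 * n + 1)) =
        finrank (toH T).W.K ((algSys (toH T).W).C (pw X (2 * n + 1))) := cycRank_pw' (h2 _)
    rw [e1, e2]
    exact h3 n

lemma gen_aux (K : Type) {A : Type} [Field K] [Ring A] [Algebra K A] {S S' : Set A} {z : A}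
    (h : z ∈ Submodule.span K S ⊔ Submodule.span K S') : InSpan K (S ∪ S') z := by
  rw [← Submodule.span_union] at h
  exact h

/-- **The index law with a bound for the index.** -/
theorem index_main (T : AHS.HodgeTheory ops) (X : 𝒱.Obj) [Nontrivial (T.W.H X)] :
    ∃ N : ℕ∞, 1 ≤ N ∧ Tendsto (ratio T X) atTop (𝓝 (N : ℝ≥0∞)) ∧
      (∀ n, ratio T X (2 * n + 1) ≤ (N : ℝ≥0∞)) ∧
      (N = 1 ↔ ∀ n, HCFor T (Pool.Agent.Y129.pw X n)) ∧
      (N ≠ 1 → AtMostHalf (fun n => algDim T.W (Pool.Agent.Y129.pw X n))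
        (fun n => hodgeDim T (Pool.Agent.Y129.pw X n))) ∧
      (N ≠ ⊤ → (∀ n, HomEqNum T.W (Pool.Agent.Y129.pw X n)) ∧
        ∃ r : ℕ, (r : ℕ∞) + 1 ≤ N ∧ GeneratedBy T X r) ∧
      (Polarisable T X → TotallyRealCentre T X → HCFor T (Pool.Agent.Y129.pw X 3) →
        N ≤ 4 ^ (finrank T.W.K (T.W.H X) ^ 2)) := by
  obtain ⟨N, h1, h2, h3, h4, h5, h6⟩ := HI.hodge_index T X
  refine ⟨N, h1, h2, h3, ?_, h5, fun hN => ?_, fun hp hc h4' => ?_⟩
  · rw [h4]
    exact forall_congr' fun n => hcFor_iff'.symm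
  · obtain ⟨h7, r, c, hr, h8, h9⟩ := h6 hN
    refine ⟨h7, r, hr, c, h8, fun n z hz => ?_⟩
    obtain ⟨j, hj⟩ := hz
    have h10 := h9 n j z hj
    unfold Pool.Agent.Y129.genBy at h10
    have h11 : Pool.Agent.H281R3.HT.algSpan T.W (Pool.Agent.Y129.pw X n) =
      Submodule.span T.W.K (algSet T.W (Pool.Agent.Y129.pw X n)) := (algSet_eq T.W _).symm
    rw [h11] at h10
    exact gen_aux _ h10
  · have hsub : Tendsto (fun n : ℕ => 2 * n + 1) atTop atTop :=
      tendsto_atTop_mono (fun n => by simp only [id]; omega) tendsto_id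
    have hle : (N : ℝ≥0∞) ≤ ((4 ^ (finrank T.W.K (T.W.H X) ^ 2) : ℕ) : ℝ≥0∞) := by
      refine le_of_tendsto (h2.comp hsub) (Eventually.of_forall fun n => ?_)
      change (hodgeDim T (Pool.Agent.Y129.pw X (2 * n + 1)) : ℝ≥0∞) /
        cycRank ops (Pool.Agent.Y129.pw X (2 * n + 1)) ≤ _
      refine ENNReal.div_le_of_le_mul ?_
      exact_mod_cast (bound_polarisable hp hc h4').2 n
    have h7 : ((4 ^ (finrank T.W.K (T.W.H X) ^ 2) : ℕ) : ℝ≥0∞) =
        (((4 ^ (finrank T.W.K (T.W.H X) ^ 2) : ℕ) : ℕ∞) : ℝ≥0∞) := by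
      rw [ENat.toENNReal_coe]
    rw [h7, ENat.toENNReal_le] at hle
    exact_mod_cast hle

end Pool.Agent.Q60.FI
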