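import Pool.Agent.Q60.FI.Cmb
import Pool.Agent.Q60.ED.ThmC

/-!
# The index of a closed system of Hodge tensors

Let `C` be a closed system of Hodge tensors which contains all Hodge tensors of degrees two and four.
If all central skew endomorphisms of the Hodge structure are zero, then in every even degree the
dimension of the space of the Hodge tensors is at most `4 ^ (b ^ 2)` times the dimension of the space
of the tensors of the system.
-/

set_option linter.unusedSectionVars false

namespace Pool.Agent.Q60.FI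

open Module Matrix Pool.Agent.Q60.ED Pool.Agent.Q60.NP Pool.Agent.Q60.TD

variable {ι : Type} [Fintype ι] [DecidableEq ι]

lemma coeff_zero_of_sum {N : ℕ} {M : ℕ → Matrix ι ι ℂ}
    (h : ∀ z : ℂ, z ≠ 0 → ∑ w ∈ Finset.range N, z ^ w • M w = 0) {w : ℕ} (hw : w < N) :
    M w = 0 := by
  ext i j
  let p : Polynomial ℂ := ∑ w ∈ Finset.range N, Polynomial.C (M w i j) * Polynomial.X ^ w
  have hp : p = 0 := by
    apply Polynomial.eq_zero_of_infinite_isRoot
    refine Set.Infinite.mono (s := {z : ℂ | z ≠ 0}) ?_ ?_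
    · intro z hz
      have h1 := congrFun (congrFun (h z hz) i) j
      rw [Matrix.sum_apply] at h1
      change p.eval z = 0
      rw [Polynomial.eval_finsetSum]
      refine Eq.trans ?_ h1
      refine Finset.sum_congr rfl fun w _ => ?_
      rw [Polynomial.eval_mul, Polynomial.eval_C, Polynomial.eval_pow, Polynomial.eval_X,
        Matrix.smul_apply, smul_eq_mul, mul_comm]
    · exact (Set.finite_singleton (0 : ℂ)).infinite_compl
  have h2 := congrArg (fun q : Polynomial ℂ => q.coeff w) hp
  simp only [p, Polynomial.finsetSum_coeff, Polynomial.coeff_C_mul, Polynomial.coeff_X_pow,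
    Polynomial.coeff_zero] at h2
  rw [Finset.sum_eq_single w] at h2
  · rw [if_pos rfl, mul_one] at h2
    rw [h2]
    rfl
  · intro b _ hb
    rw [if_neg (Ne.symm hb), mul_zero]
  · intro hn
    exact absurd (Finset.mem_range.2 hw) hn

namespace PH

variable (V : PHS ι)

lemma c_eq {z : ℂ} : V.c z = (z ^ V.d)⁻¹ • ∑ w ∈ Finset.range (2 * V.d + 1), z ^ w • V.E w := rfl

lemma c_smul {z : ℂ} (hz : z ≠ 0) :
    ∑ w ∈ Finset.range (2 * V.d + 1), z ^ w • V.E w = z ^ V.d • V.c z := by
  rw [c_eq, smul_smul, mul_inv_cancel₀ (pow_ne_zero _ hz), one_smul]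

lemma sum_E : ∑ w ∈ Finset.range (2 * V.d + 1), V.E w = 1 := by
  have h1 := c_smul V (z := 1) one_ne_zero
  rw [PHS.c_one, one_pow, one_smul] at h1
  simpa using h1

/-- The projections are orthogonal idempotents. -/
lemma E_mul {a b : ℕ} (ha : a < 2 * V.d + 1) (hb : b < 2 * V.d + 1) :
    V.E a * V.E b = if a = b then V.E a else 0 := by
  -- comparison of the coefficients of the first variable
  have h1 : ∀ z' : ℂ, z' ≠ 0 → V.E a * (z' ^ V.d • V.c z') = z' ^ a • V.E a := by
    intro z' hz'
    have h2 := coeff_zero_of_sum (N := 2 * V.d + 1)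
      (M := fun w => V.E w * (z' ^ V.d • V.c z') - z' ^ w • V.E w) (fun z hz => ?_) ha
    · exact sub_eq_zero.1 h2
    · have e1 : ∑ w ∈ Finset.range (2 * V.d + 1), z ^ w • (V.E w * (z' ^ V.d • V.c z') -
          z' ^ w • V.E w) = (∑ w ∈ Finset.range (2 * V.d + 1), z ^ w • V.E w) *
          (z' ^ V.d • V.c z') - ∑ w ∈ Finset.range (2 * V.d + 1), (z * z') ^ w • V.E w := by
        rw [Finset.sum_mul, ← Finset.sum_sub_distrib]
        refine Finset.sum_congr rfl fun w _ => ?_
        rw [smul_sub, Matrix.smul_mul, smul_smul, mul_pow]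
      have e2 : V.c (z * z') = V.c z * V.c z' := V.mul z z' hz hz'
      rw [e1, c_smul V hz, c_smul V (mul_ne_zero hz hz'), e2, Matrix.smul_mul, Matrix.mul_smul,
        smul_smul, mul_pow, sub_self]
  have h3 := coeff_zero_of_sum (N := 2 * V.d + 1)
    (M := fun w => V.E a * V.E w - if a = w then V.E a else 0) (fun z hz => ?_) hb
  · exact sub_eq_zero.1 h3
  · have e1 : ∑ w ∈ Finset.range (2 * V.d + 1), z ^ w • (V.E a * V.E w -
        if a = w then V.E a else 0) = V.E a * (∑ w ∈ Finset.range (2 * V.d + 1), z ^ w • V.E w) -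
        ∑ w ∈ Finset.range (2 * V.d + 1), z ^ w • (if a = w then V.E a else 0) := by
      rw [Finset.mul_sum, ← Finset.sum_sub_distrib]
      refine Finset.sum_congr rfl fun w _ => ?_
      rw [smul_sub, Matrix.mul_smul]
    rw [e1, c_smul V hz, h1 z hz, Finset.sum_eq_single a]
    · rw [if_pos rfl, sub_self]
    · intro w _ hw
      rw [if_neg (Ne.symm hw), smul_zero]
    · intro hn
      exact absurd (Finset.mem_range.2 ha) hn

/-- The derivative of the action at the unit. -/
noncomputable def dl : Matrix ι ι ℂ :=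
  ∑ w ∈ Finset.range (2 * V.d + 1), ((w : ℂ) - V.d) • V.E w

lemma dl_mul {a : ℕ} (ha : a < 2 * V.d + 1) : dl V * V.E a = ((a : ℂ) - V.d) • V.E a := by
  rw [dl, Finset.sum_mul, Finset.sum_eq_single a]
  · rw [Matrix.smul_mul, E_mul V ha ha, if_pos rfl]
  · intro w hw hwa
    rw [Matrix.smul_mul, E_mul V (Finset.mem_range.1 hw) ha, if_neg hwa, smul_zero]
  · intro hn
    exact absurd (Finset.mem_range.2 ha) hn

lemma mul_dl {a : ℕ} (ha : a < 2 * V.d + 1) : V.E a * dl V = ((a : ℂ) - V.d) • V.E a := by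
  rw [dl, Finset.mul_sum, Finset.sum_eq_single a]
  · rw [Matrix.mul_smul, E_mul V ha ha, if_pos rfl]
  · intro w hw hwa
    rw [Matrix.mul_smul, E_mul V ha (Finset.mem_range.1 hw), if_neg (Ne.symm hwa), smul_zero]
  · intro hn
    exact absurd (Finset.mem_range.2 ha) hn

/-- A matrix which commutes with the derivative commutes with the action. -/
lemma comm_c {M : Matrix ι ι ℂ} (h : M * dl V = dl V * M) (z : ℂ) : M * V.c z = V.c z * M := by
  have h1 : ∀ a < 2 * V.d + 1, ∀ b < 2 * V.d + 1, a ≠ b → V.E a * M * V.E b = 0 := by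
    intro a ha b hb hab
    have e1 : ((a : ℂ) - V.d) • (V.E a * M * V.E b) = ((b : ℂ) - V.d) • (V.E a * M * V.E b) := by
      calc ((a : ℂ) - V.d) • (V.E a * M * V.E b) = (((a : ℂ) - V.d) • V.E a) * M * V.E b := by
            rw [Matrix.smul_mul, Matrix.smul_mul]
        _ = V.E a * (dl V * M) * V.E b := by
            rw [← mul_dl V ha]
            simp only [Matrix.mul_assoc]
        _ = V.E a * M * (dl V * V.E b) := by
            rw [← h]
            simp only [Matrix.mul_assoc]
        _ = _ := by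
            rw [dl_mul V hb, Matrix.mul_smul]
    rw [← sub_eq_zero, ← sub_smul] at e1
    rcases smul_eq_zero.1 e1 with h2 | h2
    · exfalso
      apply hab
      have h3 : (a : ℂ) = b := by linear_combination h2
      exact_mod_cast h3
    · exact h2
  have h2 : ∀ a < 2 * V.d + 1, M * V.E a = V.E a * M := by
    intro a ha
    have e1 : M * V.E a = V.E a * M * V.E a := by
      calc M * V.E a = 1 * (M * V.E a) := (Matrix.one_mul _).symm
        _ = ∑ w ∈ Finset.range (2 * V.d + 1), V.E w * M * V.E a := by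
            rw [← sum_E V, Finset.sum_mul]
            exact Finset.sum_congr rfl fun w _ => (Matrix.mul_assoc _ _ _).symm
        _ = _ := by
            rw [Finset.sum_eq_single a]
            · intro w hw hwa
              exact h1 w (Finset.mem_range.1 hw) a ha hwa
            · intro hn
              exact absurd (Finset.mem_range.2 ha) hn
    have e2 : V.E a * M = V.E a * M * V.E a := by
      calc V.E a * M = (V.E a * M) * 1 := (Matrix.mul_one _).symm
        _ = ∑ w ∈ Finset.range (2 * V.d + 1), V.E a * M * V.E w := by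
            rw [← sum_E V, Finset.mul_sum]
        _ = _ := by
            rw [Finset.sum_eq_single a]
            · intro w hw hwa
              exact h1 a ha w (Finset.mem_range.1 hw) (Ne.symm hwa)
            · intro hn
              exact absurd (Finset.mem_range.2 ha) hn
    rw [e1, ← e2]
  rw [c_eq, Matrix.mul_smul, Matrix.smul_mul, Finset.mul_sum, Finset.sum_mul]
  congr 1
  refine Finset.sum_congr rfl fun w hw => ?_
  rw [Matrix.mul_smul, Matrix.smul_mul, h2 w (Finset.mem_range.1 hw)]

lemma hasDeriv_c (i j : ι) : HasDerivAt (fun z : ℂ => V.c z i j) (dl V i j) 1 := by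
  have h1 : ∀ w : ℕ, HasDerivAt (fun z : ℂ => (z ^ V.d)⁻¹ * z ^ w) ((w : ℂ) - V.d) 1 := by
    intro w
    have e1 : HasDerivAt (fun z : ℂ => z ^ V.d) (V.d : ℂ) 1 := by
      simpa using hasDerivAt_pow V.d (1 : ℂ)
    have e2 : HasDerivAt (fun z : ℂ => z ^ w) (w : ℂ) 1 := by
      simpa using hasDerivAt_pow w (1 : ℂ)
    have e3 := (e1.inv (by simp)).mul e2
    refine e3.congr_deriv ?_
    simp
    ring
  have h2 : (fun z : ℂ => V.c z i j) = fun z : ℂ => ∑ w ∈ Finset.range (2 * V.d + 1),
      ((z ^ V.d)⁻¹ * z ^ w) * V.E w i j := by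
    funext z
    rw [c_eq, Matrix.smul_apply, Matrix.sum_apply, smul_eq_mul, Finset.mul_sum]
    refine Finset.sum_congr rfl fun w _ => ?_
    rw [Matrix.smul_apply, smul_eq_mul, mul_assoc]
  rw [h2]
  have h3 : dl V i j = ∑ w ∈ Finset.range (2 * V.d + 1), ((w : ℂ) - V.d) * V.E w i j := by
    rw [dl, Matrix.sum_apply]
    rfl
  rw [h3]
  exact HasDerivAt.fun_sum fun w _ => (h1 w).mul_const _

lemma hasDeriv_ev (f : MvPolynomial (ι × ι) ℂ) :
    HasDerivAt (fun z : ℂ => evM (V.c z) f) (evM (1 : Matrix ι ι ℂ) (dA (dl V) f)) 1 := by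
  induction f using MvPolynomial.induction_on with
  | C a =>
    simp only [evM_C, dA_C, map_zero]
    exact hasDerivAt_const _ _
  | add p q hp hq =>
    simp only [map_add]
    exact hp.add hq
  | mul_X p i hp =>
    have h1 := hp.mul (hasDeriv_c V i.1 i.2)
    have h2 : (fun z : ℂ => evM (V.c z) (p * MvPolynomial.X i)) =
        (fun z : ℂ => evM (V.c z) p) * fun z : ℂ => V.c z i.1 i.2 := by
      funext z
      rw [map_mul, evM_X]
      rfl
    rw [h2]
    refine h1.congr_deriv ?_
    rw [Derivation.leibniz, smul_eq_mul, smul_eq_mul, map_add, map_mul, map_mul, evM_X, dA_X,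
      map_sum, PHS.c_one]
    have h3 : ∑ c, evM (1 : Matrix ι ι ℂ) (MvPolynomial.X (i.1, c) *
        MvPolynomial.C (dl V c i.2)) = dl V i.1 i.2 := by
      rw [Finset.sum_eq_single i.1]
      · rw [map_mul, evM_X, evM_C, Matrix.one_apply_eq, one_mul]
      · intro c _ hc
        rw [map_mul, evM_X, Matrix.one_apply_ne (Ne.symm hc), zero_mul]
      · intro hn; exact absurd (Finset.mem_univ _) hn
    rw [h3]
    ring

/-- The invariant tensors are annihilated by the derivative of the action. -/
lemma aop_dl {n : ℕ} {t : (Fin n → ι) → ℚ} (ht : t ∈ V.T n) : aop (dl V) (cx t) = 0 := by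
  funext I
  have h1 := hasDeriv_ev V (xt (cx t) I)
  rw [dA_xt, evM_one_xt] at h1
  have h2 : (fun z : ℂ => evM (V.c z) (xt (cx t) I)) =ᶠ[nhds 1] fun _ => cx t I := by
    have h3 : ∀ᶠ z : ℂ in nhds 1, z ≠ 0 := isOpen_ne.mem_nhds one_ne_zero
    filter_upwards [h3] with z hz
    rw [evM_xt, ht z hz]
  have h4 := (hasDerivAt_const (1 : ℂ) (cx t I)).congr_of_eventuallyEq h2
  exact h1.unique h4

lemma cx_eq_bc {B : Type} (t : B → ℚ) : cx t = bc ℂ t := by
  funext a
  rw [cx, bc]
  exact (eq_ratCast (algebraMap ℚ ℂ) (t a)).symm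

/-- The rational components of the derivative belong to the Lie algebra. -/
lemma form_dl (l : ℂ →ₗ[ℚ] ℚ) : Lie V.T (Matrix.of fun i j => l (dl V i j)) := by
  intro n t ht
  funext I
  rw [← aop_form, ← cx_eq_bc, aop_dl V ht, Pi.zero_apply, map_zero]
  rfl

/-- A rational matrix which commutes with the Lie algebra is a Hodge tensor. -/
lemma tv_mem {c : Matrix ι ι ℚ} (hc : ∀ B, Lie V.T B → B * c = c * B) : tv V.Q c ∈ V.T 2 := by
  have h1 : qc c * dl V = dl V * qc c := by
    ext i j
    rw [← sub_eq_zero]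
    apply eq_zero_of_forms (K := ℚ)
    intro l
    have h2 := congrFun (congrFun (hc _ (form_dl V l)) i) j
    rw [Matrix.mul_apply, Matrix.mul_apply] at h2
    rw [map_sub, Matrix.mul_apply, Matrix.mul_apply, map_sum, map_sum, sub_eq_zero]
    refine Eq.trans ?_ (h2.symm.trans ?_)
    · refine Finset.sum_congr rfl fun k _ => ?_
      have e1 : qc c i k * dl V k j = c i k • dl V k j := by
        rw [Rat.smul_def]
        rfl
      rw [e1, map_smul, smul_eq_mul]
      rfl
    · refine Finset.sum_congr rfl fun k _ => ?_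
      have e1 : dl V i k * qc c k j = c k j • dl V i k := by
        rw [Rat.smul_def, mul_comm]
        rfl
      rw [e1, map_smul, smul_eq_mul, mul_comm]
      rfl
  intro z hz
  apply PHS.mat2_inj
  have h2 : mat2 (cx (tv V.Q c)) = qc c * (qc V.Q⁻¹).transpose := by
    ext i j
    rw [mat2, Matrix.of_apply, cx, tv, NP.vec, Matrix.mul_apply, Matrix.mul_apply, Rat.cast_sum]
    refine Finset.sum_congr rfl fun k _ => ?_
    rw [Rat.cast_mul]
    rfl
  have h3 : V.c z * (qc V.Q⁻¹).transpose * (V.c z).transpose = (qc V.Q⁻¹).transpose := by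
    have h4 := congrArg Matrix.transpose (PHS.c_Om (V := V) hz)
    rw [Matrix.transpose_mul, Matrix.transpose_mul, Matrix.transpose_transpose,
      ← Matrix.mul_assoc] at h4
    exact h4
  rw [tpow_two, h2]
  calc V.c z * (qc c * (qc V.Q⁻¹).transpose) * (V.c z).transpose
      = (V.c z * qc c) * (qc V.Q⁻¹).transpose * (V.c z).transpose := by
        simp only [Matrix.mul_assoc]
    _ = qc c * (V.c z * (qc V.Q⁻¹).transpose * (V.c z).transpose) := by
        rw [← comm_c V h1 z]
        simp only [Matrix.mul_assoc]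
    _ = _ := by rw [h3]

end PH

/-- A closed system as a closed system in the other sense. -/
def toC {Q : Matrix ι ι ℚ} (S : PSys Q) : CSys Q where
  S := S.S
  one := S.one
  mul := S.mul
  perm := S.perm
  contr := S.contr
  om := S.cas

/-- **The index of a closed system of Hodge tensors.** -/
theorem hodge_bound (V : PHS ι) (C C' : PSys V.Q) (hC : ∀ n, C.S n ≤ V.T n)
    (hC' : ∀ n, C'.S n = V.T n) (h2 : V.T 2 ≤ C.S 2) (h4 : V.T 4 ≤ C.S 4)
    (hcen : ∀ c : Matrix ι ι ℚ, tv V.Q c ∈ V.T 2 → (∀ a, tv V.Q a ∈ V.T 2 → a * c = c * a) →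
      (∀ s ∈ V.T 2, aop c s = 0) → c = 0) (n : ℕ) :
    finrank ℚ (V.T (n + n)) ≤ 4 ^ (Fintype.card ι ^ 2) * finrank ℚ (C.S (n + n)) := by
  have hQ := PHS.det_Q (V := V)
  have hle : ∀ n, (toC C).S n ≤ (toC C').S n := fun n => by
    change C.S n ≤ C'.S n
    rw [hC' n]
    exact hC n
  have hS' : (toC C').S = V.T := funext hC'
  have hnd : ∀ n, ∀ v ∈ V.T n, (∀ w ∈ V.T n, bf (TP V.Q n) v w = 0) → v = 0 :=
    fun n v hv h => PHS.pos_T hv (h v hv)
  have h2C : (toC C).S 2 = V.T 2 := le_antisymm (hC 2) h2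
  obtain ⟨P, hP, hP1, hP2⟩ := exists_P hQ (C' := toC C') (by rw [hS']; exact hnd)
  have key : ∀ x : Matrix ι ι ℚ, (∀ m ≤ 4, ∀ s ∈ C.S m, aop x s = 0) → Lie V.T x := by
    intro x hx
    have h1 := lie_eq hQ hle (by rw [hS']; exact h2) (by rw [hS']; exact h4) hP hP1 hP2
      (fun c hc _ => by
        rw [hS'] at hc ⊢
        exact PH.tv_mem V hc) (by rw [h2C]; exact hcen) hx
    rwa [hS'] at h1
  obtain ⟨T, hT⟩ := C.exists_tsys hC
  have h5 := index_bound T hQ (by rw [hT]; exact C.cas) (M := 4) (by norm_num) (by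
    rw [hT]
    intro A hA m s hs
    exact key A hA m s (hC m hs)) n (V.T (n + n)) (by
      rw [hT]
      intro t ht A hA
      exact key A (fun m _ s hs => hA m s hs) _ t ht) (hnd _)
  rw [hT] at h5
  exact h5

end Pool.Agent.Q60.FI
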