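import Pool.Agent.Q60.FI.HdgL
import Pool.Agent.Y121.AHS.Law
import Pool.Agent.Y121.AHS.Conv2

/-!
# The index of the absolutely Hodge classes among the Hodge classes is finite
-/

open CategoryTheory AlgebraicGeometry TensorProduct Filter Topology

open scoped ENNReal

universe u

namespace Pool.Agent.Q60.FI

open Module
open Pool.Agent.H914 Pool.Agent.H914.VarClass Pool.Agent.H914.VarClass.Obj
  Pool.Agent.H914.WeilCohomology
open Pool.Agent.Y121 Pool.Agent.Y121.AHS Pool.Agent.Y133.Half Pool.Agent.Q60.HDS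

variable {k : Type u} [Field k] {𝒱 : VarClass k} {ops : CycleOps 𝒱}

variable {T : AHS.HodgeTheory ops} {X : 𝒱.Obj}

lemma bound_sys (U : AH.HodgeTheory ops) (S : Sys U.W) (hS : ∀ Z, S.C Z ≤ (AH.hodgeSys U).C Z)
    (hR : HD.RealH U X) {φ : Module.End U.W.K (U.W.H X)} (hφ : HD.IsPol U X φ)
    [Nontrivial (U.W.H X)] (h1 : (AH.hodgeSys U).C (pw X 3) ≤ S.C (pw X 3)) (hc : NoSkew U X)
    (n : ℕ) : finrank U.W.K ((AH.hodgeSys U).C (pw X (2 * n + 1))) ≤
      4 ^ (finrank U.W.K (U.W.H X) ^ 2) * finrank U.W.K (S.C (pw X (2 * n + 1))) :=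
  (sys_bound hR hφ S hS (fun n hn => HD.le_of_le S (by omega) h1) hc).2 n

variable {D : Full.Conjugates T}

lemma abs_le_iff' {Y : 𝒱.Obj} :
    (AH.hodgeSys (toH T)).C Y ≤ (AH.absSys (T := toH T) (Full.toD D)).C Y ↔
      ∀ j c, IsHodge T Y j c → Full.IsAbsHodge D Y j c := by
  constructor
  · intro h j c hc
    have h1 : c ∈ (AH.absPred (T := toH T) (Full.toD D)).sp Y :=
      h (ClassPred.sp_of (Q := AH.hodgePred (toH T)) (j := j) hc)
    have h2 := ClassPred.sp_proj h1 j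
    have h3 : H914.proj (T.W.isInternal Y) (2 * j) c = c := proj_same _ hc.1
    have h4 : AH.IsAbsHodge (T := toH T) (Full.toD D) Y j c := by
      have h5 : (AH.absPred (T := toH T) (Full.toD D)).P Y j
        (H914.proj (T.W.isInternal Y) (2 * j) c) := h2
      rw [h3] at h5
      exact h5
    exact Full.isAbsHodge_iff.1 h4
  · intro h c hc
    refine ClassPred.sp_ind (Q := AH.hodgePred (toH T))
      (q := fun c => c ∈ (AH.absSys (T := toH T) (Full.toD D)).C Y) ?_ ?_ ?_ hc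
    · intro j x hx
      exact ClassPred.sp_of (Q := AH.absPred (T := toH T) (Full.toD D)) (j := j)
        (Full.isAbsHodge_iff.2 (h j x hx))
    · exact Submodule.zero_mem _
    · intro a b ha hb; exact Submodule.add_mem _ ha hb

/-- The bound for the dimensions. -/
theorem abs_bound [Nontrivial (T.W.H X)] (hp : Polarisable T X) (hc : TotallyRealCentre T X)
    (h4 : ∀ j c, IsHodge T (pw X 3) j c → Full.IsAbsHodge D (pw X 3) j c) (n : ℕ) :
    hodgeDim T (pw X (2 * n + 1)) ≤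
      4 ^ (finrank T.W.K (T.W.H X) ^ 2) * Full.absDim D (pw X (2 * n + 1)) := by
  obtain ⟨φ, hφ⟩ := hp.exists_isPol
  have hnt : Nontrivial ((toH T).W.H X) := ‹Nontrivial (T.W.H X)›
  have h1 := bound_sys (toH T) (AH.absSys (T := toH T) (Full.toD D))
    (fun Z => AH.abs_le_hodge (Full.toD D) Z) hp.realH hφ (abs_le_iff'.2 h4) hc.noSkew n
  rw [← Full.absDim_eq, AH.absDim_eq]
  exact h1

/-- **The index of the absolutely Hodge classes.** -/
theorem abs_index [Nontrivial (T.W.H X)] (hp : Polarisable T X) (hc : TotallyRealCentre T X)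
    (h4 : ∀ j c, IsHodge T (pw X 3) j c → Full.IsAbsHodge D (pw X 3) j c) :
    ∃ N : ℕ, 1 ≤ N ∧ N ≤ 4 ^ (finrank T.W.K (T.W.H X) ^ 2) ∧
      Full.HasIndex (fun n => hodgeDim T (pw X n)) (fun n => Full.absDim D (pw X n)) N ∧
      (N = 1 ↔ ∀ n j c, IsHodge T (pw X n) j c → Full.IsAbsHodge D (pw X n) j c) ∧
      (∀ i, ∃ e : Fin N → ∀ a, D.L i a, Full.SpansRing e ∧
        ∀ n j, Full.GivenBy D i e (pw X n) j) ∧
      Full.FewGenerators D X N := by
  obtain ⟨N, h1, h2, h3, -, h5, h6⟩ := Full.index_law T D X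
  have hsub : Tendsto (fun n : ℕ => 2 * n + 1) atTop atTop :=
    tendsto_atTop_mono (fun n => by simp only [id]; omega) tendsto_id
  have hle : (N : ℝ≥0∞) ≤ ((4 ^ (finrank T.W.K (T.W.H X) ^ 2) : ℕ) : ℝ≥0∞) := by
    refine le_of_tendsto (h2.comp hsub) (Eventually.of_forall fun n => ?_)
    change (hodgeDim T (pw X (2 * n + 1)) : ℝ≥0∞) / Full.absDim D (pw X (2 * n + 1)) ≤ _
    refine ENNReal.div_le_of_le_mul ?_
    exact_mod_cast abs_bound hp hc h4 n
  have h7 : ((4 ^ (finrank T.W.K (T.W.H X) ^ 2) : ℕ) : ℝ≥0∞) =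
      (((4 ^ (finrank T.W.K (T.W.H X) ^ 2) : ℕ) : ℕ∞) : ℝ≥0∞) := by
    rw [ENat.toENNReal_coe]
  rw [h7, ENat.toENNReal_le] at hle
  have htop : N ≠ ⊤ := fun h => by
    rw [h, top_le_iff] at hle
    exact ENat.natCast_ne_top _ hle
  obtain ⟨M, rfl⟩ := ENat.ne_top_iff_exists.1 htop
  refine ⟨M, by exact_mod_cast h1, by exact_mod_cast hle, h2, ?_, h5 M rfl, h6 htop⟩
  rw [← h3]
  constructor
  · rintro rfl; rfl
  · intro h; exact_mod_cast h

end Pool.Agent.Q60.FI
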