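import Pool.Agent.Q60.FI.Dim

/-!
# The finite index theorem over a field of characteristic zero
-/

set_option linter.unusedSectionVars false

namespace Pool.Agent.Q60.FI

open Module Matrix Pool.Agent.Q60.ED Pool.Agent.Q60.NP Pool.Agent.Q60.TD

variable {K : Type} [Field K] {L : Type} [Field L] [Algebra K L]

/-- Linear forms separate the elements of the large field. -/
lemma eq_zero_of_forms {x : L} (h : ∀ l : L →ₗ[K] K, l x = 0) : x = 0 :=
  (Module.forall_dual_apply_eq_zero_iff K x).1 h

section

variable {B : Type} [Fintype B] [DecidableEq B]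

lemma finrank_bcS (U : Submodule K (B → K)) : finrank L (bcS L U) = finrank K U := by
  classical
  let b := Module.finBasis K U
  have hli : LinearIndependent L fun i => bc L (b i).1 := by
    rw [Fintype.linearIndependent_iff]
    intro g hg i
    apply eq_zero_of_forms (K := K)
    intro l
    have h1 : ∑ i, l (g i) • (b i) = 0 := by
      apply Subtype.ext
      funext a
      have h2 := congrArg l (congrFun hg a)
      rw [Finset.sum_apply, map_sum, Pi.zero_apply, map_zero] at h2
      rw [AddSubmonoidClass.coe_finsetSum, Finset.sum_apply]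
      refine Eq.trans ?_ h2
      refine Finset.sum_congr rfl fun j _ => ?_
      change l (g j) * (b j).1 a = l (g j * algebraMap K L ((b j).1 a))
      rw [mul_comm (g j), ← Algebra.smul_def, map_smul, smul_eq_mul, mul_comm]
    exact Fintype.linearIndependent_iff.1 b.linearIndependent _ h1 i
  have hspan : Submodule.span L (Set.range fun i => bc L (b i).1) = bcS L U := by
    apply le_antisymm
    · rw [Submodule.span_le]
      rintro _ ⟨i, rfl⟩
      exact bc_mem (b i).2
    · rw [bcS, Submodule.span_le]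
      rintro _ ⟨u, hu, rfl⟩
      have h1 : (⟨u, hu⟩ : U) = ∑ i, b.repr ⟨u, hu⟩ i • b i := (b.sum_repr _).symm
      have h2 : bc L u = ∑ i, algebraMap K L (b.repr ⟨u, hu⟩ i) • bc L (b i).1 := by
        have h3 := congrArg Subtype.val h1
        rw [AddSubmonoidClass.coe_finsetSum] at h3
        change u = _ at h3
        funext a
        have h4 := congrFun h3 a
        change algebraMap K L (u a) = _
        rw [h4, Finset.sum_apply, Finset.sum_apply, map_sum]
        refine Finset.sum_congr rfl fun i _ => ?_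
        change algebraMap K L (b.repr ⟨u, hu⟩ i * (b i).1 a) = _
        rw [map_mul]
        rfl
      rw [SetLike.mem_coe, h2]
      exact Submodule.sum_mem _ fun i _ => Submodule.smul_mem _ _
        (Submodule.subset_span ⟨i, rfl⟩)
  rw [← hspan, finrank_span_eq_card hli, Fintype.card_fin]

end

variable {ι : Type} [Fintype ι] [DecidableEq ι]

lemma aop_form (l : L →ₗ[K] K) (A : Matrix ι ι L) {n : ℕ} (t : (Fin n → ι) → K)
    (I : Fin n → ι) : l (aop A (bc L t) I) = aop (Matrix.of fun i j => l (A i j)) t I := by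
  rw [aop_apply, aop_apply, map_sum]
  refine Finset.sum_congr rfl fun k _ => ?_
  rw [map_sum]
  refine Finset.sum_congr rfl fun j _ => ?_
  rw [bc, mul_comm, ← Algebra.smul_def, map_smul, smul_eq_mul, mul_comm, Matrix.of_apply]

lemma aop_addL {F : Type} [Field F] (A : Matrix ι ι F) {n : ℕ} (a b : (Fin n → ι) → F) :
    aop A (a + b) = aop A a + aop A b := by
  funext I
  simp only [aop_apply, Pi.add_apply, mul_add, Finset.sum_add_distrib]

lemma aop_smulL {F : Type} [Field F] (A : Matrix ι ι F) {n : ℕ} (c : F) (a : (Fin n → ι) → F) :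
    aop A (c • a) = c • aop A a := by
  funext I
  simp only [aop_apply, Pi.smul_apply, smul_eq_mul, mul_left_comm _ c, ← Finset.mul_sum]

lemma aop_zeroL {F : Type} [Field F] (A : Matrix ι ι F) {n : ℕ} :
    aop A (0 : (Fin n → ι) → F) = 0 := by
  funext I
  simp [aop_apply]

lemma Lk_bc (T : TSys K ι) {n : ℕ} {U : Submodule K ((Fin n → ι) → K)} (hU : U ≤ Lk T.S n) :
    bcS L U ≤ Lk (exT L T).S n := by
  rw [bcS, Submodule.span_le]
  rintro _ ⟨t, ht, rfl⟩ A hA
  funext I
  apply eq_zero_of_forms (K := K)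
  intro l
  rw [aop_form]
  have h1 : Lie T.S (Matrix.of fun i j => l (A i j)) := by
    intro m s hs
    funext J
    rw [← aop_form, hA m _ (bc_mem hs), Pi.zero_apply, map_zero]
    rfl
  rw [hU ht _ h1]
  rfl

lemma bf_form (l : L →ₗ[K] K) (Q : Matrix ι ι K) {n : ℕ} (v : (Fin n → ι) → L)
    (w : (Fin n → ι) → K) : l (bf (TP (Q.map (algebraMap K L)) n) v (bc L w)) =
      bf (TP Q n) (fun a => l (v a)) w := by
  rw [bf, bf, map_sum]
  refine Finset.sum_congr rfl fun I _ => ?_
  rw [map_sum]
  refine Finset.sum_congr rfl fun J _ => ?_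
  have h1 : TP (Q.map (algebraMap K L)) n I J = algebraMap K L (TP Q n I J) := by
    rw [TP_apply, TP_apply, map_prod]
    rfl
  rw [h1, bc, mul_assoc, ← map_mul, mul_comm (v I), ← Algebra.smul_def, map_smul, smul_eq_mul]
  ring

/-- **The finite index theorem.** -/
theorem finite_index [CharZero K] (T : TSys K ι) {Q : Matrix ι ι K}
    (hQ : Q.det ≠ 0) (hΩ : (fun w : Fin 2 → ι => Q⁻¹ (w 0) (w 1)) ∈ T.S 2)
    {u : (Fin 1 → ι) → K} (hu : u ∈ T.S 1) (hu0 : u ≠ 0) :
    ∃ m D : ℕ, ∀ (n : ℕ) (C' : Submodule K ((Fin n → ι) → K)), C' ≤ Lk T.S n →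
      (∀ v ∈ C', (∀ w ∈ C', bf (TP Q n) v w = 0) → v = 0) →
        finrank K C' ≤ D * finrank K (T.S (n + m)) := by
  let L := AlgebraicClosure K
  have : CharZero L := charZero_of_injective_algebraMap (algebraMap K L).injective
  have hd : (Q.map (algebraMap K L)).det = algebraMap K L Q.det := ((algebraMap K L).map_det _).symm
  have hQL : (Q.map (algebraMap K L)).det ≠ 0 := by
    rw [hd]
    exact (map_ne_zero _).2 hQ
  have hinv : (Q.map (algebraMap K L))⁻¹ = Q⁻¹.map (algebraMap K L) := by
    apply Matrix.inv_eq_left_inv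
    rw [← Matrix.map_mul, Matrix.nonsing_inv_mul _ (isUnit_iff_ne_zero.2 hQ),
      Matrix.map_one _ (map_zero _) (map_one _)]
  have hΩL : (fun w : Fin 2 → ι => (Q.map (algebraMap K L))⁻¹ (w 0) (w 1)) ∈ (exT L T).S 2 := by
    rw [hinv]
    exact bc_mem hΩ
  have huL0 : bc L u ≠ 0 := by
    intro h
    apply hu0
    apply bc_inj (L := L)
    rw [h]
    funext I
    exact (map_zero _).symm
  obtain ⟨m, D, h⟩ := finite_index_closed (exT L T) hQL hΩL (bc_mem hu) huL0
  refine ⟨m, D, fun n C' hC' hnd => ?_⟩
  have h1 := h n (bcS L C') (Lk_bc T hC') (by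
    intro v hv hvw
    funext a
    apply eq_zero_of_forms (K := K)
    intro l
    have h2 : (fun a => l (v a)) = 0 := by
      refine hnd _ (lam_mem l hv) fun w hw => ?_
      rw [← bf_form, hvw _ (bc_mem hw), map_zero]
    exact congrFun h2 a)
  rw [finrank_bcS, exT_S, finrank_bcS] at h1
  exact h1

end Pool.Agent.Q60.FI
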