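import Pool.Agent.Q60.FI.Count

/-!
# The number of components of the stabiliser of tensors of bounded degree

Let `S` be a system of tensors whose infinitesimal stabiliser is the infinitesimal stabiliser of the
tensors of degree at most `M`. Polynomial functions which are annihilated by the infinitesimal
stabiliser distinguish at most `M ^ (b ^ 2)` elements of the stabiliser of `S`, where `b` is the
dimension.
-/

set_option linter.unusedSectionVars false

namespace Pool.Agent.Q60.FI

open MvPolynomial Module Pool.Agent.Q60.ED Pool.Agent.Q60.NP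

variable {L : Type} [Field L] [CharZero L]

/-- A polynomial whose partial derivatives with respect to the second group of variables vanish is
a polynomial in the first group of variables. -/
lemma exists_rename {α β : Type} (p : MvPolynomial (α ⊕ β) L)
    (h : ∀ c, pderiv (Sum.inr c) p = 0) : ∃ p' : MvPolynomial α L, rename Sum.inl p' = p := by
  classical
  refine exists_rename_eq_of_vars_subset_range p Sum.inl Sum.inl_injective ?_
  intro x hx
  rcases x with a | c
  · exact ⟨a, rfl⟩
  · exfalso
    rw [Finset.mem_coe, mem_vars_iff_mem_support] at hx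
    obtain ⟨m, hm, hc⟩ := hx
    rw [Finsupp.mem_support_iff] at hc
    have h1 : coeff (m - Finsupp.single (Sum.inr c) 1) (pderiv (Sum.inr c) p) = 0 := by
      rw [h c, coeff_zero]
    rw [coeff_pderiv] at h1
    have h2 : m - Finsupp.single (Sum.inr c) 1 + Finsupp.single (Sum.inr c) 1 = m := by
      apply tsub_add_cancel_of_le
      rw [Finsupp.single_le_iff]
      exact Nat.one_le_iff_ne_zero.2 hc
    rw [h2] at h1
    rcases mul_eq_zero.1 h1 with h4 | h4
    · exact (MvPolynomial.mem_support_iff.1 hm) h4
    · exact Nat.cast_add_one_ne_zero _ h4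

variable {ι : Type} [Fintype ι] [DecidableEq ι]

/-- **Linear independence over the ring generated by the invariants and by the coordinates along
the orbits.** -/
theorem indep {q r s : ℕ} (h : Fin q → MvPolynomial (ι × ι) L)
    (l : Fin r → MvPolynomial (ι × ι) L) (b : Fin s → MvPolynomial (ι × ι) L)
    (g : Fin s → Matrix ι ι L)
    (D : Fin r → Derivation L (MvPolynomial (ι × ι) L) (MvPolynomial (ι × ι) L))
    (hDh : ∀ c a, D c (h a) = 0) (hgh : ∀ j a, rho (g j) (h a) = h a)
    (hDb : ∀ c i, D c (b i) = 0) (hdet : (Matrix.of fun j i => evM (g j) (b i)).det ≠ 0)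
    (hl : (Matrix.of fun c c' => D c (l c')).det ≠ 0) (hh : AlgebraicIndependent L h)
    (F : Fin s → MvPolynomial (Fin q ⊕ Fin r) L)
    (hF : ∑ i, aeval (Sum.elim h l) (F i) * b i = 0) : F = 0 := by
  have key : ∀ N : ℕ, ∀ F : Fin s → MvPolynomial (Fin q ⊕ Fin r) L,
      (∀ i, (F i).totalDegree ≤ N) → ∑ i, aeval (Sum.elim h l) (F i) * b i = 0 → F = 0 := by
    intro N
    induction N with
    | zero =>
      intro F hN hF
      -- the partial derivatives vanish
      have hp : ∀ i c, pderiv (Sum.inr c) (F i) = 0 := by
        intro i c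
        have h1 : (F i).totalDegree = 0 := Nat.le_zero.1 (hN i)
        rw [totalDegree_eq_zero_iff_eq_C] at h1
        rw [h1, pderiv_C]
      exact indep_aux h l b g hgh hdet hh F hF hp
    | succ N ih =>
      intro F hN hF
      have h1 : ∀ c, ∑ c', D c (l c') * (∑ i, aeval (Sum.elim h l) (pderiv (Sum.inr c') (F i)) *
          b i) = 0 := by
        intro c
        have h2 := congrArg (D c) hF
        rw [map_zero, map_sum] at h2
        rw [← h2]
        simp only [Finset.mul_sum]
        rw [Finset.sum_comm]
        refine Finset.sum_congr rfl fun i _ => ?_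
        have h3 : ∑ a, aeval (Sum.elim h l) (pderiv (Sum.inl a) (F i)) *
            D c (Sum.elim h l (Sum.inl a)) = 0 := by
          refine Finset.sum_eq_zero fun a _ => ?_
          rw [Sum.elim_inl, hDh, mul_zero]
        rw [(D c).leibniz, hDb, smul_zero, zero_add, der_aeval, smul_eq_mul,
          Fintype.sum_sum_type, h3, zero_add, Finset.mul_sum]
        refine Finset.sum_congr rfl fun c' _ => ?_
        rw [Sum.elim_inr]
        ring
      have h2 : (Matrix.of fun c c' => D c (l c')).mulVec (fun c' => ∑ i,
          aeval (Sum.elim h l) (pderiv (Sum.inr c') (F i)) * b i) = 0 := by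
        funext c
        exact h1 c
      have h3 := Matrix.eq_zero_of_mulVec_eq_zero hl h2
      have hp : ∀ i c, pderiv (Sum.inr c) (F i) = 0 := by
        intro i c
        refine congrFun (ih (fun i => pderiv (Sum.inr c) (F i)) (fun i => ?_) (congrFun h3 c)) i
        by_cases h0 : pderiv (Sum.inr c) (F i) = 0
        · rw [h0, totalDegree_zero]
          exact Nat.zero_le _
        · have h4 := totalDegree_pderiv_lt h0
          have h5 := hN i
          omega
      exact indep_aux h l b g hgh hdet hh F hF hp
  exact key (Finset.univ.sup fun i => (F i).totalDegree) F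
    (fun i => Finset.le_sup (f := fun i => (F i).totalDegree) (Finset.mem_univ i)) hF
where
  /-- the case of polynomials in the invariants -/
  indep_aux {q r s : ℕ} (h : Fin q → MvPolynomial (ι × ι) L)
    (l : Fin r → MvPolynomial (ι × ι) L) (b : Fin s → MvPolynomial (ι × ι) L)
    (g : Fin s → Matrix ι ι L) (hgh : ∀ j a, rho (g j) (h a) = h a)
    (hdet : (Matrix.of fun j i => evM (g j) (b i)).det ≠ 0) (hh : AlgebraicIndependent L h)
    (F : Fin s → MvPolynomial (Fin q ⊕ Fin r) L)
    (hF : ∑ i, aeval (Sum.elim h l) (F i) * b i = 0)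
    (hp : ∀ i c, pderiv (Sum.inr c) (F i) = 0) : F = 0 := by
    choose F' hF' using fun i => exists_rename (F i) (hp i)
    have e1 : ∀ i, aeval (Sum.elim h l) (F i) = aeval h (F' i) := by
      intro i
      rw [← hF' i, aeval_rename]
      congr 1
    simp only [e1] at hF
    have e2 : ∀ j, ∑ i, rho (g j) (b i) * aeval h (F' i) = 0 := by
      intro j
      have e3 := congrArg (rho (g j)) hF
      rw [map_zero, map_sum] at e3
      rw [← e3]
      refine Finset.sum_congr rfl fun i _ => ?_
      rw [map_mul, mul_comm]
      congr 1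
      rw [comp_aeval_apply]
      refine congrArg (fun u => (aeval u : MvPolynomial (Fin q) L →ₐ[L] _) (F' i)) ?_
      funext a
      exact (hgh j a).symm
    have e4 : (Matrix.of fun j i => rho (g j) (b i)).mulVec (fun i => aeval h (F' i)) = 0 := by
      funext j
      exact e2 j
    have e5 : (Matrix.of fun j i => rho (g j) (b i)).det ≠ 0 := by
      intro h0
      apply hdet
      have e6 := congrArg (evM (1 : Matrix ι ι L)) h0
      rw [map_zero] at e6
      have e7 : evM (1 : Matrix ι ι L) (Matrix.of fun j i => rho (g j) (b i)).det =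
          ((Matrix.of fun j i => rho (g j) (b i)).map (evM (1 : Matrix ι ι L))).det :=
        ((evM (1 : Matrix ι ι L)) : MvPolynomial (ι × ι) L →+* L).map_det _
      rw [e7] at e6
      rw [← e6]
      congr 1
      ext j i
      rw [Matrix.map_apply, Matrix.of_apply, Matrix.of_apply, evM_rho, one_mul]
    have e6 := Matrix.eq_zero_of_mulVec_eq_zero e5 e4
    funext i
    have e7 : F' i = 0 := by
      rw [algebraicIndependent_iff] at hh
      exact hh _ (congrFun e6 i)
    rw [← hF' i, e7, map_zero]
    rfl

lemma totalDegree_mon_le {n : ℕ} (I J : Fin n → ι) :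
    (mon I J : MvPolynomial (ι × ι) L).totalDegree ≤ n := by
  rw [mon]
  refine (totalDegree_finsetProd _ _).trans ?_
  calc ∑ k : Fin n, (X (I k, J k) : MvPolynomial (ι × ι) L).totalDegree ≤ ∑ k : Fin n, 1 :=
        Finset.sum_le_sum fun k _ => (totalDegree_X _).le
    _ = n := by simp

lemma totalDegree_xt_le {n : ℕ} (t : (Fin n → ι) → L) (I : Fin n → ι) :
    (xt t I).totalDegree ≤ n := by
  rw [xt]
  refine totalDegree_finsetSum_le fun J _ => ?_
  refine (totalDegree_mul _ _).trans ?_
  rw [totalDegree_C, zero_add]
  exact totalDegree_mon_le I J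

/-- **The number of components.** -/
theorem bezout {S : ∀ n : ℕ, Submodule L ((Fin n → ι) → L)} {M : ℕ} (hM : 1 ≤ M)
    (hst : ∀ A : Matrix ι ι L, (∀ m ≤ M, ∀ s ∈ S m, aop A s = 0) → Lie S A) {s : ℕ}
    (g : Fin s → Matrix ι ι L) (hg : ∀ j, Fix S (g j)) (b : Fin s → MvPolynomial (ι × ι) L)
    (hb : ∀ i A, Lie S A → dA A (b i) = 0)
    (hdet : (Matrix.of fun j i => evM (g j) (b i)).det ≠ 0) :
    s ≤ M ^ (Fintype.card ι ^ 2) := by
  classical
  let Φ : Set (Module.Dual L (Matrix ι ι L)) := {φ | ∃ m, ∃ _ : m ≤ M, ∃ (s : (Fin m → ι) → L)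
    (_ : s ∈ S m) (I : Fin m → ι), φ = aopL s I}
  set H := (Submodule.span L Φ).dualCoannihilator with hH
  have hLie : ∀ A, A ∈ H → Lie S A := by
    intro A hA
    apply hst
    intro m hm s hs
    funext I
    rw [hH, Submodule.mem_dualCoannihilator] at hA
    exact hA _ (Submodule.subset_span ⟨m, hm, s, hs, I, rfl⟩)
  have hsum := Subspace.finrank_add_finrank_dualCoannihilator_eq (Submodule.span L Φ)
  rw [← hH, Module.finrank_matrix, Module.finrank_self, mul_one] at hsum
  obtain ⟨φ, hφ, -, hφi⟩ := Submodule.exists_fun_fin_finrank_span_eq L Φ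
  obtain ⟨v, hv⟩ := exists_dual_family φ hφi
  choose m hm sj hs I hI using hφ
  -- the invariants
  let h : Fin (finrank L (Submodule.span L Φ)) → MvPolynomial (ι × ι) L :=
    fun j => xt (sj j) (I j)
  have hh : AlgebraicIndependent L h := by
    refine algIndep_of_det (fun a => dA (v a)) h ?_
    intro h0
    have e1 := congrArg (evM (1 : Matrix ι ι L)) h0
    rw [map_zero] at e1
    have e2 : evM (1 : Matrix ι ι L) (Matrix.of fun a j => dA (v a) (h j)).det =
        ((Matrix.of fun a j => dA (v a) (h j)).map (evM (1 : Matrix ι ι L))).det :=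
      ((evM (1 : Matrix ι ι L)) : MvPolynomial (ι × ι) L →+* L).map_det _
    have e3 : (Matrix.of fun a j => dA (v a) (h j)).map (evM (1 : Matrix ι ι L)) = 1 := by
      ext a j
      rw [Matrix.map_apply, Matrix.of_apply]
      change evM (1 : Matrix ι ι L) (dA (v a) (xt _ (I j))) = _
      rw [dA_xt, evM_one_xt, ← hv, hI j]
      rfl
    rw [e2, e3, Matrix.det_one] at e1
    exact one_ne_zero e1
  -- the coordinates along the orbits
  let β := Module.finBasis L H
  have hext : ∀ c : Fin (finrank L H), ∃ u : Matrix ι ι L →ₗ[L] L, u ∘ₗ H.subtype = β.coord c := fun c =>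
    LinearMap.exists_extend _
  choose u hu using hext
  have hu' : ∀ c c' : Fin (finrank L H), u c (β c').1 = if c' = c then 1 else 0 := by
    intro c c'
    have e1 := LinearMap.congr_fun (hu c) (β c')
    change u c (β c').1 = β.repr (β c') c at e1
    rw [e1, β.repr_self, Finsupp.single_apply]
  let l : Fin (finrank L H) → MvPolynomial (ι × ι) L := fun c =>
    ∑ p : ι × ι, MvPolynomial.C (u c (Matrix.single p.1 p.2 1)) * X p
  let D : Fin (finrank L H) → Derivation L (MvPolynomial (ι × ι) L) (MvPolynomial (ι × ι) L) :=
    fun c => dA (β c).1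
  have hl : (Matrix.of fun c c' => D c (l c')).det ≠ 0 := by
    intro h0
    have e1 := congrArg (evM (1 : Matrix ι ι L)) h0
    rw [map_zero] at e1
    have e2 : evM (1 : Matrix ι ι L) (Matrix.of fun c c' => D c (l c')).det =
        ((Matrix.of fun c c' => D c (l c')).map (evM (1 : Matrix ι ι L))).det :=
      ((evM (1 : Matrix ι ι L)) : MvPolynomial (ι × ι) L →+* L).map_det _
    have e3 : (Matrix.of fun c c' => D c (l c')).map (evM (1 : Matrix ι ι L)) = 1 := by
      ext c c'
      rw [Matrix.map_apply, Matrix.of_apply]
      change evM (1 : Matrix ι ι L) (dA (β c).1 (∑ p : ι × ι,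
        MvPolynomial.C (u c' (Matrix.single p.1 p.2 1)) * X p)) = _
      rw [map_sum, map_sum]
      have e4 : ∀ p : ι × ι, evM (1 : Matrix ι ι L) (dA (β c).1
          (MvPolynomial.C (u c' (Matrix.single p.1 p.2 1)) * X p)) =
          (β c).1 p.1 p.2 * u c' (Matrix.single p.1 p.2 1) := by
        intro p
        rw [Derivation.leibniz, dA_C, smul_zero, add_zero, dA_X, smul_eq_mul, map_mul, evM_C,
          map_sum]
        have e5 : ∑ c1, evM (1 : Matrix ι ι L) (X (p.1, c1) * MvPolynomial.C ((β c).1 c1 p.2)) =
            (β c).1 p.1 p.2 := by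
          rw [Finset.sum_eq_single p.1]
          · rw [map_mul, evM_X, evM_C, Matrix.one_apply_eq, one_mul]
          · intro c1 _ hc1
            rw [map_mul, evM_X, Matrix.one_apply_ne (Ne.symm hc1), zero_mul]
          · intro hn; exact absurd (Finset.mem_univ _) hn
        rw [e5, mul_comm]
      simp only [e4]
      have e6 : (β c).1 = ∑ p : ι × ι, (β c).1 p.1 p.2 • Matrix.single p.1 p.2 (1 : L) := by
        conv_lhs => rw [Matrix.matrix_eq_sum_single (β c).1]
        rw [Fintype.sum_prod_type]
        refine Finset.sum_congr rfl fun i _ => Finset.sum_congr rfl fun j _ => ?_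
        rw [Matrix.smul_single, smul_eq_mul, mul_one]
      have e7 := hu' c' c
      rw [e6, map_sum] at e7
      simp only [map_smul, smul_eq_mul] at e7
      rw [e7, Matrix.one_apply]
    rw [e2, e3, Matrix.det_one] at e1
    exact one_ne_zero e1
  have hqr : Fintype.card (ι × ι) =
      Fintype.card (Fin (finrank L (Submodule.span L Φ)) ⊕ Fin (finrank L H)) := by
    rw [Fintype.card_prod, Fintype.card_sum, Fintype.card_fin, Fintype.card_fin]
    exact hsum.symm
  let e : ι × ι ≃ Fin (finrank L (Submodule.span L Φ)) ⊕ Fin (finrank L H) :=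
    Fintype.equivOfCardEq hqr
  have key := card_le_prod (fun p => Sum.elim h l (e p))
    (fun p => Sum.elim (fun _ => M) (fun _ => 1) (e p)) (fun p => ?_) (fun p => ?_) b
    (fun F hF => ?_)
  · refine key.trans ?_
    rw [Equiv.prod_comp e (fun x => Sum.elim (fun _ : Fin (finrank L (Submodule.span L Φ)) => M)
      (fun _ : Fin (finrank L H) => 1) x), Fintype.prod_sum_type]
    simp only [Sum.elim_inl, Sum.elim_inr, Finset.prod_const, Finset.card_univ, Fintype.card_fin,
      one_pow, mul_one]
    apply Nat.pow_le_pow_right hM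
    rw [sq]
    omega
  · rcases e p with a | c
    · exact hM
    · exact le_rfl
  · rcases e p with a | c
    · exact (totalDegree_xt_le _ _).trans (hm a)
    · change (∑ p : ι × ι, MvPolynomial.C (u c (Matrix.single p.1 p.2 1)) * X p :
        MvPolynomial (ι × ι) L).totalDegree ≤ 1
      refine totalDegree_finsetSum_le fun p _ => ?_
      refine (totalDegree_mul _ _).trans ?_
      rw [totalDegree_C, zero_add]
      exact (totalDegree_X p).le
  · have e1 : (fun i => rename e (F i)) = 0 := by
      refine indep h l b g D ?_ ?_ ?_ hdet hl hh _ ?_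
      · intro c a
        change dA (β c).1 (xt (sj a) (I a)) = 0
        rw [dA_xt, hLie _ (β c).2 _ _ (hs a), xt_zero]
      · intro j a
        change rho (g j) (xt (sj a) (I a)) = xt (sj a) (I a)
        rw [rho_xt, hg j _ _ (hs a)]
      · intro c i
        exact hb i _ (hLie _ (β c).2)
      · rw [← hF]
        refine Finset.sum_congr rfl fun i _ => ?_
        rw [aeval_rename]
        rfl
    funext i
    have e2 := congrFun e1 i
    have e3 : rename e (F i) = rename e 0 := by
      rw [map_zero]; exact e2
    exact rename_injective e e.injective e3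

end Pool.Agent.Q60.FI
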