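import Pool.Agent.Q60.FI.Sch
import Pool.Agent.Q60.FI.Bez
import Pool.Agent.Q60.FI.LieEq

/-!
# The explicit index theorem

Let `T` be a system of tensors with projections, of dimension `b`, whose infinitesimal stabiliser is
the infinitesimal stabiliser of the tensors of degree at most `M`. The dimension of a nondegenerate
space of tensors of even degree which are annihilated by the infinitesimal stabiliser of `T` is at
most `M ^ (b ^ 2)` times the dimension of the space of the tensors of the system of the same degree.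
-/

set_option linter.unusedSectionVars false

namespace Pool.Agent.Q60.FI

open MvPolynomial Module Matrix Pool.Agent.Q60.ED Pool.Agent.Q60.NP Pool.Agent.Q60.TD

section closed

variable {L : Type} [Field L] {ι : Type} [Fintype ι] [DecidableEq ι]

/-- The operators commuting with the infinitesimal stabiliser. -/
noncomputable def Ecom (S : ∀ n : ℕ, Submodule L ((Fin n → ι) → L)) (n : ℕ) :
    Subalgebra L (Module.End L ((Fin n → ι) → L)) where
  carrier := {f | ∀ A, Lie S A → am A n * LinearMap.toMatrix' f = LinearMap.toMatrix' f * am A n}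
  mul_mem' {a b} ha hb A hA := by
    rw [LinearMap.toMatrix'_mul, ← Matrix.mul_assoc, ha A hA, Matrix.mul_assoc, hb A hA,
      Matrix.mul_assoc]
  add_mem' {a b} ha hb A hA := by
    rw [map_add, Matrix.mul_add, Matrix.add_mul, ha A hA, hb A hA]
  algebraMap_mem' c A hA := by
    rw [Algebra.algebraMap_eq_smul_one, map_smul, LinearMap.toMatrix'_one, Matrix.mul_smul,
      Matrix.smul_mul, Matrix.mul_one, Matrix.one_mul]

lemma mem_Ecom {S : ∀ n : ℕ, Submodule L ((Fin n → ι) → L)} {n : ℕ}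
    {f : Module.End L ((Fin n → ι) → L)} : f ∈ Ecom S n ↔
      ∀ A, Lie S A → am A n * LinearMap.toMatrix' f = LinearMap.toMatrix' f * am A n := Iff.rfl

lemma toMatrix_tpow (g : Matrix ι ι L) (n : ℕ) : LinearMap.toMatrix' (tpow g n) = TP g n := by
  have h1 : tpow g n = Matrix.toLin' (TP g n) := by
    apply LinearMap.ext
    intro t
    rw [Matrix.toLin'_apply]
    exact tpow_eq g n t
  rw [h1, LinearMap.toMatrix'_toLin']

lemma TP_am {g A B : Matrix ι ι L}
    (h : g * A = B * g) (n : ℕ) : TP g n * am A n = am B n * TP g n := by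
  apply Matrix.toLin'.injective
  apply LinearMap.ext
  intro t
  rw [Matrix.toLin'_apply, Matrix.toLin'_apply, ← Matrix.mulVec_mulVec, ← Matrix.mulVec_mulVec,
    am_mulVec, am_mulVec, ← tpow_eq, ← tpow_eq, tpow_aop h]

variable {S : ∀ n : ℕ, Submodule L ((Fin n → ι) → L)}

/-- The stabiliser. -/
def GS (S : ∀ n : ℕ, Submodule L ((Fin n → ι) → L)) : Subgroup (Matrix ι ι L)ˣ where
  carrier := {g | Fix S (g : Matrix ι ι L)}
  mul_mem' {a b} ha hb n s hs := by
    rw [Units.val_mul, tpow_mul, hb n s hs, ha n s hs]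
  one_mem' n s _ := by
    rw [Units.val_one, tpow_one]
  inv_mem' {a} ha n s hs := by
    have h1 : tpow ((a⁻¹ : (Matrix ι ι L)ˣ) : Matrix ι ι L) n (tpow (a : Matrix ι ι L) n s) = s := by
      rw [← tpow_mul, Units.inv_mul, tpow_one]
    rw [ha n s hs] at h1
    exact h1

/-- the matrix of an element of the stabiliser -/
def gm (g : GS S) : Matrix ι ι L := ((g : (Matrix ι ι L)ˣ) : Matrix ι ι L)

lemma gm_mul (g h : GS S) : gm (g * h) = gm g * gm h := by
  rw [gm, Subgroup.coe_mul, Units.val_mul]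
  rfl

lemma gm_one : gm (1 : GS S) = 1 := by
  rw [gm, Subgroup.coe_one, Units.val_one]

lemma gm_inv_mul (g : GS S) : gm g⁻¹ * gm g = 1 := by rw [← gm_mul, inv_mul_cancel, gm_one]

lemma gm_mul_inv (g : GS S) : gm g * gm g⁻¹ = 1 := by rw [← gm_mul, mul_inv_cancel, gm_one]

lemma gm_fix (g : GS S) : Fix S (gm g) := g.2

lemma gm_inv (g : GS S) : (gm g)⁻¹ = gm g⁻¹ := Matrix.inv_eq_left_inv (gm_inv_mul g)

lemma gm_det (g : GS S) : (gm g).det ≠ 0 := by
  intro h
  have h1 := congrArg Matrix.det (gm_mul_inv g)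
  rw [Matrix.det_mul, h, zero_mul, Matrix.det_one] at h1
  exact zero_ne_one h1

lemma cnj_mem (g : GS S) (n : ℕ) {f : Module.End L ((Fin n → ι) → L)} (hf : f ∈ Ecom S n) :
    tpow (gm g) n * f * tpow (gm g⁻¹) n ∈ Ecom S n := by
  intro A hA
  have hB : Lie S (gm g⁻¹ * A * gm g) := by
    have h1 := lie_conj (gm_fix g) (gm_det g) hA
    rwa [gm_inv] at h1
  have h1 : gm g * (gm g⁻¹ * A * gm g) = A * gm g := by
    rw [← Matrix.mul_assoc, ← Matrix.mul_assoc, gm_mul_inv, Matrix.one_mul]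
  have h2 : gm g⁻¹ * A = (gm g⁻¹ * A * gm g) * gm g⁻¹ := by
    rw [Matrix.mul_assoc _ _ (gm g⁻¹), gm_mul_inv, Matrix.mul_one]
  have h3 := TP_am h1 n
  have h4 := TP_am h2 n
  rw [LinearMap.toMatrix'_mul, LinearMap.toMatrix'_mul, toMatrix_tpow, toMatrix_tpow]
  calc am A n * (TP (gm g) n * LinearMap.toMatrix' f * TP (gm g⁻¹) n)
      = (am A n * TP (gm g) n) * LinearMap.toMatrix' f * TP (gm g⁻¹) n := by
        simp only [Matrix.mul_assoc]
    _ = TP (gm g) n * (am (gm g⁻¹ * A * gm g) n * LinearMap.toMatrix' f) * TP (gm g⁻¹) n := by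
        rw [← h3, Matrix.mul_assoc (TP (gm g) n)]
    _ = TP (gm g) n * LinearMap.toMatrix' f * (am (gm g⁻¹ * A * gm g) n * TP (gm g⁻¹) n) := by
        rw [hf _ hB]
        simp only [Matrix.mul_assoc]
    _ = TP (gm g) n * LinearMap.toMatrix' f * TP (gm g⁻¹) n * am A n := by
        rw [← h4]
        simp only [Matrix.mul_assoc]

lemma tp_inv_mul (g : GS S) (n : ℕ) :
    (tpow (gm g⁻¹) n * tpow (gm g) n : Module.End L ((Fin n → ι) → L)) = 1 := by
  apply LinearMap.ext
  intro t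
  change tpow (gm g⁻¹) n (tpow (gm g) n t) = t
  rw [← tpow_mul, gm_inv_mul, tpow_one]

lemma tp_mul_inv (g : GS S) (n : ℕ) :
    (tpow (gm g) n * tpow (gm g⁻¹) n : Module.End L ((Fin n → ι) → L)) = 1 := by
  apply LinearMap.ext
  intro t
  change tpow (gm g) n (tpow (gm g⁻¹) n t) = t
  rw [← tpow_mul, gm_mul_inv, tpow_one]

/-- The conjugation. -/
noncomputable def cnjA (n : ℕ) (g : GS S) : Ecom S n →ₐ[L] Ecom S n where
  toFun f := ⟨tpow (gm g) n * f.1 * tpow (gm g⁻¹) n, cnj_mem g n f.2⟩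
  map_one' := by
    apply Subtype.ext
    change tpow (gm g) n * 1 * tpow (gm g⁻¹) n = 1
    rw [mul_one, tp_mul_inv]
  map_mul' a b := by
    apply Subtype.ext
    change tpow (gm g) n * (a.1 * b.1) * tpow (gm g⁻¹) n =
      (tpow (gm g) n * a.1 * tpow (gm g⁻¹) n) * (tpow (gm g) n * b.1 * tpow (gm g⁻¹) n)
    have h1 : (tpow (gm g) n * a.1 * tpow (gm g⁻¹) n) * (tpow (gm g) n * b.1 * tpow (gm g⁻¹) n) =
        tpow (gm g) n * a.1 * (tpow (gm g⁻¹) n * tpow (gm g) n) * b.1 * tpow (gm g⁻¹) n := by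
      simp only [mul_assoc]
    rw [h1, tp_inv_mul, mul_one, ← mul_assoc (tpow (gm g) n)]
  map_zero' := by
    apply Subtype.ext
    change tpow (gm g) n * 0 * tpow (gm g⁻¹) n = 0
    rw [mul_zero, zero_mul]
  map_add' a b := by
    apply Subtype.ext
    change tpow (gm g) n * (a.1 + b.1) * tpow (gm g⁻¹) n = _
    rw [mul_add, add_mul]
    rfl
  commutes' c := by
    apply Subtype.ext
    change tpow (gm g) n * (algebraMap L (Module.End L _) c) * tpow (gm g⁻¹) n =
      algebraMap L (Module.End L _) c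
    rw [← Algebra.commutes, mul_assoc, tp_mul_inv, mul_one]

lemma cnjA_val (n : ℕ) (g : GS S) (f : Ecom S n) :
    (cnjA n g f : Module.End L ((Fin n → ι) → L)) = tpow (gm g) n * f.1 * tpow (gm g⁻¹) n := rfl

lemma tp_mul (n : ℕ) (g h : GS S) :
    (tpow (gm (g * h)) n : Module.End L ((Fin n → ι) → L)) = tpow (gm g) n * tpow (gm h) n := by
  apply LinearMap.ext
  intro t
  change tpow (gm (g * h)) n t = tpow (gm g) n (tpow (gm h) n t)
  rw [gm_mul, tpow_mul]

lemma cnjA_mul (n : ℕ) (g h : GS S) (f : Ecom S n) :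
    cnjA n (g * h) f = cnjA n g (cnjA n h f) := by
  apply Subtype.ext
  rw [cnjA_val, cnjA_val, cnjA_val, tp_mul, _root_.mul_inv_rev, tp_mul]
  simp only [mul_assoc]

lemma cnjA_one (n : ℕ) (f : Ecom S n) : cnjA n (1 : GS S) f = f := by
  apply Subtype.ext
  have h1 : (tpow (gm (1 : GS S)) n : Module.End L ((Fin n → ι) → L)) = 1 := by
    apply LinearMap.ext
    intro t
    rw [gm_one, tpow_one]
    rfl
  rw [cnjA_val, inv_one, h1, one_mul, mul_one]

/-- The conjugation as an automorphism. -/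
noncomputable def cnjE (n : ℕ) : GS S →* (Ecom S n ≃ₐ[L] Ecom S n) where
  toFun g := AlgEquiv.ofAlgHom (cnjA n g) (cnjA n g⁻¹)
    (AlgHom.ext fun f => by
      change cnjA n g (cnjA n g⁻¹ f) = f
      rw [← cnjA_mul, mul_inv_cancel, cnjA_one])
    (AlgHom.ext fun f => by
      change cnjA n g⁻¹ (cnjA n g f) = f
      rw [← cnjA_mul, inv_mul_cancel, cnjA_one])
  map_one' := AlgEquiv.ext fun f => cnjA_one n f
  map_mul' g h := AlgEquiv.ext fun f => cnjA_mul n g h f

lemma cnjE_apply (n : ℕ) (g : GS S) (f : Ecom S n) : cnjE n g f = cnjA n g f := rfl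

lemma trace_cnj (n : ℕ) (g : GS S) (f : Ecom S n) :
    LinearMap.trace L ((Fin n → ι) → L) (cnjE n g f : Module.End L ((Fin n → ι) → L)) =
      LinearMap.trace L ((Fin n → ι) → L) (f : Module.End L ((Fin n → ι) → L)) := by
  rw [cnjE_apply, cnjA_val, LinearMap.trace_mul_comm, ← mul_assoc, tp_inv_mul, one_mul]

/-- The tensor of an operator. -/
noncomputable def tau (Q : Matrix ι ι L) (n : ℕ) :
    Module.End L ((Fin n → ι) → L) →ₗ[L] ((Fin (n + n) → ι) → L) where
  toFun f := tenM (LinearMap.toMatrix' f * TP Q⁻¹ n)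
  map_add' f g := by
    rw [map_add, Matrix.add_mul]
    rfl
  map_smul' c f := by
    rw [map_smul, Matrix.smul_mul]
    rfl

lemma tau_apply (Q : Matrix ι ι L) (n : ℕ) (f : Module.End L ((Fin n → ι) → L)) :
    tau Q n f = tenM (LinearMap.toMatrix' f * TP Q⁻¹ n) := rfl

lemma tau_inj {Q : Matrix ι ι L} (hQ : Q.det ≠ 0) (n : ℕ) : Function.Injective (tau Q n) := by
  intro f g h
  rw [tau_apply, tau_apply] at h
  have h1 := tenM_inj h
  have h2 := congrArg (fun M => M * TP Q n) h1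
  simp only [Matrix.mul_assoc, (TP_det hQ n).2, Matrix.mul_one] at h2
  exact LinearMap.toMatrix'.injective h2

/-- The operator of a tensor. -/
noncomputable def sig (Q : Matrix ι ι L) (n : ℕ) :
    ((Fin (n + n) → ι) → L) →ₗ[L] Module.End L ((Fin n → ι) → L) where
  toFun t := Matrix.toLin' ((Matrix.of fun I J => t (Fin.append I J)) * TP Q n)
  map_add' s t := by
    rw [← map_add, ← Matrix.add_mul]
    rfl
  map_smul' c t := by
    rw [RingHom.id_apply, ← map_smul, ← Matrix.smul_mul]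
    rfl

lemma tenM_of {p q : ℕ} (t : (Fin (p + q) → ι) → L) :
    tenM (Matrix.of fun (I : Fin p → ι) (J : Fin q → ι) => t (Fin.append I J)) = t := by
  funext w
  rw [tenM, Matrix.of_apply]
  congr 1
  exact (Fin.append_castAdd_natAdd (f := w)).symm.symm

lemma toMatrix_sig (Q : Matrix ι ι L) (n : ℕ) (t : (Fin (n + n) → ι) → L) :
    LinearMap.toMatrix' (sig Q n t) = (Matrix.of fun I J => t (Fin.append I J)) * TP Q n :=
  LinearMap.toMatrix'_toLin' _

lemma gm_form {Q : Matrix ι ι L} (hΩ : (fun w : Fin 2 → ι => Q⁻¹ (w 0) (w 1)) ∈ S 2) (g : GS S) :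
    gm g * Q⁻¹ * (gm g).transpose = Q⁻¹ := by
  have h1 := tpow_two (gm g) (fun w : Fin 2 → ι => Q⁻¹ (w 0) (w 1))
  rw [gm_fix g 2 _ hΩ] at h1
  exact h1.symm

lemma tau_cnj {Q : Matrix ι ι L} (hΩ : (fun w : Fin 2 → ι => Q⁻¹ (w 0) (w 1)) ∈ S 2) (n : ℕ)
    (g : GS S) (f : Ecom S n) : tau Q n (cnjE n g f).1 = tpow (gm g) (n + n) (tau Q n f.1) := by
  rw [cnjE_apply, cnjA_val, tau_apply, tau_apply, tpow_tenM, LinearMap.toMatrix'_mul,
    LinearMap.toMatrix'_mul, toMatrix_tpow, toMatrix_tpow]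
  congr 1
  have h1 : gm g⁻¹ * Q⁻¹ = Q⁻¹ * (gm g).transpose := by
    have h2 := gm_form hΩ g
    calc gm g⁻¹ * Q⁻¹ = gm g⁻¹ * (gm g * Q⁻¹ * (gm g).transpose) := by rw [h2]
      _ = (gm g⁻¹ * gm g) * Q⁻¹ * (gm g).transpose := by simp only [Matrix.mul_assoc]
      _ = Q⁻¹ * (gm g).transpose := by rw [gm_inv_mul, Matrix.one_mul]
  have h3 : TP (gm g⁻¹) n * TP Q⁻¹ n = TP Q⁻¹ n * (TP (gm g) n).transpose := by
    rw [← TP_transpose, ← TP_mul, ← TP_mul, h1]
  rw [Matrix.mul_assoc, h3]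
  simp only [Matrix.mul_assoc]

section T

variable (T : TSys L ι) [IsAlgClosed L] [CharZero L] {Q : Matrix ι ι L}

lemma mat2_inv (Q : Matrix ι ι L) : mat2 (fun w : Fin 2 → ι => Q⁻¹ (w 0) (w 1)) = Q⁻¹ := by
  ext i j
  rfl

lemma inv_det (hQ : Q.det ≠ 0) : (mat2 (fun w : Fin 2 → ι => Q⁻¹ (w 0) (w 1))).det ≠ 0 := by
  rw [mat2_inv]
  exact (Matrix.isUnit_nonsing_inv_det _ (isUnit_iff_ne_zero.2 hQ)).ne_zero

lemma mem_of_GS (hQ : Q.det ≠ 0) (hΩ : (fun w : Fin 2 → ι => Q⁻¹ (w 0) (w 1)) ∈ T.S 2) {n : ℕ}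
    {t : (Fin n → ι) → L} (ht : ∀ g : GS T.S, tpow (gm g) n t = t) : t ∈ T.S n := by
  refine T.mem_of_fixed hΩ (inv_det hQ) fun h hh => ?_
  have hd := fix_det hΩ (inv_det hQ) hh
  let u : (Matrix ι ι L)ˣ := ⟨h, h⁻¹, fix_mul_inv hd, fix_inv_mul hd⟩
  exact ht ⟨u, hh⟩

lemma am_om (hQ : Q.det ≠ 0) (hΩ : (fun w : Fin 2 → ι => Q⁻¹ (w 0) (w 1)) ∈ T.S 2) (n : ℕ)
    {A : Matrix ι ι L} (hA : Lie T.S A) :
    am A n * TP Q⁻¹ n + TP Q⁻¹ n * (am A n).transpose = 0 := by
  have h1 : tenM (TP Q⁻¹ n) ∈ T.S (n + n) := by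
    refine mem_of_GS T hQ hΩ fun g => ?_
    rw [tpow_tenM, ← TP_transpose, ← TP_mul, ← TP_mul, gm_form hΩ]
  exact am_of_kill (hA _ _ h1)

lemma am_om' (hQ : Q.det ≠ 0) (hΩ : (fun w : Fin 2 → ι => Q⁻¹ (w 0) (w 1)) ∈ T.S 2) (n : ℕ)
    {A : Matrix ι ι L} (hA : Lie T.S A) :
    TP Q⁻¹ n * (am A n).transpose = - (am A n * TP Q⁻¹ n) :=
  eq_neg_of_add_eq_zero_right (am_om T hQ hΩ n hA)

lemma am_Q (hQ : Q.det ≠ 0) (hΩ : (fun w : Fin 2 → ι => Q⁻¹ (w 0) (w 1)) ∈ T.S 2) (n : ℕ)
    {A : Matrix ι ι L} (hA : Lie T.S A) :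
    (am A n).transpose * TP Q n = - (TP Q n * am A n) := by
  have h1 := congrArg (fun M => TP Q n * M * TP Q n) (am_om' T hQ hΩ n hA)
  simp only [Matrix.mul_neg, Matrix.neg_mul, ← Matrix.mul_assoc, (TP_det hQ n).1,
    Matrix.one_mul] at h1
  rw [Matrix.mul_assoc _ (TP Q⁻¹ n), (TP_det hQ n).2, Matrix.mul_one] at h1
  exact h1

lemma tau_mem_Lk (hQ : Q.det ≠ 0) (hΩ : (fun w : Fin 2 → ι => Q⁻¹ (w 0) (w 1)) ∈ T.S 2) (n : ℕ)
    (f : Ecom T.S n) : tau Q n f.1 ∈ Lk T.S (n + n) := by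
  intro A hA
  funext w
  have hw : w = Fin.append (fun k => w (Fin.castAdd n k)) (fun k => w (Fin.natAdd n k)) :=
    (Fin.append_castAdd_natAdd (f := w)).symm
  rw [tau_apply, hw, aop_tenM, Matrix.mul_assoc _ (TP Q⁻¹ n), am_om' T hQ hΩ n hA,
    ← Matrix.mul_assoc, f.2 A hA, Matrix.mul_neg, Matrix.mul_assoc, add_neg_cancel]
  rfl

lemma sig_mem (hQ : Q.det ≠ 0) (hΩ : (fun w : Fin 2 → ι => Q⁻¹ (w 0) (w 1)) ∈ T.S 2) (n : ℕ)
    {t : (Fin (n + n) → ι) → L} (ht : t ∈ Lk T.S (n + n)) : sig Q n t ∈ Ecom T.S n := by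
  intro A hA
  have h1 := am_of_kill (A := Matrix.of fun (I : Fin n → ι) (J : Fin n → ι) =>
    t (Fin.append I J)) (x := A) (by rw [tenM_of]; exact ht A hA)
  rw [toMatrix_sig, ← Matrix.mul_assoc, eq_neg_of_add_eq_zero_left h1, Matrix.neg_mul,
    Matrix.mul_assoc, am_Q T hQ hΩ n hA, Matrix.mul_neg, neg_neg, Matrix.mul_assoc]

/-- The adjoint operator. -/
lemma exists_adj (hQ : Q.det ≠ 0) (hΩ : (fun w : Fin 2 → ι => Q⁻¹ (w 0) (w 1)) ∈ T.S 2) (n : ℕ)
    {w : (Fin (n + n) → ι) → L} (hw : w ∈ Lk T.S (n + n)) : ∃ y : Ecom T.S n,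
      ∀ t : (Fin (n + n) → ι) → L, bf (TP Q (n + n)) t w =
        LinearMap.trace L ((Fin n → ι) → L) ((y : Module.End L ((Fin n → ι) → L)) * sig Q n t) := by
  set B : Matrix (Fin n → ι) (Fin n → ι) L := Matrix.of fun I J => w (Fin.append I J) with hB
  have hwB : tenM B = w := tenM_of w
  have hY : Matrix.toLin' (B.transpose * (TP Q n).transpose) ∈ Ecom T.S n := by
    intro A hA
    have h1 : am A n * B + B * (am A n).transpose = 0 := am_of_kill (by rw [hwB]; exact hw A hA)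
    have h2 : (am A n).transpose * (TP Q n * B) = (TP Q n * B) * (am A n).transpose := by
      rw [← Matrix.mul_assoc, am_Q T hQ hΩ n hA, Matrix.neg_mul, Matrix.mul_assoc,
        eq_neg_of_add_eq_zero_left h1, Matrix.mul_neg, neg_neg, Matrix.mul_assoc]
    have h3 := congrArg Matrix.transpose h2
    simp only [Matrix.transpose_mul, Matrix.transpose_transpose] at h3
    rw [LinearMap.toMatrix'_toLin']
    exact h3.symm
  refine ⟨⟨_, hY⟩, fun t => ?_⟩
  set A : Matrix (Fin n → ι) (Fin n → ι) L := Matrix.of fun I J => t (Fin.append I J) with hA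
  have htA : tenM A = t := tenM_of t
  have h1 : (Matrix.toLin' (B.transpose * (TP Q n).transpose) * sig Q n t :
      Module.End L ((Fin n → ι) → L)) =
      Matrix.toLin' (B.transpose * (TP Q n).transpose * (A * TP Q n)) :=
    (Matrix.toLin'_mul _ _).symm
  change _ = LinearMap.trace L ((Fin n → ι) → L)
    (Matrix.toLin' (B.transpose * (TP Q n).transpose) * sig Q n t)
  rw [h1, Matrix.trace_toLin'_eq, Matrix.trace_mul_comm, ← Matrix.mul_assoc]
  conv_lhs => rw [← htA, ← hwB]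
  exact CSys.bf_tenM A B

/-- The polynomials annihilated by the infinitesimal stabiliser. -/
noncomputable def Zal (S : ∀ n : ℕ, Submodule L ((Fin n → ι) → L)) :
    Subalgebra L (MvPolynomial (ι × ι) L) where
  carrier := {f | ∀ A, Lie S A → dA A f = 0}
  mul_mem' {a b} ha hb A hA := by
    rw [Derivation.leibniz, ha A hA, hb A hA, smul_zero, smul_zero, add_zero]
  add_mem' {a b} ha hb A hA := by
    rw [map_add, ha A hA, hb A hA, add_zero]
  algebraMap_mem' c A _ := dA_C A c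

/-- The group of the conjugations is finite. -/
lemma card_cnj (hQ : Q.det ≠ 0) (hΩ : (fun w : Fin 2 → ι => Q⁻¹ (w 0) (w 1)) ∈ T.S 2) {M : ℕ}
    (hM : 1 ≤ M) (hst : ∀ A : Matrix ι ι L, (∀ m ≤ M, ∀ s ∈ T.S m, aop A s = 0) → Lie T.S A)
    (n : ℕ) {s : ℕ} (g : Fin s → GS T.S) (hg : Function.Injective fun j => cnjE n (g j)) :
    s ≤ M ^ (Fintype.card ι ^ 2) := by
  classical
  -- the characters
  let χ : Fin s → (Zal T.S →* L) := fun j =>
    ((evM (gm (g j)) : MvPolynomial (ι × ι) L →ₐ[L] L) : MvPolynomial (ι × ι) L →* L).comp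
      ((Zal T.S).val : Zal T.S →* MvPolynomial (ι × ι) L)
  have hχ : Function.Injective χ := by
    intro i j hij
    apply hg
    apply AlgEquiv.ext
    intro f
    apply Subtype.ext
    apply tau_inj hQ n
    change tau Q n (cnjE n (g i) f).1 = tau Q n (cnjE n (g j) f).1
    rw [tau_cnj hΩ, tau_cnj hΩ]
    funext I
    have h1 : xt (tau Q n f.1) I ∈ Zal T.S := by
      intro A hA
      rw [dA_xt, tau_mem_Lk T hQ hΩ n f A hA, xt_zero]
    have h2 := DFunLike.congr_fun hij (⟨_, h1⟩ : Zal T.S)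
    change evM (gm (g i)) (xt (tau Q n f.1) I) = evM (gm (g j)) (xt (tau Q n f.1) I) at h2
    rwa [evM_xt, evM_xt] at h2
  have h1 := (linearIndependent_monoidHom (Zal T.S) L).comp χ hχ
  let φ : Fin s → Module.Dual L (Zal T.S) := fun j =>
    (evM (gm (g j))).toLinearMap ∘ₗ (Zal T.S).val.toLinearMap
  have hφ : LinearIndependent L φ := by
    rw [Fintype.linearIndependent_iff] at h1 ⊢
    intro c hc
    apply h1 c
    funext z
    have h2 := LinearMap.congr_fun hc z
    rw [LinearMap.sum_apply] at h2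
    rw [Finset.sum_apply]
    exact h2
  obtain ⟨v, hv⟩ := exists_dual_family φ hφ
  refine bezout hM hst (fun j => gm (g j)) (fun j => gm_fix (g j)) (fun i => (v i).1)
    (fun i A hA => (v i).2 A hA) ?_
  have h2 : (Matrix.of fun j i => evM (gm (g j)) (v i).1) = 1 := by
    ext j i
    rw [Matrix.of_apply]
    have h3 := hv i j
    change evM (gm (g j)) (v i).1 = _ at h3
    rw [h3, Matrix.one_apply, Matrix.one_apply]
    by_cases h : i = j
    · rw [if_pos h, if_pos h.symm]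
    · rw [if_neg h, if_neg (Ne.symm h)]
  rw [h2, Matrix.det_one]
  exact one_ne_zero

lemma finite_of_bound {F : Type} {N : ℕ} (h : ∀ (s : ℕ) (f : Fin s → F), Function.Injective f →
    s ≤ N) : Finite F ∧ Nat.card F ≤ N := by
  have hfin : Finite F := by
    by_contra hinf
    rw [not_finite_iff_infinite] at hinf
    have h1 := h (N + 1) (fun k => Infinite.natEmbedding F k.1) (fun a b hab => by
      apply Fin.ext
      exact (Infinite.natEmbedding F).injective hab)
    omega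
  exact ⟨hfin, h _ (Finite.equivFin F).symm (Finite.equivFin F).symm.injective⟩

/-- **The explicit index theorem over an algebraically closed field.** -/
theorem index_closed (hQ : Q.det ≠ 0) (hΩ : (fun w : Fin 2 → ι => Q⁻¹ (w 0) (w 1)) ∈ T.S 2) {M : ℕ}
    (hM : 1 ≤ M) (hst : ∀ A : Matrix ι ι L, (∀ m ≤ M, ∀ s ∈ T.S m, aop A s = 0) → Lie T.S A)
    (n : ℕ) (C' : Submodule L ((Fin (n + n) → ι) → L)) (hC' : C' ≤ Lk T.S (n + n))
    (hnd : ∀ v ∈ C', (∀ w ∈ C', bf (TP Q (n + n)) v w = 0) → v = 0) :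
    finrank L C' ≤ M ^ (Fintype.card ι ^ 2) * finrank L (T.S (n + n)) := by
  classical
  let F : Subgroup (Ecom T.S n ≃ₐ[L] Ecom T.S n) := (cnjE n : GS T.S →* _).range
  obtain ⟨hfin, hcard⟩ : Finite F ∧ Nat.card F ≤ M ^ (Fintype.card ι ^ 2) := by
    refine finite_of_bound fun s f hf => ?_
    have h1 : ∀ j, ∃ g : GS T.S, cnjE n g = (f j).1 := fun j => (f j).2
    choose g hg using h1
    refine card_cnj T hQ hΩ hM hst n g fun i j hij => ?_
    apply hf
    apply Subtype.ext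
    rw [← hg i, ← hg j]
    exact hij
  have := Fintype.ofFinite F
  let α : F →* (Ecom T.S n ≃ₐ[L] Ecom T.S n) := F.subtype
  have htr : ∀ a (x : Ecom T.S n), LinearMap.trace L ((Fin n → ι) → L)
      (α a x : Module.End L ((Fin n → ι) → L)) = LinearMap.trace L ((Fin n → ι) → L)
        (x : Module.End L ((Fin n → ι) → L)) := by
    rintro ⟨a, g, rfl⟩ x
    exact trace_cnj n g x
  let B : Submodule L (Module.End L ((Fin n → ι) → L)) := (T.S (n + n)).comap (tau Q n)
  have hB : ∀ x : Ecom T.S n, (∀ a, α a x = x) → (x : Module.End L ((Fin n → ι) → L)) ∈ B := by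
    intro x hx
    change tau Q n x.1 ∈ T.S (n + n)
    refine mem_of_GS T hQ hΩ fun g => ?_
    rw [← tau_cnj hΩ]
    have h1 := hx ⟨cnjE n g, g, rfl⟩
    change cnjE n g x = x at h1
    rw [h1]
  have hBd : finrank L B ≤ finrank L (T.S (n + n)) := by
    refine LinearMap.finrank_le_finrank_of_injective
      (f := (tau Q n).restrict (p := B) (q := T.S (n + n)) fun x hx => hx) ?_
    intro x y hxy
    apply Subtype.ext
    exact tau_inj hQ n (congrArg Subtype.val hxy)
  let φ : C' →ₗ[L] Ecom T.S n :=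
    { toFun := fun t => ⟨sig Q n t.1, sig_mem T hQ hΩ n (hC' t.2)⟩
      map_add' := fun s t => Subtype.ext (map_add (sig Q n) s.1 t.1)
      map_smul' := fun c t => Subtype.ext (map_smul (sig Q n) c t.1) }
  have h1 := finrank_le_card_mul α htr B hB φ (by
    rintro ⟨t, ht⟩ h0
    apply Subtype.ext
    refine hnd t ht fun w hw => ?_
    obtain ⟨y, hy⟩ := exists_adj T hQ hΩ n (hC' hw)
    rw [hy t]
    exact h0 y)
  refine h1.trans (Nat.mul_le_mul ?_ hBd)
  rw [← Nat.card_eq_fintype_card]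
  exact hcard

end T

end closed

section descent

variable {K : Type} [Field K] {ι : Type} [Fintype ι] [DecidableEq ι]

/-- **The explicit index theorem.** -/
theorem index_bound [CharZero K] (T : TSys K ι) {Q : Matrix ι ι K}
    (hQ : Q.det ≠ 0) (hΩ : (fun w : Fin 2 → ι => Q⁻¹ (w 0) (w 1)) ∈ T.S 2) {M : ℕ}
    (hM : 1 ≤ M) (hst : ∀ A : Matrix ι ι K, (∀ m ≤ M, ∀ s ∈ T.S m, aop A s = 0) → Lie T.S A)
    (n : ℕ) (C' : Submodule K ((Fin (n + n) → ι) → K)) (hC' : C' ≤ Lk T.S (n + n))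
    (hnd : ∀ v ∈ C', (∀ w ∈ C', bf (TP Q (n + n)) v w = 0) → v = 0) :
    finrank K C' ≤ M ^ (Fintype.card ι ^ 2) * finrank K (T.S (n + n)) := by
  let L := AlgebraicClosure K
  have : CharZero L := charZero_of_injective_algebraMap (algebraMap K L).injective
  have hd : (Q.map (algebraMap K L)).det = algebraMap K L Q.det := ((algebraMap K L).map_det _).symm
  have hQL : (Q.map (algebraMap K L)).det ≠ 0 := by
    rw [hd]
    exact (map_ne_zero _).2 hQ
  have hinv : (Q.map (algebraMap K L))⁻¹ = Q⁻¹.map (algebraMap K L) := by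
    apply Matrix.inv_eq_left_inv
    rw [← Matrix.map_mul, Matrix.nonsing_inv_mul _ (isUnit_iff_ne_zero.2 hQ),
      Matrix.map_one _ (map_zero _) (map_one _)]
  have hΩL : (fun w : Fin 2 → ι => (Q.map (algebraMap K L))⁻¹ (w 0) (w 1)) ∈ (exT L T).S 2 := by
    rw [hinv]
    exact bc_mem hΩ
  have hstL : ∀ A : Matrix ι ι L, (∀ m ≤ M, ∀ s ∈ (exT L T).S m, aop A s = 0) →
      Lie (exT L T).S A := by
    intro A hA
    have h1 : ∀ l : L →ₗ[K] K, Lie T.S (Matrix.of fun i j => l (A i j)) := by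
      intro l
      apply hst
      intro m hm s hs
      funext I
      rw [← aop_form, hA m hm _ (bc_mem hs), Pi.zero_apply, map_zero]
      rfl
    intro m s hs
    rw [exT_S] at hs
    induction hs using Submodule.span_induction with
    | mem x hx =>
      obtain ⟨t, ht, rfl⟩ := hx
      funext I
      apply eq_zero_of_forms (K := K)
      intro l
      rw [aop_form, h1 l m t ht]
      rfl
    | zero => exact aop_zeroL A
    | add x y _ _ hx hy => rw [aop_addL, hx, hy, add_zero]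
    | smul c x _ hx => rw [aop_smulL, hx, smul_zero]
  have h1 := index_closed (exT L T) hQL hΩL hM hstL n (bcS L C') (Lk_bc T hC') (by
    intro v hv hvw
    funext a
    apply eq_zero_of_forms (K := K)
    intro l
    have h2 : (fun a => l (v a)) = 0 := by
      refine hnd _ (lam_mem l hv) fun w hw => ?_
      rw [← bf_form, hvw _ (bc_mem hw), map_zero]
    exact congrFun h2 a)
  rw [finrank_bcS, exT_S, finrank_bcS] at h1
  exact h1

end descent

end Pool.Agent.Q60.FI
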