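import Pool.Agent.Q60.NP.Gen5

/-!
# The degree of a field extension generated by polynomials

Let `f` be a family of `M` polynomials in `M` variables, the degree of `f i` being at most `w i`, and
let `b 1, …, b s` be polynomials which are linearly independent over the ring generated by the
family `f`. Then `s` is at most the product of the numbers `w i`.
-/

set_option linter.unusedSectionVars false

namespace Pool.Agent.Q60.FI

open MvPolynomial Module Filter Topology

section Count

variable {σ : Type} [Fintype σ] [DecidableEq σ]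

/-- The multi-indices of weight at most `t`. -/
def ms (w : σ → ℕ) (t : ℕ) : Finset (σ → ℕ) :=
  (Fintype.piFinset fun _ : σ => Finset.range (t + 1)).filter fun m => ∑ i, w i * m i ≤ t

lemma mem_ms {w : σ → ℕ} (hw : ∀ i, 1 ≤ w i) {t : ℕ} {m : σ → ℕ} :
    m ∈ ms w t ↔ ∑ i, w i * m i ≤ t := by
  rw [ms, Finset.mem_filter, Fintype.mem_piFinset]
  constructor
  · exact fun h => h.2
  · intro h
    refine ⟨fun i => ?_, h⟩
    rw [Finset.mem_range]
    have h1 : w i * m i ≤ ∑ i, w i * m i :=
      Finset.single_le_sum (f := fun i => w i * m i) (fun _ _ => Nat.zero_le _)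
        (Finset.mem_univ i)
    have h2 : m i ≤ w i * m i := Nat.le_mul_of_pos_left _ (hw i)
    omega

lemma card_ms_le (w : σ → ℕ) (t : ℕ) : (ms w t).card ≤ (t + 1) ^ Fintype.card σ := by
  refine (Finset.card_filter_le _ _).trans ?_
  rw [Fintype.card_piFinset]
  simp

lemma card_ms_pos (w : σ → ℕ) (t : ℕ) : 0 < (ms w t).card := by
  rw [Finset.card_pos]
  refine ⟨0, ?_⟩
  rw [ms, Finset.mem_filter, Fintype.mem_piFinset]
  simp

lemma card_ms_one (w : σ → ℕ) (hw : ∀ i, 1 ≤ w i) (t : ℕ) :
    (ms (fun _ : σ => 1) t).card ≤ (∏ i, w i) * (ms w t).card := by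
  have h1 : (∏ i, w i) * (ms w t).card =
      ((Fintype.piFinset fun i : σ => Finset.range (w i)) ×ˢ ms w t).card := by
    rw [Finset.card_product, Fintype.card_piFinset]
    simp
  rw [h1]
  refine Finset.card_le_card_of_injOn (fun m => (fun i => m i % w i, fun i => m i / w i)) ?_ ?_
  · intro m hm
    rw [Finset.mem_coe, mem_ms (fun _ => le_rfl)] at hm
    rw [Finset.mem_coe, Finset.mem_product, Fintype.mem_piFinset, mem_ms hw]
    refine ⟨fun i => Finset.mem_range.2 (Nat.mod_lt _ (hw i)), ?_⟩
    refine le_trans (Finset.sum_le_sum fun i _ => ?_) hm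
    rw [one_mul]
    exact Nat.mul_div_le _ _
  · intro m _ m' _ h
    obtain ⟨h2, h3⟩ := Prod.mk.inj h
    funext i
    rw [← Nat.div_add_mod (m i) (w i), ← Nat.div_add_mod (m' i) (w i), congrFun h2 i,
      congrFun h3 i]

/-- A sequence of polynomial growth does not grow by a factor at each step. -/
lemma le_of_growth {c e : ℕ} {N : ℕ → ℕ} (hN : ∀ t, N t ≤ (t + 1) ^ e) (hN0 : 0 < N 0) {s K : ℕ}
    (h : ∀ t, s * N t ≤ K * N (t + c)) : s ≤ K := by
  by_contra hcon
  push Not at hcon
  rcases Nat.eq_zero_or_pos K with hK | hK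
  · subst hK
    have h1 := h 0
    rw [zero_mul, Nat.le_zero] at h1
    rcases Nat.mul_eq_zero.1 h1 with h2 | h2 <;> omega
  have hK' : (0 : ℝ) < K := by exact_mod_cast hK
  set a : ℝ := s / K with ha
  have ha1 : 1 < a := by
    rw [ha, lt_div_iff₀ hK', one_mul]
    exact_mod_cast hcon
  have h1 : ∀ k : ℕ, a ^ k ≤ N (k * c) := by
    intro k
    induction k with
    | zero =>
      rw [pow_zero, zero_mul]
      exact_mod_cast hN0
    | succ k ih =>
      have h2 : (s : ℝ) * N (k * c) ≤ K * N (k * c + c) := by exact_mod_cast h (k * c)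
      have h3 : a * N (k * c) ≤ N (k * c + c) := by
        rw [ha, div_mul_eq_mul_div, div_le_iff₀ hK']
        linarith
      rw [pow_succ, mul_comm, Nat.succ_mul]
      exact (mul_le_mul_of_nonneg_left ih (by positivity)).trans h3
  have h2 : ∀ k : ℕ, a ^ k ≤ ((c + 1 : ℕ) : ℝ) ^ e * ((k + 1 : ℕ) : ℝ) ^ e := by
    intro k
    refine (h1 k).trans ?_
    have h3 : N (k * c) ≤ (c + 1) ^ e * (k + 1) ^ e := by
      refine (hN _).trans ?_
      rw [← mul_pow]
      refine Nat.pow_le_pow_left ?_ e
      nlinarith
    exact_mod_cast h3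
  have h3 := tendsto_pow_const_div_const_pow_of_one_lt e ha1
  have h4 : Tendsto (fun k : ℕ => ((k + 1 : ℕ) : ℝ) ^ e / a ^ (k + 1)) atTop (𝓝 0) :=
    (tendsto_add_atTop_iff_nat 1).2 h3
  have h5 : ∀ k : ℕ, 1 / (((c + 1 : ℕ) : ℝ) ^ e * a) ≤ ((k + 1 : ℕ) : ℝ) ^ e / a ^ (k + 1) := by
    intro k
    have ha0 : 0 < a := by linarith
    rw [div_le_div_iff₀ (by positivity) (by positivity), one_mul, pow_succ]
    calc a ^ k * a ≤ (((c + 1 : ℕ) : ℝ) ^ e * ((k + 1 : ℕ) : ℝ) ^ e) * a :=
          mul_le_mul_of_nonneg_right (h2 k) ha0.le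
      _ = _ := by ring
  have h6 : 1 / (((c + 1 : ℕ) : ℝ) ^ e * a) ≤ 0 := ge_of_tendsto' h4 h5
  have h7 : 0 < 1 / (((c + 1 : ℕ) : ℝ) ^ e * a) := by
    have ha0 : 0 < a := by linarith
    positivity
  linarith

variable {L : Type} [Field L]

/-- **The degree bound.** -/
theorem card_le_prod (f : σ → MvPolynomial σ L) (w : σ → ℕ) (hw : ∀ i, 1 ≤ w i)
    (hf : ∀ i, (f i).totalDegree ≤ w i) {s : ℕ} (b : Fin s → MvPolynomial σ L)
    (hind : ∀ F : Fin s → MvPolynomial σ L, ∑ i, aeval f (F i) * b i = 0 → F = 0) :
    s ≤ ∏ i, w i := by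
  classical
  set δ : ℕ := Finset.univ.sup fun i => (b i).totalDegree with hδ
  have hδb : ∀ i, (b i).totalDegree ≤ δ := fun i =>
    Finset.le_sup (f := fun i => (b i).totalDegree) (Finset.mem_univ i)
  refine le_of_growth (N := fun t => (ms (fun _ : σ => 1) t).card) (c := δ)
    (card_ms_le _) (card_ms_pos _ 0) fun t => ?_
  have h1 : s * (ms w t).card ≤ (ms (fun _ : σ => 1) (t + δ)).card := by
    let toF : (σ → ℕ) ≃ (σ →₀ ℕ) := Finsupp.equivFunOnFinite.symm
    let v : Fin s × {m // m ∈ ms w t} → MvPolynomial σ L := fun p =>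
      aeval f (monomial (toF p.2.1) (1 : L)) * b p.1
    let U : Finset (MvPolynomial σ L) :=
      (ms (fun _ : σ => 1) (t + δ)).image fun m => monomial (toF m) (1 : L)
    have hU : U.card ≤ (ms (fun _ : σ => 1) (t + δ)).card := Finset.card_image_le
    have hv : LinearIndependent L v := by
      rw [Fintype.linearIndependent_iff]
      intro c hc p
      have h2 := hind (fun i => ∑ m : {m // m ∈ ms w t}, c (i, m) • monomial (toF m.1) (1 : L)) ?_
      · have h3 := congrArg (coeff (toF p.2.1)) (congrFun h2 p.1)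
        rw [coeff_sum, Pi.zero_apply, coeff_zero, Finset.sum_eq_single p.2] at h3
        · rw [coeff_smul, coeff_monomial, if_pos rfl, smul_eq_mul, mul_one] at h3
          exact h3
        · intro m _ hm
          rw [coeff_smul, coeff_monomial, if_neg, smul_zero]
          intro h
          exact hm (Subtype.ext (toF.injective h))
        · intro h; exact absurd (Finset.mem_univ _) h
      · rw [← hc, Fintype.sum_prod_type]
        refine Finset.sum_congr rfl fun i _ => ?_
        rw [map_sum, Finset.sum_mul]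
        refine Finset.sum_congr rfl fun m _ => ?_
        rw [map_smul, smul_mul_assoc]
    have hmem : ∀ p, v p ∈ Submodule.span L (U : Set (MvPolynomial σ L)) := by
      intro p
      have hdeg : (v p).totalDegree ≤ t + δ := by
        refine (totalDegree_mul _ _).trans (add_le_add ?_ (hδb _))
        rw [aeval_monomial, map_one, one_mul, Finsupp.prod]
        refine (totalDegree_finsetProd _ _).trans ?_
        have h2 := (mem_ms hw).1 p.2.2
        refine le_trans ?_ h2
        have h3 : ∑ i ∈ (toF p.2.1).support, (f i ^ (toF p.2.1) i).totalDegree ≤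
            ∑ i ∈ (toF p.2.1).support, w i * p.2.1 i := by
          refine Finset.sum_le_sum fun i _ => ?_
          refine (totalDegree_pow _ _).trans ?_
          rw [mul_comm]
          exact Nat.mul_le_mul_right _ (hf i)
        refine h3.trans ?_
        exact Finset.sum_le_sum_of_subset (Finset.subset_univ _)
      rw [(v p).as_sum]
      refine Submodule.sum_mem _ fun m hm => ?_
      have h4 : monomial m (coeff m (v p)) = coeff m (v p) • monomial m (1 : L) := by
        rw [smul_monomial, smul_eq_mul, mul_one]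
      rw [h4]
      refine Submodule.smul_mem _ _ (Submodule.subset_span ?_)
      rw [Finset.mem_coe, Finset.mem_image]
      refine ⟨m, ?_, ?_⟩
      · rw [mem_ms (fun _ => le_rfl)]
        simp only [one_mul]
        have h5 := (le_totalDegree hm).trans hdeg
        rw [Finsupp.sum_fintype _ _ fun _ => rfl] at h5
        exact h5
      · have h6 : toF (fun i => m i) = m := toF.apply_symm_apply m
        change monomial (toF fun i => m i) (1 : L) = monomial m 1
        rw [h6]
    have h2 : Fintype.card (Fin s × {m // m ∈ ms w t}) ≤ U.card := by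
      let v' : Fin s × {m // m ∈ ms w t} → Submodule.span L (U : Set (MvPolynomial σ L)) :=
        fun p => ⟨v p, hmem p⟩
      have hv' : LinearIndependent L v' := by
        apply LinearIndependent.of_comp (Submodule.span L (U : Set (MvPolynomial σ L))).subtype
        exact hv
      exact hv'.fintype_card_le_finrank.trans (finrank_span_finset_le_card U)
    rw [Fintype.card_prod, Fintype.card_fin, Fintype.card_coe] at h2
    exact h2.trans hU
  calc s * (ms (fun _ : σ => 1) t).card ≤ s * ((∏ i, w i) * (ms w t).card) :=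
        Nat.mul_le_mul_left _ (card_ms_one w hw t)
    _ = (∏ i, w i) * (s * (ms w t).card) := by ring
    _ ≤ _ := Nat.mul_le_mul_left _ h1

end Count

end Pool.Agent.Q60.FI
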