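import Pool.Agent.Q60.FI.Loc

/-!
# The finite index theorem over an algebraically closed field

Let `T` be a system of tensors with projections. The dimension of a nondegenerate space of tensors of
degree `n` which are annihilated by the infinitesimal stabiliser of `T` is at most a constant times
the dimension of the space of the tensors of the system of degree `n + m`, where `m` does not depend
on `n`.
-/

set_option linter.unusedSectionVars false

namespace Pool.Agent.Q60.FI

open MvPolynomial Algebra Module Pool.Agent.Q60.ED Pool.Agent.Q60.NP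

variable {K : Type} [Field K] {ι : Type} [Fintype ι] [DecidableEq ι]

lemma lam_xt (T : TSys K ι) {n : ℕ} (v : (Fin n → ι) → K) (I : Fin n → ι) :
    T.lam (xt v I) = T.p n v I := by
  rw [xt, map_sum]
  have h3 : ∀ J, T.lam (C (v J) * mon I J) = v J * T.p n (Pi.single J 1) I := by
    intro J
    rw [← smul_eq_C_mul, map_smul, TSys.lam_mon, smul_eq_mul]
  simp only [h3]
  conv_rhs => rw [← TSys.sum_single v, map_sum, Finset.sum_apply]
  refine Finset.sum_congr rfl fun J _ => ?_
  rw [map_smul, Pi.smul_apply, smul_eq_mul]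

/-- The form is invariant under the stabiliser. -/
lemma fix_form {S : ∀ n : ℕ, Submodule K ((Fin n → ι) → K)} {Q : Matrix ι ι K} (hQ : Q.det ≠ 0)
    (hΩ : (fun w : Fin 2 → ι => Q⁻¹ (w 0) (w 1)) ∈ S 2) {g : Matrix ι ι K} (hg : Fix S g) :
    g.transpose * Q * g = Q := by
  have h1 := tpow_two g (fun w : Fin 2 → ι => Q⁻¹ (w 0) (w 1))
  rw [hg 2 _ hΩ] at h1
  have hm : mat2 (fun w : Fin 2 → ι => Q⁻¹ (w 0) (w 1)) = Q⁻¹ := by
    ext i j
    rfl
  rw [hm] at h1
  have hu : IsUnit Q.det := isUnit_iff_ne_zero.2 hQ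
  have h2 : g * (Q⁻¹ * g.transpose * Q) = 1 := by
    rw [← Matrix.mul_assoc, ← Matrix.mul_assoc, ← h1, Matrix.nonsing_inv_mul _ hu]
  have h3 : (Q⁻¹ * g.transpose * Q) * g = 1 := mul_eq_one_comm.1 h2
  calc g.transpose * Q * g = Q * ((Q⁻¹ * g.transpose * Q) * g) := by
        simp only [← Matrix.mul_assoc]
        rw [Matrix.mul_nonsing_inv _ hu, Matrix.one_mul]
    _ = Q := by rw [h3, Matrix.mul_one]

/-- The bilinear map `(x, y) ↦ p (x ⊗ y)`. -/
noncomputable def pmap (T : TSys K ι) (n m : ℕ) (A : Submodule K ((Fin n → ι) → K))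
    (B : Submodule K ((Fin m → ι) → K)) : A →ₗ[K] (B →ₗ[K] T.S (n + m)) where
  toFun x :=
    { toFun := fun y => ⟨T.p (n + m) (tmul x.1 y.1), T.p_mem _ _⟩
      map_add' := fun y y' => by
        apply Subtype.ext
        change T.p (n + m) (tmul x.1 (y.1 + y'.1)) = T.p (n + m) (tmul x.1 y.1) +
          T.p (n + m) (tmul x.1 y'.1)
        rw [← map_add]
        congr 1
        funext I
        simp only [tmul, Pi.add_apply, mul_add]
      map_smul' := fun c y => by
        apply Subtype.ext
        change T.p (n + m) (tmul x.1 (c • y.1)) = c • T.p (n + m) (tmul x.1 y.1)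
        rw [← map_smul]
        congr 1
        funext I
        simp only [tmul, Pi.smul_apply, smul_eq_mul]
        ring }
  map_add' x x' := by
    apply LinearMap.ext
    intro y
    apply Subtype.ext
    change T.p (n + m) (tmul (x.1 + x'.1) y.1) = T.p (n + m) (tmul x.1 y.1) +
      T.p (n + m) (tmul x'.1 y.1)
    rw [← map_add]
    congr 1
    funext I
    simp only [tmul, Pi.add_apply, add_mul]
  map_smul' c x := by
    apply LinearMap.ext
    intro y
    apply Subtype.ext
    change T.p (n + m) (tmul (c • x.1) y.1) = c • T.p (n + m) (tmul x.1 y.1)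
    rw [← map_smul]
    congr 1
    funext I
    simp only [tmul, Pi.smul_apply, smul_eq_mul]
    ring

/-- **The finite index theorem.** -/
theorem finite_index_closed [IsAlgClosed K] [CharZero K] (T : TSys K ι) {Q : Matrix ι ι K}
    (hQ : Q.det ≠ 0) (hΩ : (fun w : Fin 2 → ι => Q⁻¹ (w 0) (w 1)) ∈ T.S 2)
    {u : (Fin 1 → ι) → K} (hu : u ∈ T.S 1) (hu0 : u ≠ 0) :
    ∃ m D : ℕ, ∀ (n : ℕ) (C' : Submodule K ((Fin n → ι) → K)), C' ≤ Lk T.S n →
      (∀ v ∈ C', (∀ w ∈ C', bf (TP Q n) v w = 0) → v = 0) →
        finrank K C' ≤ D * finrank K (T.S (n + m)) := by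
  have hdet : (mat2 (fun w : Fin 2 → ι => Q⁻¹ (w 0) (w 1))).det ≠ 0 := by
    have hm : mat2 (fun w : Fin 2 → ι => Q⁻¹ (w 0) (w 1)) = Q⁻¹ := by
      ext i j
      rfl
    rw [hm]
    exact (Matrix.isUnit_nonsing_inv_det _ (isUnit_iff_ne_zero.2 hQ)).ne_zero
  obtain ⟨m, hm⟩ := exists_degree hΩ hdet hu hu0
  refine ⟨m, finrank K (Lk T.S m), fun n C' hC' hnd => ?_⟩
  have hinj : Function.Injective (pmap T n m C' (Lk T.S m)) := by
    rw [injective_iff_map_eq_zero]
    intro x hx
    apply Subtype.ext
    refine hnd x.1 x.2 fun w hw => ?_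
    have h0 : ∀ y ∈ Lk T.S m, T.p (n + m) (tmul x.1 y) = 0 := by
      intro y hy
      have h1 := LinearMap.congr_fun hx ⟨y, hy⟩
      exact congrArg Subtype.val h1
    -- the functional vanishes on the products
    have h1 : ∀ I, ∀ b ∈ ALn T.S m, T.lam (xt x.1 I * b) = 0 := by
      intro I b hb
      induction hb using Submodule.span_induction with
      | mem b hb =>
        obtain ⟨y, J, hy, rfl⟩ := hb
        rw [xt_mul, lam_xt, h0 y hy, Pi.zero_apply]
      | zero => rw [mul_zero, map_zero]
      | add a b _ _ ha hb => rw [mul_add, map_add, ha, hb, add_zero]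
      | smul c b _ hb => rw [mul_smul_comm, map_smul, hb, smul_zero]
    have h2 : ∀ I J, T.lam (xt x.1 I * xt w J) = 0 := by
      intro I J
      obtain ⟨b', hb', h3⟩ := hm n (xt w J) (Submodule.subset_span ⟨w, J, hC' hw, rfl⟩)
      have h4 := T.lam_IS (Ideal.mul_mem_left _ (xt x.1 I) h3)
      rw [mul_sub, map_sub, h1 I b' hb', sub_zero] at h4
      exact h4
    set c := bf (TP Q n) x.1 w with hc
    have h5 : (∑ I, ∑ J, C (TP Q n I J) * (xt x.1 I * xt w J)) - C c ∈ IS T.S := by
      refine mem_IS_of_vanish hΩ hdet ?_ ?_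
      · refine Submodule.sub_mem _ (Submodule.sum_mem _ fun I _ => Submodule.sum_mem _ fun J _ => ?_)
          ?_
        · rw [← smul_eq_C_mul, xt_mul]
          exact Submodule.smul_mem _ _ (xt_mem_AL (Lk_tmul (hC' x.2) (hC' hw)) _)
        · have e1 : (C c : MvPolynomial (ι × ι) K) = c • xt (fun _ : Fin 0 → ι => (1 : K))
              Fin.elim0 := by
            rw [xt, Fintype.sum_unique, mon, Finset.univ_eq_empty, Finset.prod_empty, mul_one,
              C_1, smul_eq_C_mul, mul_one]
          rw [e1]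
          exact Submodule.smul_mem _ _ (xt_mem_AL (le_Lk 0 T.one) _)
      · intro g hg
        have hgf := fix_form hQ hΩ hg
        rw [map_sub, map_sum, evM_C, sub_eq_zero, hc, ← bf_tpowK hgf n, bf]
        refine Finset.sum_congr rfl fun I _ => ?_
        rw [map_sum]
        refine Finset.sum_congr rfl fun J _ => ?_
        rw [map_mul, map_mul, evM_C, evM_xt, evM_xt]
        ring
    have h6 := T.lam_IS h5
    rw [map_sub, map_sum] at h6
    have h7 : ∀ I, T.lam (∑ J, C (TP Q n I J) * (xt x.1 I * xt w J)) = 0 := by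
      intro I
      rw [map_sum]
      refine Finset.sum_eq_zero fun J _ => ?_
      rw [← smul_eq_C_mul, map_smul, h2, smul_zero]
    have h8 : T.lam (C c) = c := by
      have e1 : (C c : MvPolynomial (ι × ι) K) = c • 1 := by rw [smul_eq_C_mul, mul_one]
      rw [e1, map_smul, TSys.lam_one, smul_eq_mul, mul_one]
    rw [Finset.sum_eq_zero fun I _ => h7 I, h8, zero_sub, neg_eq_zero] at h6
    exact h6
  have h9 := LinearMap.finrank_le_finrank_of_injective hinj
  rw [Module.finrank_linearMap] at h9
  exact h9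

end Pool.Agent.Q60.FI
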