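import Pool.Agent.Q60.HDS.Defs

/-!
# Varieties without complex multiplication in the centre: definitions
-/

open CategoryTheory AlgebraicGeometry

universe u

namespace Pool.Agent.Q60.FI

open Pool.Agent.H914 Pool.Agent.H914.VarClass Pool.Agent.H914.VarClass.Obj
  Pool.Agent.H914.WeilCohomology
open Pool.Agent.Y121.AHS

variable {k : Type u} [Field k] {𝒱 : VarClass k} {ops : CycleOps 𝒱}

/-- The endomorphisms of `H(X)` which are linear combinations of the operators
`x ↦ pr₂_* (c · pr₁^* x)` given by Hodge classes `c` on `X × X`. -/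
def HodgeCorr (T : HodgeTheory ops) (X : 𝒱.Obj) : Submodule T.W.K (Module.End T.W.K (T.W.H X)) :=
  Submodule.span T.W.K {F | ∃ j c, IsHodge T (X.prod X) j c ∧ F = T.W.corr c}

/-- The algebra of the endomorphisms given by Hodge classes on `X × X` has no nonzero central
element `F` which is skew for the pairing, `tr (F x · y) = - tr (x · F y)`. This means that its
centre is a product of totally real fields. -/
def NoCMCentre (T : HodgeTheory ops) (X : 𝒱.Obj) : Prop :=
  ∀ F ∈ HodgeCorr T X, (∀ G ∈ HodgeCorr T X, F * G = G * F) →
    (∀ x y, T.W.tr X (F x * y) = - T.W.tr X (x * F y)) → F = 0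

end Pool.Agent.Q60.FI
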