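import Pool.Agent.Q60.FI.HdgM
import Pool.Agent.Q60.FI.HDefs
import Pool.Agent.Q60.HDS.Main
import Pool.Agent.Q60.HI.Index

/-!
# The Hodge conjecture for the fourth power and the index on all powers
-/

open CategoryTheory AlgebraicGeometry TensorProduct Filter Topology

open scoped ENNReal

universe u

namespace Pool.Agent.Q60.FI

open Module
open Pool.Agent.H914 Pool.Agent.H914.VarClass Pool.Agent.H914.VarClass.Obj
  Pool.Agent.H914.WeilCohomology
open Pool.Agent.Y121 Pool.Agent.Y121.AHS Pool.Agent.Y133.Half Pool.Agent.Q60.HDS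

variable {k : Type u} [Field k] {𝒱 : VarClass k} {ops : CycleOps 𝒱}

variable {T : PolHodgeTheory ops} {X : 𝒱.Obj}

lemma Op_le_HodgeCorr {F : Module.End T.W.K (T.W.H X)}
    (hF : F ∈ (AH.hodgeSys (tH T)).Op X X) : F ∈ HodgeCorr T.toHodgeTheory X := by
  obtain ⟨c, hc, rfl⟩ := (Sys.mem_Op (S := AH.hodgeSys (tH T))).1 hF
  refine ClassPred.sp_ind (Q := AH.hodgePred (tH T))
    (q := fun c => T.W.corr c ∈ HodgeCorr T.toHodgeTheory X) ?_ ?_ ?_ hc
  · intro j x hx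
    exact Submodule.subset_span ⟨j, x, hx, rfl⟩
  · have h1 : T.W.corr (0 : T.W.H (X.prod X)) ∈ HodgeCorr T.toHodgeTheory X := by
      have h2 : T.W.corr (0 : T.W.H (X.prod X)) = 0 := (corrL T.W X X).map_zero
      rw [h2]
      exact Submodule.zero_mem _
    exact h1
  · have h1 : ∀ a b : T.W.H (X.prod X), T.W.corr a ∈ HodgeCorr T.toHodgeTheory X →
        T.W.corr b ∈ HodgeCorr T.toHodgeTheory X →
        T.W.corr (a + b) ∈ HodgeCorr T.toHodgeTheory X := by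
      intro a b ha hb
      rw [T.W.corr_add]
      exact Submodule.add_mem _ ha hb
    exact h1

lemma HodgeCorr_le_Op {F : Module.End T.W.K (T.W.H X)}
    (hF : F ∈ HodgeCorr T.toHodgeTheory X) : F ∈ (AH.hodgeSys (tH T)).Op X X := by
  induction hF using Submodule.span_induction with
  | mem F hF =>
    obtain ⟨j, c, hc, rfl⟩ := hF
    exact (Sys.mem_Op (S := AH.hodgeSys (tH T))).2
      ⟨c, ClassPred.sp_of (Q := AH.hodgePred (tH T)) hc, rfl⟩
  | zero => exact Submodule.zero_mem _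
  | add a b _ _ ha hb => exact Submodule.add_mem _ ha hb
  | smul c a _ ha => exact Submodule.smul_mem _ c ha

lemma noSkew (h : NoCMCentre T.toHodgeTheory X) : NoSkew (tH T) X := by
  intro F hF hcom hsk
  exact h F (Op_le_HodgeCorr hF) (fun G hG => hcom G (HodgeCorr_le_Op hG)) hsk

lemma sys_le_iso {S S' : Sys T.W} {Y Z : 𝒱.Obj} (θ : Y ≅ Z) (h : S.C Y ≤ S'.C Y) :
    S.C Z ≤ S'.C Z := by
  intro c hc
  have h1 := S'.map θ.inv (h (S.map θ.hom hc))
  rw [← T.W.map_comp, θ.inv_hom_id, T.W.map_id] at h1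
  exact h1

lemma le_pw (h4 : HodgeConjectureFor T.toHodgeTheory (Pool.Agent.Y129.pw X 3)) :
    (AH.hodgeSys (tH T)).C (pw X 3) ≤ (algSys T.W).C (pw X 3) :=
  sys_le_iso (S := AH.hodgeSys (tH T)) (S' := algSys T.W) (pwIso129 X 3) (hodge_le_iff.2 h4)

lemma bound_gen (U : AH.HodgeTheory ops) (hR : HD.RealH U X) {φ : Module.End U.W.K (U.W.H X)}
    (hφ : HD.IsPol U X φ) [Nontrivial (U.W.H X)]
    (h1 : (AH.hodgeSys U).C (pw X 3) ≤ (algSys U.W).C (pw X 3)) (hc : NoSkew U X) :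
    (∀ n, (algSys U.W).Num (pw X n) = ⊥) ∧
      ∀ n, finrank U.W.K ((AH.hodgeSys U).C (pw X (2 * n + 1))) ≤
        4 ^ (finrank U.W.K (U.W.H X) ^ 2) *
          finrank U.W.K ((algSys U.W).C (pw X (2 * n + 1))) :=
  sys_bound hR hφ (algSys U.W) (fun Z => ClassPred.alg_le (Q := AH.hodgePred U))
    (fun n hn => HD.le_of_le (algSys U.W) (by omega) h1) hc

lemma bound_aux [Nontrivial (T.W.H X)] (hc : NoCMCentre T.toHodgeTheory X)
    (h4 : HodgeConjectureFor T.toHodgeTheory (Pool.Agent.Y129.pw X 3)) :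
    (∀ n, (algSys T.W).Num (pw X n) = ⊥) ∧
      ∀ n, finrank (tH T).W.K ((AH.hodgeSys (tH T)).C (pw X (2 * n + 1))) ≤
        4 ^ (finrank (tH T).W.K ((tH T).W.H X) ^ 2) *
          finrank (tH T).W.K ((algSys (tH T).W).C (pw X (2 * n + 1))) := by
  obtain ⟨φ, hφ⟩ := exists_isPol T X
  have hnt : Nontrivial ((tH T).W.H X) := ‹Nontrivial (T.W.H X)›
  have h1 : (AH.hodgeSys (tH T)).C (pw X 3) ≤ (algSys (tH T).W).C (pw X 3) := le_pw h4
  exact bound_gen (tH T) (realH T X) hφ h1 (noSkew hc)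

lemma hodgeDim_pw (n : ℕ) : hodgeDim T.toHodgeTheory (Pool.Agent.Y129.pw X n) =
    finrank (tH T).W.K ((AH.hodgeSys (tH T)).C (pw X n)) :=
  ClassPred.dim_pw (AH.hodgePred (tH T)) X n

lemma cycRank_pw' {W : WeilCohomology.{u, 0} ops} {X : 𝒱.Obj} {n : ℕ}
    (h : (algSys W).Num (pw X n) = ⊥) :
    cycRank ops (Pool.Agent.Y129.pw X n) = finrank W.K ((algSys W).C (pw X n)) := by
  rw [cycRank_iso W (pwIso129 X n), ← numDim_eq_cycRank W]
  have e3 := (algSys W).a_add_num (pw X n)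
  rw [h, finrank_bot, add_zero] at e3
  exact e3

lemma cycRank_pw {n : ℕ} (h : (algSys T.W).Num (pw X n) = ⊥) :
    cycRank ops (Pool.Agent.Y129.pw X n) = finrank T.W.K ((algSys T.W).C (pw X n)) := by
  rw [cycRank_iso T.W (pwIso129 X n), ← numDim_eq_cycRank T.W]
  have e3 := (algSys T.W).a_add_num (pw X n)
  rw [h, finrank_bot, add_zero] at e3
  exact e3

/-- Numerical and homological equivalence and the bound for the dimensions. -/
theorem bound_pw [Nontrivial (T.W.H X)] (hc : NoCMCentre T.toHodgeTheory X)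
    (h4 : HodgeConjectureFor T.toHodgeTheory (Pool.Agent.Y129.pw X 3)) :
    (∀ n, HomEqNum T.W (Pool.Agent.Y129.pw X n)) ∧
      ∀ n, hodgeDim T.toHodgeTheory (Pool.Agent.Y129.pw X (2 * n + 1)) ≤
        4 ^ (totalBetti T.toHodgeTheory X ^ 2) * cycRank ops (Pool.Agent.Y129.pw X (2 * n + 1)) := by
  obtain ⟨h2, h3⟩ := bound_aux hc h4
  refine ⟨fun n => ?_, fun n => ?_⟩
  · rw [homEqNum_iso (pwIso129 X n), homEqNum_iff]
    exact h2 n
  · rw [hodgeDim_pw, cycRank_pw (h2 _)]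
    exact h3 n

/-- **The Hodge conjecture for the fourth power implies that the index is finite.** -/
theorem fourth_power (T : PolHodgeTheory ops) (X : 𝒱.Obj) [Nontrivial (T.W.H X)]
    (hc : NoCMCentre T.toHodgeTheory X)
    (h4 : HodgeConjectureFor T.toHodgeTheory (Pool.Agent.Y129.pw X 3)) :
    (∀ n, HomEqNum T.W (Pool.Agent.Y129.pw X n)) ∧
    ∃ N : ℕ, 1 ≤ N ∧ N ≤ 4 ^ (totalBetti T.toHodgeTheory X ^ 2) ∧
      Tendsto (fun n => (hodgeDim T.toHodgeTheory (Pool.Agent.Y129.pw X n) : ℝ≥0∞) /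
        cycRank ops (Pool.Agent.Y129.pw X n)) atTop (𝓝 (N : ℝ≥0∞)) ∧
      (∀ n, hodgeDim T.toHodgeTheory (Pool.Agent.Y129.pw X (2 * n + 1)) ≤
        N * cycRank ops (Pool.Agent.Y129.pw X (2 * n + 1))) ∧
      (N = 1 ↔ ∀ n, HodgeConjectureFor T.toHodgeTheory (Pool.Agent.Y129.pw X n)) ∧
      ∃ (r : ℕ) (c : Fin r → Σ m, T.W.H (Pool.Agent.Y129.pw X m)), r + 1 ≤ N ∧
        (∀ i, ∃ j, IsHodge T.toHodgeTheory (Pool.Agent.Y129.pw X (c i).1) j (c i).2) ∧
        ∀ n j z, IsHodge T.toHodgeTheory (Pool.Agent.Y129.pw X n) j z →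
          z ∈ Pool.Agent.Y129.genBy T.W X c n := by
  obtain ⟨hnum, hb⟩ := bound_pw hc h4
  refine ⟨hnum, ?_⟩
  obtain ⟨N, h1, h2, h3, h4', -, h6⟩ := HI.hodge_index T.toHodgeTheory X
  -- the index is bounded
  have hsub : Tendsto (fun n : ℕ => 2 * n + 1) atTop atTop :=
    tendsto_atTop_mono (fun n => by simp only [id]; omega) tendsto_id
  have hle : (N : ℝ≥0∞) ≤ ((4 ^ (totalBetti T.toHodgeTheory X ^ 2) : ℕ) : ℝ≥0∞) := by
    refine le_of_tendsto (h2.comp hsub) (Eventually.of_forall fun n => ?_)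
    change (hodgeDim T.toHodgeTheory (Pool.Agent.Y129.pw X (2 * n + 1)) : ℝ≥0∞) /
      cycRank ops (Pool.Agent.Y129.pw X (2 * n + 1)) ≤ _
    refine ENNReal.div_le_of_le_mul ?_
    exact_mod_cast hb n
  have hle' : N ≤ ((4 ^ (totalBetti T.toHodgeTheory X ^ 2) : ℕ) : ℕ∞) := by
    have h7 : ((4 ^ (totalBetti T.toHodgeTheory X ^ 2) : ℕ) : ℝ≥0∞) =
        (((4 ^ (totalBetti T.toHodgeTheory X ^ 2) : ℕ) : ℕ∞) : ℝ≥0∞) := by
      rw [ENat.toENNReal_coe]
    rw [h7, ENat.toENNReal_le] at hle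
    exact hle
  have htop : N ≠ ⊤ := fun h => by
    rw [h, top_le_iff] at hle'
    exact ENat.natCast_ne_top _ hle'
  obtain ⟨M, rfl⟩ := ENat.ne_top_iff_exists.1 htop
  have hM1 : 1 ≤ M := by exact_mod_cast h1
  obtain ⟨-, r, c, hr, hc1, hc2⟩ := h6 htop
  refine ⟨M, hM1, by exact_mod_cast hle', ?_, fun n => ?_, ?_, r, c, by exact_mod_cast hr, hc1,
    hc2⟩
  · rw [ENat.toENNReal_coe] at h2
    exact h2
  · have h8 := h3 n
    rw [ENat.toENNReal_coe] at h8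
    by_cases h0 : cycRank ops (Pool.Agent.Y129.pw X (2 * n + 1)) = 0
    · have h9 := hb n
      rw [h0, mul_zero] at h9 ⊢
      exact h9
    · rw [ENNReal.div_le_iff (by exact_mod_cast h0) (ENNReal.natCast_ne_top _)] at h8
      exact_mod_cast h8
  · have h9 : M = 1 ↔ (M : ℕ∞) = 1 := by
      constructor
      · rintro rfl; rfl
      · intro h; exact_mod_cast h
    rw [h9, h4']
    rfl

/-- If the Hodge conjecture holds for the fourth power, then the index is finite, with a bound. -/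
theorem index_le (T : PolHodgeTheory ops) (X : 𝒱.Obj) [Nontrivial (T.W.H X)]
    (hc : NoCMCentre T.toHodgeTheory X)
    (h4 : HodgeConjectureFor T.toHodgeTheory (Pool.Agent.Y129.pw X 3)) (N : ℕ∞)
    (hN : Tendsto (fun n => (hodgeDim T.toHodgeTheory (Pool.Agent.Y129.pw X n) : ℝ≥0∞) /
        cycRank ops (Pool.Agent.Y129.pw X n)) atTop (𝓝 (N : ℝ≥0∞))) :
    N ≤ 4 ^ (totalBetti T.toHodgeTheory X ^ 2) := by
  obtain ⟨-, M, -, hM, hM2, -⟩ := fourth_power T X hc h4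
  have h1 : (N : ℝ≥0∞) = ((M : ℕ∞) : ℝ≥0∞) := by
    rw [ENat.toENNReal_coe]
    exact tendsto_nhds_unique hN hM2
  have h2 : N = (M : ℕ∞) := ENat.toENNReal_inj.1 h1
  rw [h2]
  exact_mod_cast hM

/-- The index law, with the bound for the index which follows from the Hodge conjecture for the
fourth power. -/
theorem index_law (T : PolHodgeTheory ops) (X : 𝒱.Obj) [Nontrivial (T.W.H X)] :
    ∃ N : ℕ∞, 1 ≤ N ∧
      Tendsto (fun n => (hodgeDim T.toHodgeTheory (Pool.Agent.Y129.pw X n) : ℝ≥0∞) /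
        cycRank ops (Pool.Agent.Y129.pw X n)) atTop (𝓝 (N : ℝ≥0∞)) ∧
      (∀ n, (hodgeDim T.toHodgeTheory (Pool.Agent.Y129.pw X (2 * n + 1)) : ℝ≥0∞) /
        cycRank ops (Pool.Agent.Y129.pw X (2 * n + 1)) ≤ (N : ℝ≥0∞)) ∧
      (N = 1 ↔ ∀ n, HodgeConjectureFor T.toHodgeTheory (Pool.Agent.Y129.pw X n)) ∧
      (N ≠ 1 → AtMostHalf (fun n => algDim T.W (Pool.Agent.Y129.pw X n))
        (fun n => hodgeDim T.toHodgeTheory (Pool.Agent.Y129.pw X n))) ∧
      (N ≠ ⊤ → (∀ n, HomEqNum T.W (Pool.Agent.Y129.pw X n)) ∧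
        ∃ (r : ℕ) (c : Fin r → Σ m, T.W.H (Pool.Agent.Y129.pw X m)), (r : ℕ∞) + 1 ≤ N ∧
          (∀ i, ∃ j, IsHodge T.toHodgeTheory (Pool.Agent.Y129.pw X (c i).1) j (c i).2) ∧
          ∀ n j z, IsHodge T.toHodgeTheory (Pool.Agent.Y129.pw X n) j z →
            z ∈ Pool.Agent.Y129.genBy T.W X c n) ∧
      (NoCMCentre T.toHodgeTheory X →
        HodgeConjectureFor T.toHodgeTheory (Pool.Agent.Y129.pw X 3) →
        N ≤ 4 ^ (totalBetti T.toHodgeTheory X ^ 2)) := by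
  obtain ⟨N, h1, h2, h3, h4, h5, h6⟩ := HI.hodge_index T.toHodgeTheory X
  exact ⟨N, h1, h2, h3, h4, h5, h6, fun hc h4' => index_le T X hc h4' N h2⟩

end Pool.Agent.Q60.FI
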