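import Pool.Agent.Y121.AHS.Defs

/-!
# Polarisable Hodge structures and the centre of the algebra of the Hodge endomorphisms: definitions
-/

open CategoryTheory AlgebraicGeometry

universe u

namespace Pool.Agent.Q60.FI

open Pool.Agent.Y121.AHS

section Alg

/-- The element `a` is a linear combination of elements of `S`. -/
def InSpan (K : Type) {A : Type} [Field K] [Ring A] [Algebra K A] (S : Set A) (a : A) : Prop :=
  a ∈ Submodule.span K S

variable {K A C : Type} [Field K] [Ring A] [Algebra K A] [Ring C] [Algebra K C]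

/-- Let `p` and `s` be the pull-back and the push-forward for the projections of a product `X × X`
and let `S` be a set of classes on `X × X`. Every linear combination `c` of elements of `S` for
which the operator `x ↦ s (c · p x)` commutes with the operators given by the elements of `S` and is
skew for the pairing, `tr (c x · y) = - tr (x · c y)`, operates as zero. -/
def NoSkewCentre (p : A →ₐ[K] C) (s : C →ₗ[K] A) (tr : A →ₗ[K] K) (S : Set C) : Prop :=
  ∀ c, InSpan K S c → (∀ d ∈ S, ∀ x, s (c * p (s (d * p x))) = s (d * p (s (c * p x)))) →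
    (∀ x y, tr (s (c * p x) * y) = - tr (x * s (c * p y))) → ∀ x, s (c * p x) = 0

variable [Algebra K ℂ]

/-- `y` is the complex conjugate of `x`: we have `x = ∑ l i ⊗ c i` and `y = ∑ (conj l i) ⊗ c i`. -/
def ConjOf (x y : Ext K ℂ A) : Prop :=
  ∃ (m : ℕ) (l : Fin m → ℂ) (c : Fin m → A), x = ∑ i, extSm K ℂ (l i) (extEm K ℂ (c i)) ∧
    y = ∑ i, extSm K ℂ (starRingEnd ℂ (l i)) (extEm K ℂ (c i))

/-- The element `x` is of type `(p, q)`. -/
def HasType (pq : ℤ → ℤ → Submodule ℂ (Ext K ℂ A)) (p q : ℤ) (x : Ext K ℂ A) : Prop := x ∈ pq p q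

/-- The subspaces `pq p q` with nonzero elements have `0 ≤ p, q ≤ d`, and complex conjugation
exchanges `pq p q` and `pq q p`. -/
def IsRealDec (d : ℕ) (pq : ℤ → ℤ → Submodule ℂ (Ext K ℂ A)) : Prop :=
  (∀ p q x, HasType pq p q x → x ≠ 0 → 0 ≤ p ∧ p ≤ d ∧ 0 ≤ q ∧ q ≤ d) ∧
    ∀ p q x y, HasType pq p q x → ConjOf x y → HasType pq q p y

/-- The bilinear form `(x, y) ↦ tr (φ x · y)` with complex coefficients. -/
noncomputable def extPair (tr : A →ₗ[K] K) (φ : A →ₗ[K] A) (x y : Ext K ℂ A) : ℂ :=
  extForm K ℂ tr (extMul K ℂ (extMap K ℂ φ x) y)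

/-- The form `tr (φ x · y)` is a polarisation: it is zero on `H^(p,q) × H^(r,s)` unless
`(r,s) = (q,p)`, and for nonzero `x` in `H^(p,q)` with complex conjugate `y` its value at `(x, y)`,
multiplied by `i ^ (p - q)`, is a positive real number. -/
def IsPolForm (tr : A →ₗ[K] K) (φ : A →ₗ[K] A) (pq : ℤ → ℤ → Submodule ℂ (Ext K ℂ A)) : Prop :=
  (∀ p q r s x y, HasType pq p q x → HasType pq r s y → (r, s) ≠ (q, p) →
      extPair tr φ x y = 0) ∧
    ∀ p q x y, HasType pq p q x → ConjOf x y → x ≠ 0 →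
      ∃ t : ℝ, 0 < t ∧ Complex.I ^ (p - q) * extPair tr φ x y = (t : ℂ)

/-- The decomposition `pq` is a polarisable Hodge decomposition. -/
def IsPolDec (d : ℕ) (tr : A →ₗ[K] K) (pq : ℤ → ℤ → Submodule ℂ (Ext K ℂ A)) : Prop :=
  IsRealDec d pq ∧ ∃ φ : A →ₗ[K] A, IsPolForm tr φ pq

end Alg

open Pool.Agent.H914 Pool.Agent.H914.VarClass Pool.Agent.H914.VarClass.Obj
  Pool.Agent.H914.WeilCohomology

variable {k : Type u} [Field k] {𝒱 : VarClass k} {ops : CycleOps 𝒱}

/-- The cohomology of `X` is a polarisable Hodge structure. -/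
def Polarisable (T : HodgeTheory ops) (X : 𝒱.Obj) : Prop :=
  IsPolDec X.dim (T.W.tr X) (T.pq X)

/-- The Hodge classes of all degrees on `X`. -/
def hodgeSet (T : HodgeTheory ops) (X : 𝒱.Obj) : Set (T.W.H X) := {c | ∃ j, IsHodge T X j c}

/-- The centre of the algebra of the endomorphisms of `H(X)` given by Hodge classes on `X × X` has
no nonzero skew elements. This means that it is a product of totally real fields. -/
def TotallyRealCentre (T : HodgeTheory ops) (X : 𝒱.Obj) : Prop :=
  NoSkewCentre (T.W.map (fst X X)) (T.W.push (snd X X)) (T.W.tr X) (hodgeSet T (X.prod X))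

end Pool.Agent.Q60.FI
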