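import Pool.Agent.Q60.NP.PAut

/-!
# Tensors annihilated by the infinitesimal stabiliser of a system of tensors

Let `S` be a system of tensors over an algebraically closed field of characteristic zero. The matrix
coefficients of the tensors which are annihilated by the infinitesimal stabiliser of `S` are locally
constant functions on the stabiliser of `S`. They form a space of finite dimension.
-/

set_option linter.unusedSectionVars false

namespace Pool.Agent.Q60.FI

open MvPolynomial Algebra Module Pool.Agent.Q60.ED Pool.Agent.Q60.NP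

variable {K : Type} [Field K] {ι : Type} [Fintype ι] [DecidableEq ι]
  {S : ∀ n : ℕ, Submodule K ((Fin n → ι) → K)}

lemma dA_rho {A B g : Matrix ι ι K} (h : g * A = B * g) (f : MvPolynomial (ι × ι) K) :
    rho g (dA A f) = dA B (rho g f) := by
  induction f using MvPolynomial.induction_on with
  | C a => rw [dA_C, map_zero, rho_C, dA_C]
  | add p q hp hq => rw [map_add, map_add, map_add, map_add, hp, hq]
  | mul_X p i hp =>
    rw [Derivation.leibniz, map_mul, Derivation.leibniz]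
    simp only [smul_eq_mul, map_add, map_mul]
    rw [hp]
    have h1 : rho g (dA A (X i)) = dA B (rho g (X i)) := by
      rw [dA_X, rho_X, map_sum, map_sum]
      simp only [map_mul, rho_X, rho_C, Derivation.leibniz, dA_C, dA_X, smul_eq_mul, mul_zero,
        zero_add, Finset.sum_mul, Finset.mul_sum]
      rw [Finset.sum_comm]
      have h2 : ∀ c, ∑ l, (X (i.1, c) : MvPolynomial (ι × ι) K) * C (g c l) * C (A l i.2) =
          X (i.1, c) * C ((g * A) c i.2) := by
        intro c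
        rw [Matrix.mul_apply, map_sum, Finset.mul_sum]
        refine Finset.sum_congr rfl fun l _ => ?_
        rw [map_mul]; ring
      simp only [h2, h]
      rw [Finset.sum_comm]
      refine Finset.sum_congr rfl fun c _ => ?_
      rw [Matrix.mul_apply, map_sum, Finset.mul_sum]
      refine Finset.sum_congr rfl fun l _ => ?_
      rw [map_mul]; ring
    rw [h1]

lemma tpow_aop {A B g : Matrix ι ι K} (h : g * A = B * g) {n : ℕ} (t : (Fin n → ι) → K) :
    tpow g n (aop A t) = aop B (tpow g n t) := by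
  funext I
  rw [← evM_one_xt (tpow g n (aop A t)) I, ← rho_xt, ← dA_xt, dA_rho h, rho_xt, dA_xt,
    evM_one_xt]

lemma xt_mul {m n : ℕ} (s : (Fin m → ι) → K) (t : (Fin n → ι) → K) (I : Fin m → ι)
    (J : Fin n → ι) : xt s I * xt t J = xt (tmul s t) (Fin.append I J) := by
  rw [xt, xt, xt, Finset.sum_mul_sum, ED.sum_append]
  refine Finset.sum_congr rfl fun A _ => Finset.sum_congr rfl fun B _ => ?_
  rw [mon_append, ED.tmul]
  simp only [Fin.append_left, Fin.append_right, map_mul]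
  ring

/-- The tensors annihilated by the infinitesimal stabiliser. -/
noncomputable def Lk (S : ∀ n : ℕ, Submodule K ((Fin n → ι) → K)) (n : ℕ) :
    Submodule K ((Fin n → ι) → K) where
  carrier := {t | ∀ A, Lie S A → aop A t = 0}
  add_mem' {a b} ha hb A hA := by
    funext I
    have h1 := congrFun (ha A hA) I
    have h2 := congrFun (hb A hA) I
    rw [aop_apply] at h1 h2 ⊢
    simp only [Pi.add_apply, mul_add, Finset.sum_add_distrib, Pi.zero_apply] at h1 h2 ⊢
    rw [h1, h2, add_zero]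
  zero_mem' A _ := by
    funext I
    rw [aop_apply]
    simp
  smul_mem' c a ha A hA := by
    funext I
    have h1 := congrFun (ha A hA) I
    rw [aop_apply] at h1 ⊢
    simp only [Pi.smul_apply, smul_eq_mul, mul_left_comm _ c, ← Finset.mul_sum,
      Pi.zero_apply] at h1 ⊢
    rw [h1, mul_zero]

lemma mem_Lk {n : ℕ} {t : (Fin n → ι) → K} : t ∈ Lk S n ↔ ∀ A, Lie S A → aop A t = 0 := Iff.rfl

lemma le_Lk (n : ℕ) : S n ≤ Lk S n := fun t ht _ hA => hA n t ht

lemma Lk_tmul {m n : ℕ} {s : (Fin m → ι) → K} {t : (Fin n → ι) → K} (hs : s ∈ Lk S m)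
    (ht : t ∈ Lk S n) : tmul s t ∈ Lk S (m + n) := by
  intro A hA
  funext L
  have h1 : L = Fin.append (fun k => L (Fin.castAdd n k)) (fun k => L (Fin.natAdd m k)) := by
    funext k
    refine Fin.addCases (fun k => ?_) (fun k => ?_) k
    · rw [Fin.append_left]
    · rw [Fin.append_right]
  rw [h1, ← evM_one_xt (aop A (tmul s t)), ← dA_xt, ← xt_mul, Derivation.leibniz, dA_xt, dA_xt,
    hs A hA, ht A hA, xt_zero, xt_zero]
  simp

lemma fix_mul_inv {g : Matrix ι ι K} (hd : g.det ≠ 0) : g * g⁻¹ = 1 :=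
  Matrix.mul_nonsing_inv _ (isUnit_iff_ne_zero.2 hd)

lemma fix_inv_mul {g : Matrix ι ι K} (hd : g.det ≠ 0) : g⁻¹ * g = 1 :=
  Matrix.nonsing_inv_mul _ (isUnit_iff_ne_zero.2 hd)

lemma lie_conj {g : Matrix ι ι K} (hg : Fix S g) (hd : g.det ≠ 0) {A : Matrix ι ι K}
    (hA : Lie S A) : Lie S (g⁻¹ * A * g) := by
  intro n s hs
  have h1 : g * (g⁻¹ * A * g) = A * g := by
    rw [← Matrix.mul_assoc, ← Matrix.mul_assoc, fix_mul_inv hd, Matrix.one_mul]
  have h2 := tpow_aop h1 s
  rw [hg n s hs, hA n s hs] at h2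
  have h3 := congrArg (tpow g⁻¹ n) h2
  rw [← tpow_mul, fix_inv_mul hd, tpow_one, map_zero] at h3
  exact h3

lemma Lk_fix {g : Matrix ι ι K} (hg : Fix S g) (hd : g.det ≠ 0) {n : ℕ} {t : (Fin n → ι) → K}
    (ht : t ∈ Lk S n) : tpow g n t ∈ Lk S n := by
  intro A hA
  have h1 : g * (g⁻¹ * A * g) = A * g := by
    rw [← Matrix.mul_assoc, ← Matrix.mul_assoc, fix_mul_inv hd, Matrix.one_mul]
  rw [← tpow_aop h1 t, ht _ (lie_conj hg hd hA), map_zero]

/-- The matrix coefficients are constant near each point of the stabiliser. -/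
lemma near_xt [CharZero K] {g : Matrix ι ι K} (hg : Fix S g) (hd : g.det ≠ 0) {n : ℕ}
    {t : (Fin n → ι) → K} (ht : t ∈ Lk S n) (I : Fin n → ι) :
    ∃ u, evM g u = 1 ∧ u * (xt t I - C (evM g (xt t I))) ∈ IS S := by
  have hg' : Fix S g⁻¹ := fun m s hs => tpow_inv hd (hg m s hs)
  have h1 : ft (tpow g n t) I ∈ (P1 : Ideal (MvPolynomial (ι × ι) K)) := by
    rw [mem_P1, evM_ft, tpow_one, sub_self]
  obtain ⟨u, hu1, hu⟩ := exists_unit (S := S) h1 fun A hA => by
    rw [dA_ft, Lk_fix hg hd ht A hA, xt_zero]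
  refine ⟨rho g⁻¹ u, ?_, ?_⟩
  · rw [evM_rho, fix_mul_inv hd, hu1]
  · have h2 := rho_IS hg' hu
    rw [map_mul, ft, map_sub, rho_xt, rho_C, ← tpow_mul, fix_inv_mul hd, tpow_one] at h2
    rw [evM_xt]
    exact h2

/-- The space of the matrix coefficients. -/
noncomputable def AL (S : ∀ n : ℕ, Submodule K ((Fin n → ι) → K)) :
    Submodule K (MvPolynomial (ι × ι) K) :=
  Submodule.span K {f | ∃ (n : ℕ) (t : (Fin n → ι) → K) (I : Fin n → ι), t ∈ Lk S n ∧ f = xt t I}

lemma xt_mem_AL {n : ℕ} {t : (Fin n → ι) → K} (ht : t ∈ Lk S n) (I : Fin n → ι) :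
    xt t I ∈ AL S := Submodule.subset_span ⟨n, t, I, ht, rfl⟩

lemma near_AL [CharZero K] {g : Matrix ι ι K} (hg : Fix S g) (hd : g.det ≠ 0)
    {b : MvPolynomial (ι × ι) K} (hb : b ∈ AL S) :
    ∃ u, evM g u = 1 ∧ u * (b - C (evM g b)) ∈ IS S := by
  induction hb using Submodule.span_induction with
  | mem x hx =>
    obtain ⟨n, t, I, ht, rfl⟩ := hx
    exact near_xt hg hd ht I
  | zero => exact ⟨1, map_one _, by simp⟩
  | add x y _ _ hx hy =>
    obtain ⟨u, hu1, hu⟩ := hx
    obtain ⟨v, hv1, hv⟩ := hy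
    refine ⟨u * v, by rw [map_mul, hu1, hv1, one_mul], ?_⟩
    have h1 : u * v * (x + y - C (evM g (x + y))) =
        v * (u * (x - C (evM g x))) + u * (v * (y - C (evM g y))) := by
      rw [map_add, C_add]; ring
    rw [h1]
    exact Ideal.add_mem _ (Ideal.mul_mem_left _ _ hu) (Ideal.mul_mem_left _ _ hv)
  | smul c x _ hx =>
    obtain ⟨u, hu1, hu⟩ := hx
    refine ⟨u, hu1, ?_⟩
    have h1 : u * (c • x - C (evM g (c • x))) = C c * (u * (x - C (evM g x))) := by
      rw [map_smul, smul_eq_mul, C_mul, smul_eq_C_mul]; ring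
    rw [h1]
    exact Ideal.mul_mem_left _ _ hu

/-- The kernel of the evaluation at a point. -/
noncomputable def mg (g : Matrix ι ι K) : Ideal (MvPolynomial (ι × ι) K) :=
  RingHom.ker (evM g).toRingHom

lemma mem_mg {g : Matrix ι ι K} {f : MvPolynomial (ι × ι) K} : f ∈ mg g ↔ evM g f = 0 := Iff.rfl

lemma mg_prime (g : Matrix ι ι K) : (mg g).IsPrime := RingHom.ker_isPrime _

lemma exists_point_of_le [IsAlgClosed K] {J : Ideal (MvPolynomial (ι × ι) K)} (hJ : J ≠ ⊤) :
    ∃ g : Matrix ι ι K, J ≤ mg g := by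
  obtain ⟨𝔪, h𝔪, hle⟩ := Ideal.exists_le_maximal J hJ
  obtain ⟨x, hx⟩ := (isMaximal_iff_eq_vanishingIdeal_singleton (K := K)).1 h𝔪
  refine ⟨Matrix.of fun a b => x (a, b), fun v hv => ?_⟩
  have h2 := hle hv
  rw [hx, mem_vanishingIdeal_singleton_iff] at h2
  exact h2

lemma fix_of_le {g : Matrix ι ι K} (h : IS S ≤ mg g) : Fix S g := by
  rw [fix_iff]
  exact fun f hf => h hf

lemma le_of_fix {g : Matrix ι ι K} (h : Fix S g) : IS S ≤ mg g := fun _ hf => evM_IS h hf

/-- Matrix coefficients which vanish on the stabiliser are in the ideal. -/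
theorem mem_IS_of_vanish [IsAlgClosed K] [CharZero K] {Ω : (Fin 2 → ι) → K} (hΩ : Ω ∈ S 2)
    (hdet : (mat2 Ω).det ≠ 0) {b : MvPolynomial (ι × ι) K} (hb : b ∈ AL S)
    (h : ∀ g, Fix S g → evM g b = 0) : b ∈ IS S := by
  let J : Ideal (MvPolynomial (ι × ι) K) :=
    { carrier := {v | v * b ∈ IS S}
      add_mem' := fun {x y} hx hy => by
        change (x + y) * b ∈ IS S
        rw [add_mul]; exact Ideal.add_mem _ hx hy
      zero_mem' := by
        change 0 * b ∈ IS S
        rw [zero_mul]; exact Ideal.zero_mem _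
      smul_mem' := fun c x hx => by
        change (c * x) * b ∈ IS S
        rw [mul_assoc]; exact Ideal.mul_mem_left _ _ hx }
  have hJ : ∀ v, v ∈ J ↔ v * b ∈ IS S := fun v => Iff.rfl
  have htop : J = ⊤ := by
    by_contra hne
    obtain ⟨g, hg⟩ := exists_point_of_le hne
    have hfix : Fix S g := fix_of_le fun f hf => hg ((hJ f).2 (Ideal.mul_mem_right _ _ hf))
    obtain ⟨u, hu1, hu⟩ := near_AL hfix (fix_det hΩ hdet hfix) hb
    rw [h g hfix, C_0, sub_zero] at hu
    have h1 := hg ((hJ u).2 hu)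
    rw [mem_mg, hu1] at h1
    exact one_ne_zero h1
  have h6 : (1 : MvPolynomial (ι × ι) K) ∈ J := by rw [htop]; trivial
  rw [hJ, one_mul] at h6
  exact h6

/-- The matrix coefficients of the tensors of degree `n`. -/
noncomputable def ALn (S : ∀ n : ℕ, Submodule K ((Fin n → ι) → K)) (n : ℕ) :
    Submodule K (MvPolynomial (ι × ι) K) :=
  Submodule.span K {f | ∃ (t : (Fin n → ι) → K) (I : Fin n → ι), t ∈ Lk S n ∧ f = xt t I}

lemma ALn_le (n : ℕ) : ALn S n ≤ AL S := by
  refine Submodule.span_mono ?_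
  rintro _ ⟨t, I, ht, rfl⟩
  exact ⟨n, t, I, ht, rfl⟩

/-- Multiplication by a fixed vector raises the degree. -/
lemma ALn_succ {u : (Fin 1 → ι) → K} (hu : u ∈ S 1) (hu0 : u ≠ 0) {n : ℕ}
    {b : MvPolynomial (ι × ι) K} (hb : b ∈ ALn S n) : ∃ b' ∈ ALn S (n + 1), b - b' ∈ IS S := by
  obtain ⟨J, hJ⟩ : ∃ J, u J ≠ 0 := by
    by_contra hcon
    push Not at hcon
    exact hu0 (funext hcon)
  induction hb using Submodule.span_induction with
  | mem x hx =>
    obtain ⟨t, I, ht, rfl⟩ := hx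
    refine ⟨(u J)⁻¹ • xt (tmul t u) (Fin.append I J), Submodule.smul_mem _ _
      (Submodule.subset_span ⟨_, _, Lk_tmul ht (le_Lk 1 hu), rfl⟩), ?_⟩
    rw [← xt_mul]
    have h1 : xt t I - (u J)⁻¹ • (xt t I * xt u J) = (- (C (u J)⁻¹ * xt t I)) * ft u J := by
      have h2 : (C (u J)⁻¹ : MvPolynomial (ι × ι) K) * C (u J) = 1 := by
        rw [← C_mul, inv_mul_cancel₀ hJ, C_1]
      rw [ft, smul_eq_C_mul]
      linear_combination (- xt t I) * h2
    rw [h1]
    exact Ideal.mul_mem_left _ _ (ft_mem hu J)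
  | zero => exact ⟨0, Submodule.zero_mem _, by simp⟩
  | add x y _ _ hx hy =>
    obtain ⟨x', hx', h1⟩ := hx
    obtain ⟨y', hy', h2⟩ := hy
    refine ⟨x' + y', Submodule.add_mem _ hx' hy', ?_⟩
    rw [add_sub_add_comm]
    exact Ideal.add_mem _ h1 h2
  | smul c x _ hx =>
    obtain ⟨x', hx', h1⟩ := hx
    refine ⟨c • x', Submodule.smul_mem _ _ hx', ?_⟩
    rw [← smul_sub, smul_eq_C_mul]
    exact Ideal.mul_mem_left _ _ h1

/-- **The matrix coefficients of all degrees are those of one degree.** -/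
theorem exists_degree [IsAlgClosed K] [CharZero K] {Ω : (Fin 2 → ι) → K} (hΩ : Ω ∈ S 2)
    (hdet : (mat2 Ω).det ≠ 0) {u : (Fin 1 → ι) → K} (hu : u ∈ S 1) (hu0 : u ≠ 0) :
    ∃ m, ∀ n, ∀ b ∈ ALn S n, ∃ b' ∈ ALn S m, b - b' ∈ IS S := by
  classical
  have hfin : (IS S).minimalPrimes.Finite := Ideal.finite_minimalPrimes_of_isNoetherianRing _ _
  let P := {p // p ∈ (IS S).minimalPrimes}
  have : Finite P := hfin.to_subtype
  have hpt : ∀ p : P, ∃ g : Matrix ι ι K, p.1 ≤ mg g := fun p =>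
    exists_point_of_le (p.2.1.1.ne_top)
  choose g hg using hpt
  have hIp : ∀ p : P, IS S ≤ p.1 := fun p => p.2.1.2
  have hfix : ∀ p, Fix S (g p) := fun p => fix_of_le ((hIp p).trans (hg p))
  let Ψ : MvPolynomial (ι × ι) K →ₗ[K] (P → K) := LinearMap.pi fun p => (evM (g p)).toLinearMap
  have hΨ : ∀ b p, Ψ b p = evM (g p) b := fun b p => rfl
  -- a matrix coefficient in the kernel is in the ideal
  have hker : ∀ b ∈ AL S, Ψ b = 0 → b ∈ IS S := by
    intro b hb h0
    refine mem_IS_of_vanish hΩ hdet hb fun γ hγ => ?_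
    have := mg_prime γ
    obtain ⟨p, hp, hpγ⟩ := Ideal.exists_minimalPrimes_le (le_of_fix hγ)
    obtain ⟨v, hv1, hv⟩ := near_AL (hfix ⟨p, hp⟩) (fix_det hΩ hdet (hfix ⟨p, hp⟩)) hb
    have h1 := hΨ b ⟨p, hp⟩
    rw [h0, Pi.zero_apply] at h1
    rw [← h1, C_0, sub_zero] at hv
    have h2 := hp.1.1.mem_or_mem (hIp ⟨p, hp⟩ hv)
    rcases h2 with h2 | h2
    · exfalso
      have h3 := hg ⟨p, hp⟩ h2
      rw [mem_mg, hv1] at h3
      exact one_ne_zero h3
    · exact hpγ h2
  have hI : ∀ b ∈ IS S, Ψ b = 0 := by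
    intro b hb
    funext p
    rw [hΨ]
    exact evM_IS (hfix p) hb
  have hmono : Monotone fun n => (ALn S n).map Ψ := by
    refine monotone_nat_of_le_succ fun n => ?_
    rintro _ ⟨b, hb, rfl⟩
    obtain ⟨b', hb', h1⟩ := ALn_succ hu hu0 hb
    refine ⟨b', hb', ?_⟩
    have h2 := hI _ h1
    rw [map_sub, sub_eq_zero] at h2
    exact h2.symm
  obtain ⟨m, hm⟩ := monotone_stabilizes_iff_noetherian.2
    (inferInstance : IsNoetherian K (P → K)) ⟨_, hmono⟩
  refine ⟨m, fun n b hb => ?_⟩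
  have h1 : Ψ b ∈ (ALn S m).map Ψ := by
    rcases le_total n m with h | h
    · exact hmono h ⟨b, hb, rfl⟩
    · have h2 := hm n h
      change (ALn S m).map Ψ = (ALn S n).map Ψ at h2
      rw [h2]
      exact ⟨b, hb, rfl⟩
  obtain ⟨b', hb', h2⟩ := h1
  refine ⟨b', hb', hker _ (Submodule.sub_mem _ (ALn_le n hb) (ALn_le m hb')) ?_⟩
  rw [map_sub, h2, sub_self]

end Pool.Agent.Q60.FI
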