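import Pool.Agent.Y129.CatCons

/-!
# The dimension of an algebra of operators and the dimension of its invariants

A finite group `F` acts on an algebra `E` of operators of a vector space of finite dimension, and
the action preserves the traces. The dimension of the quotient of `E` by the radical of the trace
form is at most the order of `F` times the dimension of the space of the invariants.
-/

set_option linter.unusedSectionVars false

namespace Pool.Agent.Q60.FI

open Module LinearMap Pool.Agent.Y129

section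

variable {L : Type} [Field L] {W : Type} [AddCommGroup W] [Module L W]

/-- A finite set with an action of the group. -/
structure FS (F : Type) [Group F] where
  /-- the set -/
  X : Type
  [fX : Fintype X]
  [dX : DecidableEq X]
  [aX : MulAction F X]

attribute [instance] FS.fX FS.dX FS.aX

/-- A block of an operator. -/
noncomputable def blk {X Y : Type} [DecidableEq X] (y : Y) (x : X)
    (f : (X → W) →ₗ[L] (Y → W)) : Module.End L W :=
  (LinearMap.proj y : (Y → W) →ₗ[L] W) ∘ₗ f ∘ₗ (LinearMap.single L (fun _ : X => W) x)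

lemma blk_apply {X Y : Type} [DecidableEq X] (y : Y) (x : X) (f : (X → W) →ₗ[L] (Y → W)) (w : W) :
    blk y x f w = f (Pi.single x w) y := rfl

lemma blk_add {X Y : Type} [DecidableEq X] (y : Y) (x : X) (f g : (X → W) →ₗ[L] (Y → W)) :
    blk y x (f + g) = blk y x f + blk y x g := rfl

lemma blk_smul {X Y : Type} [DecidableEq X] (y : Y) (x : X) (c : L) (f : (X → W) →ₗ[L] (Y → W)) :
    blk y x (c • f) = c • blk y x f := rfl

lemma blk_comp {X Y Z : Type} [DecidableEq X] [Fintype Y] [DecidableEq Y] (z : Z) (x : X)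
    (g : (Y → W) →ₗ[L] (Z → W)) (f : (X → W) →ₗ[L] (Y → W)) :
    blk z x (g ∘ₗ f) = ∑ y, blk z y g * blk y x f := by
  apply LinearMap.ext
  intro w
  rw [blk_apply, LinearMap.comp_apply, LinearMap.sum_apply]
  conv_lhs => rw [← Finset.univ_sum_single (f (Pi.single x w))]
  rw [map_sum, Finset.sum_apply]
  rfl

lemma blk_ext {X Y : Type} [Fintype X] [DecidableEq X] {f g : (X → W) →ₗ[L] (Y → W)}
    (h : ∀ y x, blk y x f = blk y x g) : f = g := by
  apply LinearMap.ext
  intro v
  funext y
  rw [← Finset.univ_sum_single v, map_sum, map_sum, Finset.sum_apply, Finset.sum_apply]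
  refine Finset.sum_congr rfl fun x _ => ?_
  exact LinearMap.congr_fun (h y x) (v x)

/-- The operator with given blocks. -/
noncomputable def ofBlk {X Y : Type} [Fintype X] (k : Y → X → Module.End L W) :
    (X → W) →ₗ[L] (Y → W) :=
  LinearMap.pi fun y => ∑ x, k y x ∘ₗ (LinearMap.proj x : (X → W) →ₗ[L] W)

lemma blk_ofBlk {X Y : Type} [Fintype X] [DecidableEq X] (k : Y → X → Module.End L W) (y : Y)
    (x : X) : blk y x (ofBlk k) = k y x := by
  apply LinearMap.ext
  intro w
  rw [blk_apply, ofBlk, LinearMap.pi_apply, LinearMap.sum_apply, Finset.sum_eq_single x]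
  · rw [LinearMap.comp_apply, LinearMap.proj_apply, Pi.single_eq_same]
  · intro x' _ hx'
    rw [LinearMap.comp_apply, LinearMap.proj_apply, Pi.single_eq_of_ne hx', map_zero]
  · intro hn
    exact absurd (Finset.mem_univ _) hn

lemma trace_blk {X : Type} [Fintype X] [DecidableEq X] [Module.Finite L W]
    (f : (X → W) →ₗ[L] (X → W)) :
    LinearMap.trace L (X → W) f = ∑ x, LinearMap.trace L W (blk x x f) := by
  have h1 : f = ∑ x, (f ∘ₗ LinearMap.single L (fun _ : X => W) x) ∘ₗ
      (LinearMap.proj x : (X → W) →ₗ[L] W) := by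
    apply LinearMap.ext
    intro v
    rw [LinearMap.sum_apply]
    conv_lhs => rw [← Finset.univ_sum_single v]
    rw [map_sum]
    rfl
  conv_lhs => rw [h1]
  rw [map_sum]
  refine Finset.sum_congr rfl fun x _ => ?_
  rw [LinearMap.trace_comp_comm']
  rfl

lemma trace_blk_comp {X Y : Type} [Fintype X] [DecidableEq X] [Fintype Y] [DecidableEq Y]
    [Module.Finite L W] (g : (Y → W) →ₗ[L] (X → W)) (f : (X → W) →ₗ[L] (Y → W)) :
    LinearMap.trace L (X → W) (g ∘ₗ f) =
      ∑ x, ∑ y, LinearMap.trace L W (blk x y g * blk y x f) := by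
  rw [trace_blk]
  refine Finset.sum_congr rfl fun x _ => ?_
  rw [blk_comp, map_sum]

variable {E : Subalgebra L (Module.End L W)} {F : Type} [Group F] (α : F →* (E ≃ₐ[L] E))

/-- The invariant operators. -/
def Cinv (Y Z : FS F) : Submodule L ((Y.X → W) →ₗ[L] (Z.X → W)) where
  carrier := {f | ∃ k : Z.X → Y.X → E, (∀ a z y, k (a • z) (a • y) = α a (k z y)) ∧
    ∀ z y, blk z y f = (k z y : Module.End L W)}
  zero_mem' := ⟨fun _ _ => 0, fun a z y => (map_zero _).symm, fun z y => rfl⟩
  add_mem' := by
    rintro f g ⟨k, hk, hk'⟩ ⟨l, hl, hl'⟩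
    refine ⟨fun z y => k z y + l z y, fun a z y => ?_, fun z y => ?_⟩
    · change k (a • z) (a • y) + l (a • z) (a • y) = α a (k z y + l z y)
      rw [hk, hl, map_add]
    · rw [blk_add, hk', hl']
      rfl
  smul_mem' := by
    rintro c f ⟨k, hk, hk'⟩
    refine ⟨fun z y => c • k z y, fun a z y => ?_, fun z y => ?_⟩
    · change c • k (a • z) (a • y) = α a (c • k z y)
      rw [hk, map_smul]
    · rw [blk_smul, hk']
      rfl

lemma mem_Cinv {Y Z : FS F} {f : (Y.X → W) →ₗ[L] (Z.X → W)} : f ∈ Cinv α Y Z ↔
    ∃ k : Z.X → Y.X → E, (∀ a z y, k (a • z) (a • y) = α a (k z y)) ∧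
      ∀ z y, blk z y f = (k z y : Module.End L W) := Iff.rfl

lemma isCat_Cinv : IsCat (Cinv α) where
  id_mem Y := by
    refine ⟨fun z y => if z = y then 1 else 0, fun a z y => ?_, fun z y => ?_⟩
    · change (if a • z = a • y then (1 : E) else 0) = α a (if z = y then 1 else 0)
      by_cases h : z = y
      · rw [if_pos h, if_pos (by rw [h]), map_one]
      · rw [if_neg h, if_neg (fun h1 => h (smul_left_cancel a h1)), map_zero]
    · change _ = ((if z = y then (1 : E) else 0 : E) : Module.End L W)
      by_cases h : z = y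
      · subst h
        rw [if_pos rfl]
        apply LinearMap.ext
        intro w
        rw [blk_apply, LinearMap.id_apply, Pi.single_eq_same]
        rfl
      · rw [if_neg h]
        apply LinearMap.ext
        intro w
        rw [blk_apply, LinearMap.id_apply, Pi.single_eq_of_ne h]
        rfl
  comp_mem {X Y Z g f} := by
    rintro ⟨k, hk, hk'⟩ ⟨l, hl, hl'⟩
    refine ⟨fun z x => ∑ y, k z y * l y x, fun a z x => ?_, fun z x => ?_⟩
    · rw [map_sum]
      refine (Equiv.sum_comp (MulAction.toPerm a) (fun y => k (a • z) y * l y (a • x))).symm.trans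
        ?_
      refine Finset.sum_congr rfl fun y _ => ?_
      rw [MulAction.toPerm_apply, hk, hl, map_mul]
    · rw [blk_comp, AddSubmonoidClass.coe_finsetSum]
      refine Finset.sum_congr rfl fun y _ => ?_
      rw [hk', hl']
      rfl

/-- The radical of the trace form. -/
def radT (E : Subalgebra L (Module.End L W)) : Submodule L E where
  carrier := {x | ∀ y : E, LinearMap.trace L W ((y : Module.End L W) * x) = 0}
  zero_mem' y := by
    rw [ZeroMemClass.coe_zero, mul_zero, map_zero]
  add_mem' {a b} ha hb y := by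
    rw [AddMemClass.coe_add, mul_add, map_add, ha y, hb y, add_zero]
  smul_mem' c a ha y := by
    change LinearMap.trace L W ((y : Module.End L W) * (c • (a : Module.End L W))) = 0
    rw [mul_smul_comm, map_smul, ha y, smul_zero]

lemma finrank_map_le {V U P : Type} [AddCommGroup V] [Module L V] [AddCommGroup U] [Module L U]
    [AddCommGroup P] [Module L P] (S : Submodule L V) [Module.Finite L S] [Module.Finite L U]
    (π : V →ₗ[L] P)
    (Φ : S →ₗ[L] U) (h : ∀ s : S, Φ s = 0 → π s = 0) : finrank L (S.map π) ≤ finrank L U := by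
  have h1 := LinearMap.finrank_range_add_finrank_ker (π.domRestrict S)
  have h2 := LinearMap.finrank_range_add_finrank_ker Φ
  have h3 : LinearMap.ker Φ ≤ LinearMap.ker (π.domRestrict S) := by
    intro s hs
    rw [LinearMap.mem_ker, LinearMap.domRestrict_apply]
    exact h s hs
  have h4 := Submodule.finrank_mono h3
  have h5 := Submodule.finrank_le (LinearMap.range Φ)
  rw [LinearMap.range_domRestrict] at h1
  omega

variable [Module.Finite L W]

lemma nd_pt (P : FS F) (p0 : P.X) (hp : ∀ x : P.X, x = p0) (B : Submodule L (Module.End L W))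
    (hB : ∀ x : E, (∀ a, α a x = x) → (x : Module.End L W) ∈ B) :
    nd (Cinv α) P P (Cinv α P P) ≤ finrank L B := by
  refine finrank_map_le (L := L) (Cinv α P P) _
    (LinearMap.codRestrict B (LinearMap.domRestrict
      { toFun := fun f => blk p0 p0 f
        map_add' := fun f g => blk_add _ _ f g
        map_smul' := fun c f => blk_smul _ _ c f } (Cinv α P P)) ?_) ?_
  · rintro ⟨f, k, hk, hk'⟩
    change blk p0 p0 f ∈ B
    rw [hk' p0 p0]
    refine hB _ fun a => ?_
    rw [← hk, hp (a • p0)]
  · rintro ⟨f, hf⟩ h0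
    have h1 : blk p0 p0 f = 0 := congrArg Subtype.val h0
    have h2 : f = 0 := by
      refine blk_ext fun y x => ?_
      rw [hp y, hp x, h1]
      rfl
    change (perp (Cinv α) P P).mkQ f = 0
    rw [h2, map_zero]

lemma trace_reg (htr : ∀ a (x : E), LinearMap.trace L W (α a x : Module.End L W) =
      LinearMap.trace L W (x : Module.End L W)) {R X : FS F} (r0 : R.X)
    (hr : ∀ r : R.X, ∃ a : F, a • r0 = r) {k : R.X → X.X → E} {l : X.X → R.X → E}
    (hk : ∀ (a : F) z y, k (a • z) (a • y) = α a (k z y)) (hl : ∀ (a : F) z y,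
      l (a • z) (a • y) = α a (l z y)) (r : R.X) :
    ∑ x, LinearMap.trace L W ((k r x : Module.End L W) * l x r) =
      ∑ x, LinearMap.trace L W ((k r0 x : Module.End L W) * l x r0) := by
  obtain ⟨a, rfl⟩ := hr r
  refine (Equiv.sum_comp (MulAction.toPerm a) (fun x => LinearMap.trace L W
    ((k (a • r0) x : Module.End L W) * l x (a • r0)))).symm.trans ?_
  refine Finset.sum_congr rfl fun x _ => ?_
  rw [MulAction.toPerm_apply, hk, hl, ← Subalgebra.coe_mul, ← map_mul, htr]
  rfl

lemma nd_reg (htr : ∀ a (x : E), LinearMap.trace L W (α a x : Module.End L W) =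
      LinearMap.trace L W (x : Module.End L W)) (R : FS F) (r0 : R.X)
    (hr : ∀ r : R.X, ∃ a : F, a • r0 = r) :
    nd (Cinv α) R R (Cinv α R R) ≤
      Fintype.card R.X * finrank L (E ⧸ radT E) := by
  have hkey : ∀ f : Cinv α R R, ∀ z : R.X, blk z r0 f.1 ∈ E := by
    rintro ⟨f, k, hk, hk'⟩ z
    change blk z r0 f ∈ E
    rw [hk' z r0]
    exact (k z r0).2
  let Φ : Cinv α R R →ₗ[L] (R.X → E ⧸ radT E) :=
    { toFun := fun f z => (radT E).mkQ ⟨blk z r0 f.1, hkey f z⟩
      map_add' := fun f g => by
        funext z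
        rw [Pi.add_apply, ← map_add]
        rfl
      map_smul' := fun c f => by
        funext z
        rw [Pi.smul_apply, RingHom.id_apply, ← map_smul]
        rfl }
  have h1 := finrank_map_le (L := L) (Cinv α R R) (perp (Cinv α) R R).mkQ Φ ?_
  · rw [Module.finrank_pi_fintype] at h1
    simp only [Finset.sum_const, Finset.card_univ, smul_eq_mul] at h1
    exact h1
  · rintro ⟨f, hf⟩ h0
    rw [Submodule.mkQ_apply, Submodule.Quotient.mk_eq_zero, mem_perp]
    intro g hg
    obtain ⟨l, hl, hl'⟩ := hf
    obtain ⟨k, hk, hk'⟩ := hg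
    rw [trace_blk_comp]
    refine Finset.sum_eq_zero fun x _ => ?_
    have e1 : ∀ y : R.X, LinearMap.trace L W (blk x y g * blk y x f) =
        LinearMap.trace L W ((k x y : Module.End L W) * l y x) := by
      intro y
      rw [hk' x y, hl' y x]
    rw [Finset.sum_congr rfl fun y _ => e1 y]
    rw [trace_reg α htr r0 hr hk hl x]
    refine Finset.sum_eq_zero fun y _ => ?_
    have e2 := congrFun h0 y
    change (radT E).mkQ ⟨blk y r0 f, _⟩ = 0 at e2
    rw [Submodule.mkQ_apply, Submodule.Quotient.mk_eq_zero] at e2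
    have e3 := e2 (k r0 y)
    rw [← hl' y r0]
    exact e3

lemma nd_mix [CharZero L] (htr : ∀ a (x : E), LinearMap.trace L W (α a x : Module.End L W) =
      LinearMap.trace L W (x : Module.End L W)) (P : FS F) (p0 : P.X)
    (R : FS F) (e : F ≃ R.X) (he : ∀ a b : F, e (a * b) = a • e b) :
    finrank L (E ⧸ radT E) ≤ nd (Cinv α) P R (Cinv α P R) := by
  have he' : ∀ (a : F) (z : R.X), e.symm (a • z) = a * e.symm z := by
    intro a z
    apply e.injective
    rw [e.apply_symm_apply, he, e.apply_symm_apply]
  -- the operators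
  let op : E →ₗ[L] ((P.X → W) →ₗ[L] (R.X → W)) :=
    { toFun := fun x => ofBlk fun z _ => (α (e.symm z) x : Module.End L W)
      map_add' := fun x y => by
        refine blk_ext fun z u => ?_
        rw [blk_add, blk_ofBlk, blk_ofBlk, blk_ofBlk, map_add]
        rfl
      map_smul' := fun c x => by
        refine blk_ext fun z u => ?_
        rw [RingHom.id_apply, blk_smul, blk_ofBlk, blk_ofBlk, map_smul]
        rfl }
  have hop' : ∀ x z u, blk z u (op x) = (α (e.symm z) x : Module.End L W) :=
    fun x z u => blk_ofBlk _ z u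
  have hop : ∀ x, op x ∈ Cinv α P R := by
    intro x
    refine ⟨fun z _ => α (e.symm z) x, fun a z y => ?_, fun z y => hop' x z y⟩
    change α (e.symm (a • z)) x = α a (α (e.symm z) x)
    rw [he', map_mul]
    rfl
  let Ψ : E →ₗ[L] ((Cinv α P R).map (perp (Cinv α) P R).mkQ : Submodule L _) :=
    LinearMap.codRestrict _ ((perp (Cinv α) P R).mkQ ∘ₗ op) (fun x =>
      Submodule.mem_map_of_mem (hop x))
  have hker : LinearMap.ker Ψ ≤ radT E := by
    intro x hx y
    have h1 : (perp (Cinv α) P R).mkQ (op x) = 0 := congrArg Subtype.val hx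
    rw [Submodule.mkQ_apply, Submodule.Quotient.mk_eq_zero, mem_perp] at h1
    have h2 := h1 (ofBlk fun _ z => (α (e.symm z) y : Module.End L W)) ?_
    · rw [trace_blk_comp] at h2
      have e1 : ∀ (p : P.X) (z : R.X), LinearMap.trace L W (blk p z
          (ofBlk fun _ z => (α (e.symm z) y : Module.End L W)) * blk z p (op x)) =
          LinearMap.trace L W ((y : Module.End L W) * x) := by
        intro p z
        rw [blk_ofBlk, hop', ← Subalgebra.coe_mul, ← map_mul, htr]
        rfl
      rw [Finset.sum_congr rfl fun p _ => Finset.sum_congr rfl fun z _ => e1 p z,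
        Finset.sum_const, Finset.sum_const, Finset.card_univ, Finset.card_univ,
        nsmul_eq_mul, nsmul_eq_mul] at h2
      have hP0 : Fintype.card P.X ≠ 0 := fun h => by
        have := Fintype.card_eq_zero_iff.1 h
        exact this.false p0
      have hR0 : Fintype.card R.X ≠ 0 := fun h => by
        have := Fintype.card_eq_zero_iff.1 h
        exact this.false (e 1)
      rcases mul_eq_zero.1 h2 with h3 | h3
      · exact absurd (Nat.cast_eq_zero.1 h3) hP0
      · rcases mul_eq_zero.1 h3 with h4 | h4
        · exact absurd (Nat.cast_eq_zero.1 h4) hR0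
        · exact h4
    · refine ⟨fun _ z => α (e.symm z) y, fun a z u => ?_, fun z u => blk_ofBlk _ z u⟩
      change α (e.symm (a • u)) y = α a (α (e.symm u) y)
      rw [he', map_mul]
      rfl
  have h1 := LinearMap.finrank_range_add_finrank_ker Ψ
  have h2 := Submodule.finrank_mono hker
  have h3 := Submodule.finrank_quotient_add_finrank (radT E)
  have h4 := Submodule.finrank_le (LinearMap.range Ψ)
  rw [nd]
  omega

/-- **The dimension of an algebra and the dimension of its invariants.** -/
theorem finrank_le_card_mul [Fintype F] [DecidableEq F] [IsAlgClosed L] [CharZero L]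
    (htr : ∀ a (x : E), LinearMap.trace L W (α a x : Module.End L W) =
      LinearMap.trace L W (x : Module.End L W)) (B : Submodule L (Module.End L W))
    (hB : ∀ x : E, (∀ a, α a x = x) → (x : Module.End L W) ∈ B) {V : Type} [AddCommGroup V]
    [Module L V] (φ : V →ₗ[L] E)
    (hφ : ∀ x, (∀ y : E, LinearMap.trace L W ((y : Module.End L W) * φ x) = 0) → x = 0) :
    finrank L V ≤ Fintype.card F * finrank L B := by
  obtain ⟨P, p0, hp⟩ : ∃ (P : FS F) (p0 : P.X), ∀ x : P.X, x = p0 := by
    let i : MulAction F Unit :=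
      { smul := fun _ x => x
        one_smul := fun _ => rfl
        mul_smul := fun _ _ _ => rfl }
    exact ⟨{ X := Unit, aX := i }, (), fun _ => rfl⟩
  obtain ⟨R, e, he⟩ : ∃ (R : FS F) (e : F ≃ R.X), ∀ a b : F, e (a * b) = a • e b :=
    ⟨{ X := F }, Equiv.refl F, fun a b => rfl⟩
  have h1 := nd_sq_le (isCat_Cinv α) P R ((isCat_Cinv α).id_mem _)
    IsIdempotentElem.one ((isCat_Cinv α).id_mem _) IsIdempotentElem.one
  rw [sand_one, sand_one, sand_one] at h1
  have h2 := nd_pt α P p0 hp B hB
  have h3 := nd_reg α htr R (e 1) (fun r => ⟨e.symm r, by rw [← he, mul_one,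
    e.apply_symm_apply]⟩)
  rw [← Fintype.card_congr e] at h3
  have h4 := nd_mix α htr P p0 R e he
  set d := finrank L (E ⧸ radT E) with hd
  have h5 : finrank L V ≤ d := by
    have hinj : Function.Injective ((radT E).mkQ ∘ₗ φ) := by
      rw [injective_iff_map_eq_zero]
      intro x h0
      rw [LinearMap.comp_apply, Submodule.mkQ_apply, Submodule.Quotient.mk_eq_zero] at h0
      exact hφ x h0
    exact LinearMap.finrank_le_finrank_of_injective hinj
  refine h5.trans ?_
  by_contra hcon
  push Not at hcon
  have h6 : d ^ 2 ≤ finrank L B * (Fintype.card F * d) :=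
    (Nat.pow_le_pow_left h4 2).trans (h1.trans (Nat.mul_le_mul h2 h3))
  have h7 : 0 < d := by omega
  have h8 : d * d ≤ (Fintype.card F * finrank L B) * d := by
    calc d * d = d ^ 2 := (sq d).symm
      _ ≤ _ := h6
      _ = _ := by ring
  have h9 := Nat.le_of_mul_le_mul_right h8 h7
  omega

end

end Pool.Agent.Q60.FI
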